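import Pool.Agent.Work.MP_ede3c6_co.W.AlcExB

/-! Existence of the allocation.

PLAN. `c = L0 Q`. Block type `Bt j = (bl j, bs j % 2, fun o : Fin (2 K) => rd (av j o))`, `BB` =
image of `Bt` on `range (J + 1)`, at most `nB` elements; `τ B o` the type at offset `o`,
`kB B` = sup of `lev (τ B o)` over `o < B.1`; `NB B` = number of `j ≤ J` with `Bt j = B`;
`FB B = NB B / (c 2 ^ (kk - kB B)) + 1`; `fill1` gives `tr j < FB 2 ^ (kk - kB)` with capacity `c`;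
`tk j = (Bt j, tr j)`, `f j = tr j / 2 ^ (kk - kB)`, `β j = tr j % 2 ^ (kk - kB)`;
`m B o = mb (τ B o) (kB B)`, `nb B o = FB B / m B o + 1`; class `cm j o = inl (Bt j, o, f j / m)`,
label `lm j o = mk zone (su τ kB (f j % m)) (sz τ kB (f j % m) + hv kB (β j))`.
Main requests of parity `π`: the `(B, o, bin, r)` with `B ∈ BB`, `o < B.1`, `bin < nb B o`,
`vr (τ B o) r`, `rp (τ B o) (B.2.1 + o) r = π`; their number is the sum of `nb B o` times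
(`[small]` if the parity is `π`, else `oth`), at most
`(1 + η) Vb / (c bin) + 2 nB (2 K) (aS + 1)` by `nb ≤ NB / (c m 2 ^ (kk - kB)) + 2`, `ef1`, `ef2`,
`vol`. Groups `γ j = (rd (mx j), (bs j + bl j) % 2)`; `nl γ` (`nf γ`) = sum of `nb B (B.1 - 1)`
(`nb B 0`) over the `B ∈ BB` whose last (first) type is `γ.1`; the number of `j < J` with given
`γ j` and given `zz (lm j (bl j - 1))` is at most `c 2 ^ t nl γ` (the track is determined by
`B`, the bin, `uo` of the label and `zz`, by `sti`), the same for `lm (j + 1) 0` and `nf`;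
`nu γ = L0 2 ^ t (nl γ + nf γ) + 1`, `fill2` gives units `ν j < nu (γ j)` with capacity `Q`;
`cj j m e = inr (γ j, ν j, m, e)`. Junction requests: the `(γ, ν, m, r)` with
`γ ∈ TS ×ˢ range 2`, `ν < nu γ`, `m < M0`, `vr γ.1 r`. Zones: enumerate the standard zones
(`nA` of them) by `zn`; junction request `x` gets `zn (idx x)`, main request `x` of parity `π`
gets `zn (nJ + idx π x)`; `Fit.hA` says that this fits. `Dl` = the differences of consecutive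
labels, they depend only on `(B, f, o)`, and `FB B ≤ 2 ^ (t + mu) nA` (take `o` with
`lev (τ B o) = kB B`: `FB < m nb`, `m ≤ 2 ^ (t + mu)` by `mb1`, `nb ≤` number of main requests
of one parity `≤ nA`). -/

set_option autoImplicit false

namespace Pool.Agent.Work.MP_ede3c6_co.W

open Finset Vol

namespace AlcExA
open Classical

variable {p : Pm} {η : ℝ} {I : Inn p.t p.mu p.kk η} {k : ℕ} {a : ℕ → ℕ} {C : ℕ} {S : Seg p k a C}
  {n : ℕ}

/-- the group of junction `j` -/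
def ga (I : Inn p.t p.mu p.kk η) (S : Seg p k a C) (j : ℕ) : ℕ × ℕ :=
  (I.rd (S.mx j), (S.bs j + S.bl j) % 2)

theorem tr_ex (h : p.Ok n) : ∃ tr : ℕ → ℕ,
    (∀ j ≤ p.J k, tr j < FB I S (Bt I S j) * w I (Bt I S j)) ∧
      ∀ B v, #{j ∈ range (p.J k + 1) | Bt I S j = B ∧ tr j = v} ≤ p.L0 * p.Q := by
  obtain ⟨f, f1, f2⟩ := fill1 (range (p.J k + 1)) (Bt I S)
    (fun j => FB I S (Bt I S j) * w I (Bt I S j)) (p.L0 * p.Q) fun i _ => by
      refine lt_of_le_of_lt (show _ ≤ NB I S (Bt I S i) from flt _ _ _ fun _ _ e => e) ?_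
      refine (Nat.lt_mul_div_succ _ (Nat.mul_pos (c_pos h) (w_pos (I := I) (Bt I S i)))).trans_le
        (le_of_eq ?_)
      rw [FB]
      ring
  exact ⟨f, fun j hj => f1 j (mem_range.2 (Nat.lt_succ_of_le hj)), fun B v =>
    (flt _ _ _ fun _ _ e => e).trans (f2 B v)⟩

theorem mem_Wl {j : ℕ} (hj : j ≤ p.J k) : Bt I S j ∈ Wl I S (ga I S j) := by
  refine mem_filter.2 ⟨mem_BB hj, Prod.ext ?_ (Nat.mod_add_mod _ _ _)⟩
  exact (ta_Bt (Nat.sub_lt (S.bl1 j) one_pos)).trans (congrArg I.rd (S.avl j))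

theorem mem_Wf {j : ℕ} (hj : j < p.J k) : Bt I S (j + 1) ∈ Wf I S (ga I S j) := by
  refine mem_filter.2 ⟨mem_BB hj, Prod.ext ?_ ?_⟩
  · exact (ta_Bt (S.bl1 (j + 1))).trans (congrArg I.rd (S.avf j))
  · change S.bs (j + 1) % 2 = (S.bs j + S.bl j) % 2
    rw [S.bss, Nat.add_mul_mod_self_left]

theorem nu_ex {tr : ℕ → ℕ} (t1 : ∀ j ≤ p.J k, tr j < FB I S (Bt I S j) * w I (Bt I S j))
    (t2 : ∀ B v, #{j ∈ range (p.J k + 1) | Bt I S j = B ∧ tr j = v} ≤ p.L0 * p.Q) :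
    ∃ ν : ℕ → ℕ, (∀ j < p.J k, ν j < nu I S (ga I S j)) ∧
      (∀ γ z v, #{j ∈ range (p.J k) | (ga I S j = γ ∧
        zl I (Bt I S j) (tr j) (S.bl j - 1) = z) ∧ ν j = v} ≤ p.Q) ∧
      ∀ γ z v, #{j ∈ range (p.J k) | (ga I S j = γ ∧
        zl I (Bt I S (j + 1)) (tr (j + 1)) 0 = z) ∧ ν j = v} ≤ p.Q := by
  obtain ⟨f, f1, f2, f3⟩ := fill2 (range (p.J k))
    (fun j => (ga I S j, zl I (Bt I S j) (tr j) (S.bl j - 1)))
    (fun j => (ga I S j, zl I (Bt I S (j + 1)) (tr (j + 1)) 0))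
    (fun j => nu I S (ga I S j)) p.Q fun i _ => by
      have h1 := cnt t1 t2 (fun B => B.1 - 1) (fun _ => last_lt) (Wl I S (ga I S i))
        (zl I (Bt I S i) (tr i) (S.bl i - 1))
      have h2 := cnt t1 t2 (fun _ => 0) (fun _ => len_pos) (Wf I S (ga I S i))
        (zl I (Bt I S (i + 1)) (tr (i + 1)) 0)
      refine lt_of_le_of_lt (add_le_add (le_trans (card_le_card fun j hj => ?_) h1)
        (le_trans (card_le_card_of_injOn (· + 1) (fun j hj => ?_)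
          fun _ _ _ _ e => Nat.succ_injective e) h2)) ?_
      · obtain ⟨a1, a2⟩ := mf hj
        have a3 := mem_range.1 a1
        refine mem_filter.2 ⟨mem_range.2 (Nat.lt_succ_of_lt a3), ?_, congrArg Prod.snd a2⟩
        rw [← show ga I S j = ga I S i from congrArg Prod.fst a2]
        exact mem_Wl a3.le
      · obtain ⟨a1, a2⟩ := mf (mem_coe.1 hj)
        have a3 := mem_range.1 a1
        refine mem_coe.2 (mem_filter.2 ⟨mem_range.2 (Nat.succ_lt_succ a3), ?_,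
          congrArg Prod.snd a2⟩)
        rw [← show ga I S j = ga I S i from congrArg Prod.fst a2]
        exact mem_Wf a3
      · have : 0 < p.Q := Nat.two_pow_pos _
        rw [nu, add_mul, one_mul, mul_add, add_mul]
        exact Nat.lt_add_of_pos_right this
  exact ⟨f, fun j hj => f1 j (mem_range.2 hj),
    fun γ z v => (flt _ _ _ fun _ _ e => ⟨Prod.ext e.1.1 e.1.2, e.2⟩).trans (f2 (γ, z) v),
    fun γ z v => (flt _ _ _ fun _ _ e => ⟨Prod.ext e.1.1 e.1.2, e.2⟩).trans (f3 (γ, z) v)⟩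

/-- classes -/
abbrev Cl (p : Pm) : Type := (BT p × ℕ × ℕ) ⊕ ((ℕ × ℕ) × ℕ × ℕ × ℕ)

/-- classes in use -/
def ok (I : Inn p.t p.mu p.kk η) (S : Seg p k a C) : Cl p → Prop
  | .inl x => x.1 ∈ BB I S ∧ x.2.1 < x.1.1 ∧ x.2.2 < nb I S x.1 x.2.1
  | .inr x => x.1 ∈ I.TS ×ˢ range 2 ∧ x.2.1 < nu I S x.1 ∧ x.2.2.1 < p.M0 ∧ x.2.2.2 < 2

/-- the type of a class -/
def ty : Cl p → ℕ
  | .inl x => ta x.1 x.2.1
  | .inr x => x.1.1

/-- the parity of a class -/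
def pr : Cl p → ZMod 2
  | .inl x => ((x.1.2.1 + x.2.1 : ℕ) : ZMod 2)
  | .inr x => ((x.1.2 + x.2.2.2 : ℕ) : ZMod 2)

/-- the zones of a class -/
def rz (gJ : (Σ _ : ℕ × ℕ, ℕ × ℕ × ℕ) → V p.Zn)
    (gM : ZMod 2 → (Σ _ : BT p, Σ _ : ℕ, ℕ × ℕ) → V p.Zn) : Cl p → ℕ → V p.Zn
  | .inl x, r => gM (rp p.t p.mu (ta x.1 x.2.1) ((x.1.2.1 + x.2.1 : ℕ) : ZMod 2) r)
      ⟨x.1, x.2.1, x.2.2, r⟩
  | .inr x, r => gJ ⟨x.1, x.2.1, x.2.2.1, r⟩

theorem rp_inj {t mu τ r : ℕ} {q q' : ZMod 2} (h : rp t mu τ q r = rp t mu τ q' r) : q = q' := by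
  unfold rp at h
  split_ifs at h
  exacts [h, add_right_cancel h]

theorem par_eq (x o : ℕ) : ((x % 2 + o : ℕ) : ZMod 2) = ((x + o : ℕ) : ZMod 2) :=
  (ZMod.natCast_eq_natCast_iff' _ _ 2).2 (Nat.mod_add_mod _ _ _)

theorem lab_add {Zn : Type} {t mu kk : ℕ} (Z Z' : V Zn) (u u' : V (Fin t))
    (z z' y : V (Zt mu kk)) : mk Z u (z + y) + mk Z' u' (z' + y) = mk Z u z + mk Z' u' z' := by
  refine lab_ext rfl rfl ?_
  change z + y + (z' + y) = z + z'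
  rw [add_add_add_comm, vv, add_zero]

end AlcExA

open AlcExA Classical in
theorem alc_ex (p : Pm) {η : ℝ} (hη : 0 < η) (I : Inn p.t p.mu p.kk η) {k : ℕ} {a : ℕ → ℕ}
    {C : ℕ} (S : Seg p k a C) {n : ℕ} (h : p.Ok n) (hf : p.Fit η C k) : Nonempty (Alc p I S) := by
  obtain ⟨tr, t1, t2⟩ := tr_ex (I := I) (S := S) h
  obtain ⟨ν, n1, n2, n3⟩ := nu_ex t1 t2
  obtain ⟨A, hA, sA⟩ := std_ex p
  have F := fits (I := I) (S := S) hη h hf
  obtain ⟨gJ, gM, g1, g2, g3, g4, g5⟩ := zones A (RJ I S) (RM I S)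
    (hA ▸ (Nat.le_add_right _ _).trans (F 0)) fun π => hA ▸ F π
  have FA : ∀ π, #(RM I S π) ≤ p.nA := fun π => (Nat.le_add_left _ _).trans (F π)
  let L : BT p → ℕ → ℕ → p.Lab := fun B f o =>
    mk (rz gJ gM (.inl (B, o, f / m I B o)) 0) (I.su (ta B o) (kB I B) (f % m I B o))
      (I.sz (ta B o) (kB I B) (f % m I B o))
  refine ⟨{
    Cl := Cl p
    Tk := BT p × ℕ
    ok := ok I S
    ty := ty
    pr := pr
    rz := rz gJ gM
    cm := fun j o => .inl (Bt I S j, o, bn I (Bt I S j) (tr j) o)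
    lm := fun j o => mk (rz gJ gM (.inl (Bt I S j, o, bn I (Bt I S j) (tr j) o)) 0)
      (ul I (Bt I S j) (tr j) o) (zl I (Bt I S j) (tr j) o)
    tk := fun j => (Bt I S j, tr j)
    cj := fun j u e => .inr (ga I S j, ν j, u, e)
    Dl := (BB I S ×ˢ range (2 * p.K) ×ˢ range (2 ^ (p.t + p.mu) * p.nA)).image fun x =>
      L x.1 x.2.2 x.2.1 + L x.1 x.2.2 (x.2.1 + 1)
    tyT := ?_
    rzA := ?_
    inj := ?_
    cm1 := fun j hj o ho => ?_
    cm2 := fun j hj j' hj' o ho o' ho' e1 e2 => ?_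
    tk1 := fun j _ j' _ e o => ?_
    tk2 := fun y => (flt _ _ _ fun _ _ e => Prod.ext_iff.1 e).trans (t2 y.1 y.2)
    dl1 := fun j hj o ho => ?_
    dl2 := card_image_le.trans ?_
    cj1 := fun j hj u hu e he => ⟨⟨mem_product.2 ⟨?_, mem_range.2 (Nat.mod_lt _ two_pos)⟩,
      n1 j hj, hu, he⟩, rfl, par_eq _ _, rfl⟩
    cj2 := fun j j' u u' e e' q => ?_
    cj3 := fun j o j' u e => Sum.inl_ne_inr
    cj4 := fun u e y z => ?_
    cj5 := fun u e y z => ?_ }⟩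
  · rintro (x | x) hx
    · exact ta_mem hx.1 hx.2.1
    · exact (mem_product.1 hx.1).1
  · rintro (x | x) r hx hr
    · exact sA _ (g3 _ _ (mem_RM.2 ⟨hx, hr, rfl⟩))
    · exact sA _ (g1 _ (mem_RJ.2 ⟨hx.1, hx.2.1, hx.2.2.1, hr⟩))
  · rintro (⟨B, o, b⟩ | ⟨γ, v, u, e⟩) (⟨B', o', b'⟩ | ⟨γ', v', u', e'⟩) r r' hx hy hr hr' q1 q2
    · have := g4 _ _ (mem_RM.2 ⟨hx, hr, q2⟩) _ (mem_RM.2 ⟨hy, hr', rfl⟩)
        ((congrArg (fun π => gM π ⟨B, o, b, r⟩) q2).symm.trans q1)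
      cases this
      exact ⟨rfl, rfl⟩
    · exact absurd q1.symm (g5 _ _ (mem_RJ.2 ⟨hy.1, hy.2.1, hy.2.2.1, hr'⟩) _
        (mem_RM.2 ⟨hx, hr, rfl⟩))
    · exact absurd q1 (g5 _ _ (mem_RJ.2 ⟨hx.1, hx.2.1, hx.2.2.1, hr⟩) _
        (mem_RM.2 ⟨hy, hr', rfl⟩))
    · have := g2 _ (mem_RJ.2 ⟨hx.1, hx.2.1, hx.2.2.1, hr⟩) _
        (mem_RJ.2 ⟨hy.1, hy.2.1, hy.2.2.1, hr'⟩) q1
      cases this
      have k1 := (ZMod.natCast_eq_natCast_iff' _ _ 2).1 (rp_inj q2)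
      have k2 : e < 2 := hx.2.2.2
      have k3 : e' < 2 := hy.2.2.2
      obtain rfl : e = e' := by
        simp only at k1
        omega
      exact ⟨rfl, rfl⟩
  · have hB := mem_BB (I := I) (S := S) hj
    have k1 := I.su1 _ (ta_mem hB ho) _ (lev_le ho) (kB_le hB) _
      (Nat.mod_lt (tr j / w I (Bt I S j)) (m_pos hB ho))
    refine ⟨⟨hB, ho, bn_lt (t1 j hj) o⟩, ta_Bt ho, par_eq _ _, ?_⟩
    rw [← ta_Bt ho]
    refine ⟨rfl, k1.1, fun c => ⟨(k1.2 c).1, ?_⟩⟩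
    rw [add_zero]
    exact (k1.2 c).2 _ (Nat.mod_lt _ (w_pos _))
  · obtain ⟨a1, a2⟩ := Prod.ext_iff.1 (Sum.inl_injective e1)
    obtain ⟨a3, a4⟩ := Prod.ext_iff.1 a2
    have a5 := congrArg uo e2
    have a6 := congrArg zz e2
    simp only [uo_mk, zz_mk] at a1 a3 a4 a5 a6
    subst a3
    rw [← a1] at a4 a5 a6
    exact ⟨rfl, Prod.ext a1 (sti (mem_BB hj) ho a4 a5 a6)⟩
  · obtain ⟨a1, a2⟩ := Prod.ext_iff.1 e
    simp only at a1 a2
    rw [a1, a2]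
  · refine mem_image.2 ⟨(Bt I S j, o, tr j / w I (Bt I S j)), mem_product.2 ⟨mem_BB hj,
      mem_product.2 ⟨mem_range.2 ((Nat.lt_of_succ_lt ho).trans_le (S.bl2 j)), mem_range.2
        (((Nat.div_lt_iff_lt_mul (w_pos _)).2 (t1 j hj)).trans_le (FB_le FA (mem_BB hj)))⟩⟩, ?_⟩
    exact (lab_add _ _ _ _ _ _ _).symm
  · rw [card_product, card_product, card_range, card_range, Pm.nD, mul_assoc p.nB]
    exact Nat.mul_le_mul_right _ card_BB
  · exact I.rdT _ (S.avl j ▸ S.avM j _)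
  · obtain ⟨-, a2⟩ := Prod.ext_iff.1 (Sum.inr_injective q)
    exact Prod.ext_iff.1 (Prod.ext_iff.1 a2).2
  · refine le_of_ne_imp fun j0 hj0 => le_trans (flt _ _ _ fun j _ q => ?_)
      (n2 (ga I S j0) z (ν j0))
    obtain ⟨a1, a2⟩ := Prod.ext_iff.1 (Sum.inr_injective (q.1.trans (mf hj0).2.1.symm))
    exact ⟨⟨a1, q.2⟩, (Prod.ext_iff.1 a2).1⟩
  · refine le_of_ne_imp fun j0 hj0 => le_trans (flt _ _ _ fun j _ q => ?_)
      (n3 (ga I S j0) z (ν j0))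
    obtain ⟨a1, a2⟩ := Prod.ext_iff.1 (Sum.inr_injective (q.1.trans (mf hj0).2.1.symm))
    exact ⟨⟨a1, q.2⟩, (Prod.ext_iff.1 a2).1⟩

end Pool.Agent.Work.MP_ede3c6_co.W
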