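import Pool.Agent.Work.MP_ede3c6_co.W.Greedy

/-! Allocation of zones: block types, bins and the number of requests. -/

set_option autoImplicit false

namespace Pool.Agent.Work.MP_ede3c6_co.W.AlcExA

open Finset Vol Classical

theorem mf {α : Type} {s : Finset α} {P : α → Prop} {_ : DecidablePred P} {x : α}
    (h : x ∈ s.filter P) : x ∈ s ∧ P x := mem_filter.1 h

theorem flt {α : Type} (s : Finset α) (P Q : α → Prop) {_ : DecidablePred P} {_ : DecidablePred Q}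
    (h : ∀ x ∈ s, P x → Q x) : #(s.filter P) ≤ #(s.filter Q) :=
  card_le_card fun x hx => mem_filter.2 ⟨(mem_filter.1 hx).1,
    h x (mem_filter.1 hx).1 (mem_filter.1 hx).2⟩

theorem le_of_ne_imp {α : Type} {s : Finset α} {c : ℕ} (h : ∀ x ∈ s, s.card ≤ c) : s.card ≤ c := by
  rcases s.eq_empty_or_nonempty with rfl | ⟨x, hx⟩
  · exact Nat.zero_le _
  · exact h x hx

theorem inj1 {α β : Type} [Nonempty β] (s : Finset α) (t : Finset β) (h : s.card ≤ t.card) :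
    ∃ f : α → β, (∀ x ∈ s, f x ∈ t) ∧ ∀ x ∈ s, ∀ y ∈ s, f x = f y → x = y := by
  obtain ⟨f, h1, h2⟩ := Set.Finite.exists_injOn_of_encard_le (t := (t : Set β)) s.finite_toSet (by
    rw [Set.encard_coe_eq_coe_finsetCard, Set.encard_coe_eq_coe_finsetCard]
    exact_mod_cast h)
  exact ⟨f, fun x hx => h1 hx, fun x hx y hy e => h2 hx hy e⟩

theorem zones {α β γ P : Type} [Nonempty γ] (A : Finset γ) (RJ : Finset α) (RM : P → Finset β)
    (h0 : #RJ ≤ #A) (h : ∀ π, #RJ + #(RM π) ≤ #A) :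
    ∃ (gJ : α → γ) (gM : P → β → γ), (∀ x ∈ RJ, gJ x ∈ A) ∧
      (∀ x ∈ RJ, ∀ y ∈ RJ, gJ x = gJ y → x = y) ∧ (∀ π, ∀ x ∈ RM π, gM π x ∈ A) ∧
      (∀ π, ∀ x ∈ RM π, ∀ y ∈ RM π, gM π x = gM π y → x = y) ∧
      ∀ π, ∀ x ∈ RJ, ∀ y ∈ RM π, gJ x ≠ gM π y := by
  obtain ⟨gJ, h1, h2⟩ := inj1 RJ A h0
  have k : ∀ π, #(RM π) ≤ #(A \ RJ.image gJ) := fun π => by
    have a1 := le_card_sdiff (RJ.image gJ) A
    have a2 : #(RJ.image gJ) ≤ #RJ := card_image_le
    have := h π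
    omega
  choose gM h3 h4 using fun π => inj1 (RM π) _ (k π)
  exact ⟨gJ, gM, h1, h2, fun π x hx => (mem_sdiff.1 (h3 π x hx)).1, h4, fun π x hx y hy e =>
    (mem_sdiff.1 (h3 π y hy)).2 (e ▸ mem_image_of_mem gJ hx)⟩

theorem std_ex (p : Pm) : ∃ A : Finset (V p.Zn), #A = p.nA ∧ ∀ Z ∈ A, p.Std Z := by
  let F : (V (Fin p.t1) × V (Fin p.t1)) × V (Fin (p.H + 1)) → V p.Zn := fun x =>
    Sum.elim (Sum.elim x.1.1 x.1.2) x.2
  have hF : Function.Injective F := by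
    rintro ⟨⟨x, y⟩, z⟩ ⟨⟨x', y'⟩, z'⟩ e
    have e1 : x = x' := funext fun b => congrFun e (Sum.inl (Sum.inl b))
    have e2 : y = y' := funext fun b => congrFun e (Sum.inl (Sum.inr b))
    have e3 : z = z' := funext fun b => congrFun e (Sum.inr b)
    rw [e1, e2, e3]
  refine ⟨((univ.erase 0 ×ˢ univ.erase 0) ×ˢ univ).image F, ?_, fun Z hZ => ?_⟩
  · rw [card_image_of_injective _ hF, card_product, card_product,
      card_erase_of_mem (mem_univ _), card_univ, card_univ]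
    simp [Pm.nA, ZMod.card]
  · obtain ⟨⟨⟨x, y⟩, z⟩, hx, rfl⟩ := mem_image.1 hZ
    have h1 := mem_product.1 (mem_product.1 hx).1
    exact ⟨Function.ne_iff.1 (ne_of_mem_erase h1.1), Function.ne_iff.1 (ne_of_mem_erase h1.2)⟩

section Res
variable (t mu : ℕ)

/-- admissible resource numbers -/
noncomputable def RV (τ : ℕ) : Finset ℕ := {r ∈ range (aS t mu + 1) | vr t mu τ r}

/-- admissible resource numbers of a given parity -/
noncomputable def RR (τ : ℕ) (q π : ZMod 2) : Finset ℕ := {r ∈ RV t mu τ | rp t mu τ q r = π}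

/-- one for small types -/
def sm (τ : ℕ) : ℕ := if τ < aS t mu then 1 else 0

variable {t mu}

theorem mem_RV {τ r : ℕ} : r ∈ RV t mu τ ↔ vr t mu τ r := by
  rw [RV, mem_filter, mem_range, and_iff_right_iff_imp, vr]
  split_ifs <;> omega

theorem mem_RR {τ r : ℕ} {q π : ZMod 2} :
    r ∈ RR t mu τ q π ↔ vr t mu τ r ∧ rp t mu τ q r = π := by rw [RR, mem_filter, mem_RV]

theorem vr_zero (τ : ℕ) : vr t mu τ 0 := Nat.zero_le _

theorem RV_le (τ : ℕ) : #(RV t mu τ) ≤ aS t mu + 1 :=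
  (card_filter_le _ _).trans (card_range _).le

theorem RR_le (τ : ℕ) (q π : ZMod 2) : #(RR t mu τ q π) ≤ aS t mu + 1 :=
  (card_filter_le _ _).trans (RV_le τ)

theorem RV_le' (τ : ℕ) : #(RV t mu τ) ≤ sm t mu τ + oth t mu τ := by
  refine (card_le_card (t := range (sm t mu τ + oth t mu τ)) fun r hr => ?_).trans
    (card_range _).le
  rw [mem_RV, vr] at hr
  rw [mem_range, sm, oth]
  split_ifs at hr ⊢ <;> omega

theorem RR_same (τ : ℕ) (q : ZMod 2) : #(RR t mu τ q q) ≤ sm t mu τ := by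
  refine (card_le_card (t := range (sm t mu τ)) fun r hr => ?_).trans (card_range _).le
  have h := (mem_RR.1 hr).2
  rw [rp] at h
  split_ifs at h with c
  · rw [mem_range, sm, if_pos c.1, c.2]
    exact one_pos
  · exact absurd (add_eq_left.1 h) one_ne_zero

theorem RR_oth (τ : ℕ) {q π : ZMod 2} (h : q ≠ π) : #(RR t mu τ q π) ≤ oth t mu τ := by
  by_cases c : τ < aS t mu
  · refine (card_le_card (t := Ioc 0 τ) fun r hr => ?_).trans (by rw [oth, if_pos c]; simp)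
    obtain ⟨h1, h2⟩ := mem_RR.1 hr
    rw [vr, if_pos c] at h1
    refine mem_Ioc.2 ⟨Nat.pos_of_ne_zero fun e => h ?_, h1⟩
    rwa [rp, if_pos ⟨c, e⟩] at h2
  · refine (card_filter_le _ _).trans ((RV_le' τ).trans ?_)
    rw [sm, if_neg c, zero_add]

end Res

/-- block types -/
abbrev BT (p : Pm) : Type := ℕ × ℕ × (Fin (2 * p.K) → ℕ)

variable {p : Pm} {η : ℝ} (I : Inn p.t p.mu p.kk η) {k : ℕ} {a : ℕ → ℕ} {C : ℕ} (S : Seg p k a C)

/-- the type of block `j` -/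
def Bt (j : ℕ) : BT p := (S.bl j, S.bs j % 2, fun o => I.rd (S.av j o))

/-- the block types that occur -/
noncomputable def BB : Finset (BT p) := (range (p.J k + 1)).image (Bt I S)

/-- the type at an offset -/
def ta (B : BT p) (o : ℕ) : ℕ := if h : o < 2 * p.K then B.2.2 ⟨o, h⟩ else 0

/-- the level of a block type -/
def kB (B : BT p) : ℕ := (range B.1).sup fun o => I.lev (ta B o)

/-- tracks of a bundle -/
def w (B : BT p) : ℕ := 2 ^ (p.kk - kB I B)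

/-- blocks of a type -/
noncomputable def NB (B : BT p) : ℕ := #{j ∈ range (p.J k + 1) | Bt I S j = B}

/-- bundles of a type -/
noncomputable def FB (B : BT p) : ℕ := NB I S B / (p.L0 * p.Q * w I B) + 1

/-- bundles of a bin -/
def m (B : BT p) (o : ℕ) : ℕ := I.mb (ta B o) (kB I B)

/-- bins of a type and an offset -/
noncomputable def nb (B : BT p) (o : ℕ) : ℕ := FB I S B / m I B o + 1

/-- the bin of a track -/
def bn (B : BT p) (v o : ℕ) : ℕ := v / w I B / m I B o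

/-- the middle part of the label of a track -/
def ul (B : BT p) (v o : ℕ) : V (Fin p.t) := I.su (ta B o) (kB I B) (v / w I B % m I B o)

/-- the inner part of the label of a track -/
def zl (B : BT p) (v o : ℕ) : V (Zt p.mu p.kk) :=
  I.sz (ta B o) (kB I B) (v / w I B % m I B o) + I.hv (kB I B) (v % w I B)

/-- main requests -/
noncomputable def RM (π : ZMod 2) : Finset (Σ _ : BT p, Σ _ : ℕ, ℕ × ℕ) :=
  (BB I S).sigma fun B => (range B.1).sigma fun o =>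
    range (nb I S B o) ×ˢ RR p.t p.mu (ta B o) ((B.2.1 + o : ℕ) : ZMod 2) π

/-- block types with a given last type and parity -/
noncomputable def Wl (γ : ℕ × ℕ) : Finset (BT p) :=
  {B ∈ BB I S | (ta B (B.1 - 1), (B.2.1 + B.1) % 2) = γ}

/-- block types with a given first type and parity -/
noncomputable def Wf (γ : ℕ × ℕ) : Finset (BT p) := {B ∈ BB I S | (ta B 0, B.2.1) = γ}

/-- units of a group -/
noncomputable def nu (γ : ℕ × ℕ) : ℕ :=
  p.L0 * 2 ^ p.t * (∑ B ∈ Wl I S γ, nb I S B (B.1 - 1) + ∑ B ∈ Wf I S γ, nb I S B 0) + 1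

/-- junction requests -/
noncomputable def RJ : Finset (Σ _ : ℕ × ℕ, ℕ × ℕ × ℕ) :=
  (I.TS ×ˢ range 2).sigma fun γ => range (nu I S γ) ×ˢ range p.M0 ×ˢ RV p.t p.mu γ.1

variable {I S}

theorem ta_Bt {j o : ℕ} (h : o < S.bl j) : ta (Bt I S j) o = I.rd (S.av j o) :=
  dif_pos (h.trans_le (S.bl2 j))

theorem mem_BB {j : ℕ} (h : j ≤ p.J k) : Bt I S j ∈ BB I S :=
  mem_image_of_mem _ (mem_range.2 (Nat.lt_succ_of_le h))

theorem of_BB {B : BT p} (h : B ∈ BB I S) : ∃ j, j ≤ p.J k ∧ Bt I S j = B := by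
  obtain ⟨j, h1, h2⟩ := mem_image.1 h
  exact ⟨j, Nat.le_of_lt_succ (mem_range.1 h1), h2⟩

theorem ta_mem {B : BT p} (h : B ∈ BB I S) {o : ℕ} (ho : o < B.1) : ta B o ∈ I.TS := by
  obtain ⟨j, -, rfl⟩ := of_BB h
  rw [ta_Bt ho]
  exact I.rdT _ (S.avM j o)

theorem lev_le {B : BT p} {o : ℕ} (ho : o < B.1) : I.lev (ta B o) ≤ kB I B :=
  le_sup (f := fun o => I.lev (ta B o)) (mem_range.2 ho)

theorem kB_le {B : BT p} (h : B ∈ BB I S) : kB I B ≤ p.kk :=
  Finset.sup_le fun _ ho => I.lev1 _ (ta_mem h (mem_range.1 ho))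

theorem len_pos {B : BT p} (h : B ∈ BB I S) : 1 ≤ B.1 := by
  obtain ⟨j, -, rfl⟩ := of_BB h
  exact S.bl1 j

theorem len_le {B : BT p} (h : B ∈ BB I S) : B.1 ≤ 2 * p.K := by
  obtain ⟨j, -, rfl⟩ := of_BB h
  exact S.bl2 j

theorem w_pos (B : BT p) : 0 < w I B := Nat.two_pow_pos _

theorem m_pos {B : BT p} (h : B ∈ BB I S) {o : ℕ} (ho : o < B.1) : 0 < m I B o :=
  I.mb0 _ (ta_mem h ho) _ (lev_le ho) (kB_le h)

theorem card_BB : #(BB I S) ≤ p.nB := by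
  refine (card_le_card (t := range (2 * p.K + 1) ×ˢ range 2 ×ˢ
    Fintype.piFinset fun _ : Fin (2 * p.K) => I.TS) fun B hB => ?_).trans ?_
  · obtain ⟨j, -, rfl⟩ := of_BB hB
    exact mem_product.2 ⟨mem_range.2 (Nat.lt_succ_of_le (S.bl2 j)), mem_product.2
      ⟨mem_range.2 (Nat.mod_lt _ two_pos), Fintype.mem_piFinset.2 fun o => I.rdT _ (S.avM j o)⟩⟩
  · rw [card_product, card_product, card_range, card_range, Fintype.card_piFinset_const, Pm.nB,
      mul_assoc]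
    exact Nat.mul_le_mul_left _ (Nat.mul_le_mul_left _ (Nat.pow_le_pow_left I.cTS _))

theorem sti {B : BT p} (h : B ∈ BB I S) {o : ℕ} (ho : o < B.1) {v v' : ℕ}
    (h1 : bn I B v o = bn I B v' o) (h2 : ul I B v o = ul I B v' o)
    (h3 : zl I B v o = zl I B v' o) : v = v' := by
  have hm := m_pos h ho
  obtain ⟨e1, e2⟩ := I.sti _ (ta_mem h ho) _ (lev_le ho) (kB_le h) _ (Nat.mod_lt _ hm) _
    (Nat.mod_lt _ hm) _ (Nat.mod_lt _ (w_pos B)) _ (Nat.mod_lt _ (w_pos B)) h2 h3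
  have e3 : v / w I B = v' / w I B := Nat.ext_div_mod h1 e1
  exact Nat.ext_div_mod e3 e2

theorem bn_lt {B : BT p} {v : ℕ} (hv : v < FB I S B * w I B) (o : ℕ) :
    bn I B v o < nb I S B o :=
  Nat.lt_succ_of_le (Nat.div_le_div_right ((Nat.div_lt_iff_lt_mul (w_pos B)).2 hv).le)

theorem mem_RM {π : ZMod 2} {B : BT p} {o b r : ℕ} : (⟨B, o, b, r⟩ : Σ _ : BT p, Σ _ : ℕ, ℕ × ℕ) ∈
    RM I S π ↔ (B ∈ BB I S ∧ o < B.1 ∧ b < nb I S B o) ∧ vr p.t p.mu (ta B o) r ∧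
      rp p.t p.mu (ta B o) ((B.2.1 + o : ℕ) : ZMod 2) r = π := by
  simp only [RM, mem_sigma, mem_product, mem_range, mem_RR, and_assoc]

theorem mem_RJ {γ : ℕ × ℕ} {ν u r : ℕ} : (⟨γ, ν, u, r⟩ : Σ _ : ℕ × ℕ, ℕ × ℕ × ℕ) ∈ RJ I S ↔
    γ ∈ I.TS ×ˢ range 2 ∧ ν < nu I S γ ∧ u < p.M0 ∧ vr p.t p.mu γ.1 r := by
  simp only [RJ, mem_sigma, mem_product, mem_range, mem_RV, and_assoc]

theorem FB_le (hA : ∀ π, #(RM I S π) ≤ p.nA) {B : BT p} (h : B ∈ BB I S) :
    FB I S B ≤ 2 ^ (p.t + p.mu) * p.nA := by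
  obtain ⟨o, ho, e⟩ := exists_mem_eq_sup (range B.1) (nonempty_range_iff.2
    (Nat.one_le_iff_ne_zero.1 (len_pos h))) fun o => I.lev (ta B o)
  have ho' := mem_range.1 ho
  have h1 : m I B o ≤ 2 ^ (p.t + p.mu) := by
    rw [m, kB, e]
    exact I.mb1 _ (ta_mem h ho')
  have h2 : nb I S B o ≤ p.nA := by
    refine le_trans ?_ (hA (rp p.t p.mu (ta B o) ((B.2.1 + o : ℕ) : ZMod 2) 0))
    rw [← card_range (nb I S B o)]
    refine card_le_card_of_injOn (fun b => ⟨B, o, b, 0⟩) (fun b hb => ?_) fun b _ b' _ e => ?_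
    · exact mem_coe.2 (mem_RM.2 ⟨⟨h, ho', mem_range.1 hb⟩, vr_zero _, rfl⟩)
    · exact congrArg (fun x : (Σ _ : BT p, Σ _ : ℕ, ℕ × ℕ) => x.2.2.1) e
  exact (Nat.lt_mul_div_succ _ (m_pos h ho')).le.trans (Nat.mul_le_mul h1 h2)

/-- blocks with types in `W` and a given inner label at the offset `o` -/
theorem cnt {tr : ℕ → ℕ} (t1 : ∀ j ≤ p.J k, tr j < FB I S (Bt I S j) * w I (Bt I S j))
    (t2 : ∀ B v, #{j ∈ range (p.J k + 1) | Bt I S j = B ∧ tr j = v} ≤ p.L0 * p.Q)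
    (o : BT p → ℕ) (ho : ∀ B ∈ BB I S, o B < B.1) (W : Finset (BT p)) (z : V (Zt p.mu p.kk)) :
    #{j ∈ range (p.J k + 1) | Bt I S j ∈ W ∧ zl I (Bt I S j) (tr j) (o (Bt I S j)) = z} ≤
      p.L0 * 2 ^ p.t * (∑ B ∈ W, nb I S B (o B)) * p.Q := by
  refine (card_le_mul_card_image_of_maps_to
    (f := fun j => (⟨Bt I S j, bn I (Bt I S j) (tr j) (o (Bt I S j)),
      ul I (Bt I S j) (tr j) (o (Bt I S j))⟩ : Σ _ : BT p, ℕ × V (Fin p.t)))
    (t := W.sigma fun B => range (nb I S B (o B)) ×ˢ univ) (fun j hj => ?_) (p.L0 * p.Q)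
    fun y _ => ?_).trans (le_of_eq ?_)
  · obtain ⟨h1, h2, -⟩ := mem_filter.1 hj
    exact mem_sigma.2 ⟨h2, mem_product.2 ⟨mem_range.2
      (bn_lt (t1 j (Nat.le_of_lt_succ (mem_range.1 h1))) _), mem_univ _⟩⟩
  · refine le_of_ne_imp fun j0 hj0 => ?_
    refine le_trans (card_le_card fun j hj => ?_) (t2 (Bt I S j0) (tr j0))
    obtain ⟨a1, a2⟩ := mem_filter.1 hj
    obtain ⟨a3, -, a4⟩ := mem_filter.1 a1
    obtain ⟨b1, b2⟩ := mem_filter.1 hj0
    obtain ⟨b3, -, b4⟩ := mem_filter.1 b1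
    have e := a2.trans b2.symm
    have e1 : Bt I S j = Bt I S j0 := congrArg Sigma.fst e
    have e2 := congrArg (fun x : (Σ _ : BT p, ℕ × V (Fin p.t)) => x.2.1) e
    have e3 := congrArg (fun x : (Σ _ : BT p, ℕ × V (Fin p.t)) => x.2.2) e
    have hB : Bt I S j0 ∈ BB I S := mem_image_of_mem _ b3
    simp only [e1] at e2 e3 a4
    exact mem_filter.2 ⟨a3, e1, sti hB (ho _ hB) e2 e3 (a4.trans b4.symm)⟩
  · simp only [card_sigma, card_product, card_range, card_univ, Fintype.card_pi, ZMod.card,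
      prod_const, Fintype.card_fin, ← sum_mul]
    ring

end Pool.Agent.Work.MP_ede3c6_co.W.AlcExA
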