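import Pool.Agent.Work.MP_ede3c6_co.W.AlcExA

/-! Allocation of zones: the requests fit into the standard zones. -/

set_option autoImplicit false

namespace Pool.Agent.Work.MP_ede3c6_co.W.AlcExA

open Finset Vol Classical

variable {p : Pm} {η : ℝ} {I : Inn p.t p.mu p.kk η} {k : ℕ} {a : ℕ → ℕ} {C : ℕ} {S : Seg p k a C}
  {n : ℕ}

theorem c_pos (h : p.Ok n) : 0 < p.L0 * p.Q := Nat.mul_pos h.L00 (Nat.two_pow_pos _)

theorem c_pos' (h : p.Ok n) : (0 : ℝ) < p.L0 * p.Q := by exact_mod_cast c_pos h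

theorem bin_pos (h : p.Ok n) : (0 : ℝ) < bin p.t p.mu p.kk := by
  have : 1 < 2 ^ p.t := Nat.one_lt_two_pow (Nat.one_le_iff_ne_zero.1 h.t0)
  exact_mod_cast Nat.mul_pos (Nat.sub_pos_of_lt this) (Nat.two_pow_pos _)

theorem mw_pos {B : BT p} (hB : B ∈ BB I S) {o : ℕ} (ho : o < B.1) :
    (0 : ℝ) < m I B o * w I B := by exact_mod_cast Nat.mul_pos (m_pos hB ho) (w_pos B)

theorem nb_le {B : BT p} (hB : B ∈ BB I S) {o : ℕ} (ho : o < B.1) (x : ℕ) :
    (nb I S B o : ℝ) * x ≤ NB I S B * (x / (p.L0 * p.Q * (m I B o * w I B))) + 2 * x := by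
  have hm : (1 : ℝ) ≤ m I B o := by exact_mod_cast m_pos hB ho
  have h1 : (FB I S B : ℝ) ≤ NB I S B / (p.L0 * p.Q * w I B) + 1 := by
    have := Nat.cast_div_le (α := ℝ) (m := NB I S B) (n := p.L0 * p.Q * w I B)
    rw [FB]
    push_cast at this ⊢
    linarith
  have h2 : (nb I S B o : ℝ) ≤ FB I S B / m I B o + 1 := by
    have := Nat.cast_div_le (α := ℝ) (m := FB I S B) (n := m I B o)
    rw [nb]
    push_cast
    linarith
  have h3 : (FB I S B : ℝ) / m I B o ≤ NB I S B / (p.L0 * p.Q * (m I B o * w I B)) + 1 := by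
    refine (div_le_div_of_nonneg_right h1 (by linarith)).trans ?_
    rw [add_div, div_div, mul_assoc _ (w I B : ℝ), mul_comm (w I B : ℝ)]
    have : 1 / (m I B o : ℝ) ≤ 1 := (div_le_one (by linarith)).2 hm
    linarith
  have h4 : (nb I S B o : ℝ) ≤ NB I S B / (p.L0 * p.Q * (m I B o * w I B)) + 2 := by linarith
  refine (mul_le_mul_of_nonneg_right h4 (Nat.cast_nonneg x)).trans (le_of_eq ?_)
  ring

theorem eff1 (hη : 0 < η) (h : p.Ok n) {B : BT p} (hB : B ∈ BB I S) {o : ℕ} (ho : o < B.1) :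
    (sm p.t p.mu (ta B o) : ℝ) / (p.L0 * p.Q * (m I B o * w I B)) ≤
      (1 + η) / (p.L0 * p.Q * bin p.t p.mu p.kk) := by
  have h1 := c_pos' h
  have h2 := bin_pos h
  rw [sm]
  split_ifs with c
  · have e : (bin p.t p.mu p.kk : ℝ) ≤ m I B o * w I B := by
      exact_mod_cast I.ef1 _ (ta_mem hB ho) c _ (lev_le ho) (kB_le hB)
    rw [Nat.cast_one]
    exact div_le_div₀ (by linarith) (by linarith) (mul_pos h1 h2)
      (mul_le_mul_of_nonneg_left e h1.le)
  · rw [Nat.cast_zero, zero_div]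
    positivity

theorem eff2 (h : p.Ok n) {j : ℕ} (hj : j ≤ p.J k) {o : ℕ} (ho : o < S.bl j) :
    (oth p.t p.mu (ta (Bt I S j) o) : ℝ) / (p.L0 * p.Q * (m I (Bt I S j) o * w I (Bt I S j))) ≤
      (1 + η) * S.av j o / (p.L0 * p.Q * bin p.t p.mu p.kk) := by
  have h1 := c_pos' h
  have h2 := bin_pos h
  have h3 := mw_pos (mem_BB (I := I) hj) ho
  have l1 := lev_le (I := I) (B := Bt I S j) ho
  rw [ta_Bt ho] at l1
  have e := I.ef2 _ (S.avM j o) _ l1 (kB_le (mem_BB hj))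
  have e' : (oth p.t p.mu (ta (Bt I S j) o) : ℝ) * bin p.t p.mu p.kk ≤
      (1 + η) * S.av j o * (m I (Bt I S j) o * w I (Bt I S j)) := by
    rw [m, w, ta_Bt ho]
    push_cast
    exact e
  rw [div_le_div_iff₀ (mul_pos h1 h3) (mul_pos h1 h2)]
  have := mul_le_mul_of_nonneg_left e' h1.le
  linarith

theorem sumB (G : BT p → ℝ) :
    ∑ B ∈ BB I S, (NB I S B : ℝ) * G B = ∑ j ∈ range (p.J k + 1), G (Bt I S j) := by
  rw [sum_comp G (Bt I S)]
  exact sum_congr rfl fun B _ => (nsmul_eq_mul _ _).symm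

theorem par_iff (x o : ℕ) (π : ZMod 2) :
    ((x % 2 + o : ℕ) : ZMod 2) = π ↔ (x + o) % 2 = π.val := by
  rw [← Nat.mod_add_mod, ← ZMod.val_natCast]
  exact (ZMod.val_injective 2).eq_iff.symm

theorem card_RM (hη : 0 < η) (h : p.Ok n) (π : ZMod 2) :
    (#(RM I S π) : ℝ) ≤ (1 + η) * p.Vb C k / (p.L0 * p.Q * bin p.t p.mu p.kk) +
      2 * p.nB * (2 * p.K) * (aS p.t p.mu + 1) := by
  have h1 := c_pos' h
  have h2 := bin_pos h
  let x : BT p → ℕ → ℕ := fun B o => #(RR p.t p.mu (ta B o) ((B.2.1 + o : ℕ) : ZMod 2) π)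
  have e0 : (#(RM I S π) : ℝ) = ∑ B ∈ BB I S, ∑ o ∈ range B.1, (nb I S B o : ℝ) * x B o := by
    simp only [RM, card_sigma, card_product, card_range, Nat.cast_sum, Nat.cast_mul, x]
  have e1 : ∀ B ∈ BB I S, ∑ o ∈ range B.1, (nb I S B o : ℝ) * x B o ≤
      NB I S B * (∑ o ∈ range B.1, x B o / (p.L0 * p.Q * (m I B o * w I B) : ℝ)) +
        2 * (2 * p.K) * (aS p.t p.mu + 1) := fun B hB => by
    refine (sum_le_sum fun o ho => nb_le hB (mem_range.1 ho) _).trans ?_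
    rw [sum_add_distrib, ← mul_sum]
    refine add_le_add le_rfl ((sum_le_card_nsmul _ _ (2 * (aS p.t p.mu + 1 : ℝ))
      fun o _ => ?_).trans ?_)
    · have : (x B o : ℝ) ≤ aS p.t p.mu + 1 := by exact_mod_cast RR_le _ _ _
      linarith
    · have : (B.1 : ℝ) ≤ 2 * p.K := by exact_mod_cast len_le hB
      rw [card_range, nsmul_eq_mul]
      have : (0 : ℝ) ≤ aS p.t p.mu + 1 := by positivity
      nlinarith
  have e2 : ∀ j ∈ range (p.J k + 1), ∑ o ∈ range (Bt I S j).1, x (Bt I S j) o /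
      (p.L0 * p.Q * (m I (Bt I S j) o * w I (Bt I S j)) : ℝ) ≤ ∑ o ∈ range (S.bl j),
        (1 + η) * wt π.val (S.bs j + o) (S.av j o) / (p.L0 * p.Q * bin p.t p.mu p.kk) :=
    fun j hj => sum_le_sum fun o ho => by
      have hj' := Nat.le_of_lt_succ (mem_range.1 hj)
      have ho' := mem_range.1 ho
      have h3 := mul_pos h1 (mw_pos (mem_BB (I := I) hj') ho')
      rw [wt]
      split_ifs with c
      · have q := (par_iff _ _ _).2 c
        have : (x (Bt I S j) o : ℝ) ≤ sm p.t p.mu (ta (Bt I S j) o) := by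
          have := RR_same (t := p.t) (mu := p.mu) (ta (Bt I S j) o) π
          rw [← q] at this
          simp only [x]
          rw [← q]
          exact_mod_cast this
        rw [Nat.cast_one, mul_one]
        exact (div_le_div_of_nonneg_right this h3.le).trans (eff1 hη h (mem_BB hj') ho')
      · have : (x (Bt I S j) o : ℝ) ≤ oth p.t p.mu (ta (Bt I S j) o) := by
          exact_mod_cast RR_oth _ (mt (par_iff _ _ _).1 c)
        exact (div_le_div_of_nonneg_right this h3.le).trans (eff2 h hj' ho')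
  have e3 : ((∑ j ∈ range (p.J k + 1), ∑ o ∈ range (S.bl j),
      wt π.val (S.bs j + o) (S.av j o) : ℕ) : ℝ) ≤ p.Vb C k := by
    exact_mod_cast S.vol _ (ZMod.val_lt π)
  have e4 : (#(BB I S) : ℝ) ≤ p.nB := by exact_mod_cast card_BB
  rw [e0]
  refine (sum_le_sum e1).trans ?_
  rw [sum_add_distrib, sumB, sum_const, nsmul_eq_mul]
  refine add_le_add ((sum_le_sum e2).trans ?_) ?_
  · simp only [← sum_div, ← mul_sum]
    push_cast at e3
    exact div_le_div_of_nonneg_right (mul_le_mul_of_nonneg_left e3 (by linarith))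
      (mul_pos h1 h2).le
  · have := mul_le_mul_of_nonneg_right e4
      (show (0 : ℝ) ≤ 2 * (2 * p.K) * (aS p.t p.mu + 1) by positivity)
    linarith

theorem edge (hη : 0 < η) (h : p.Ok n) (o : BT p → ℕ) (ho : ∀ B ∈ BB I S, o B < B.1)
    (hW : ∑ j ∈ range (p.J k + 1), (1 + S.av j (o (Bt I S j))) ≤ p.Wb C k) :
    ((∑ B ∈ BB I S, nb I S B (o B) * #(RV p.t p.mu (ta B (o B))) : ℕ) : ℝ) ≤
      (1 + η) * p.Wb C k / (p.L0 * p.Q * bin p.t p.mu p.kk) + 2 * p.nB * (aS p.t p.mu + 1) := by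
  have h1 := c_pos' h
  have h2 := bin_pos h
  have e3 : ((∑ j ∈ range (p.J k + 1), (1 + S.av j (o (Bt I S j))) : ℕ) : ℝ) ≤ p.Wb C k := by
    exact_mod_cast hW
  have e4 : (#(BB I S) : ℝ) ≤ p.nB := by exact_mod_cast card_BB
  have e2 : ∀ j ∈ range (p.J k + 1), (#(RV p.t p.mu (ta (Bt I S j) (o (Bt I S j)))) : ℝ) /
      (p.L0 * p.Q * (m I (Bt I S j) (o (Bt I S j)) * w I (Bt I S j))) ≤
      (1 + η) * (1 + S.av j (o (Bt I S j))) / (p.L0 * p.Q * bin p.t p.mu p.kk) := fun j hj => by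
    have hj' := Nat.le_of_lt_succ (mem_range.1 hj)
    have ho' := ho _ (mem_BB hj')
    have h3 := mul_pos h1 (mw_pos (mem_BB (I := I) hj') ho')
    have : (#(RV p.t p.mu (ta (Bt I S j) (o (Bt I S j)))) : ℝ) ≤
        sm p.t p.mu (ta (Bt I S j) (o (Bt I S j))) +
          oth p.t p.mu (ta (Bt I S j) (o (Bt I S j))) := by exact_mod_cast RV_le' _
    refine (div_le_div_of_nonneg_right this h3.le).trans ?_
    rw [add_div, mul_add (1 + η), add_div, mul_one]
    exact add_le_add (eff1 hη h (mem_BB hj') ho') (eff2 h hj' ho')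
  push_cast at e3 ⊢
  refine (sum_le_sum fun B hB => nb_le hB (ho B hB) _).trans ?_
  rw [sum_add_distrib, sumB fun B => (#(RV p.t p.mu (ta B (o B))) : ℝ) /
    (p.L0 * p.Q * (m I B (o B) * w I B))]
  refine add_le_add ((sum_le_sum e2).trans ?_) ((sum_le_card_nsmul _ _
    (2 * (aS p.t p.mu + 1 : ℝ)) fun B _ => ?_).trans ?_)
  · simp only [← sum_div, ← mul_sum]
    exact div_le_div_of_nonneg_right (mul_le_mul_of_nonneg_left e3 (by linarith))
      (mul_pos h1 h2).le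
  · have : (#(RV p.t p.mu (ta B (o B))) : ℝ) ≤ aS p.t p.mu + 1 := by exact_mod_cast RV_le _
    linarith
  · have := mul_le_mul_of_nonneg_right e4 (show (0 : ℝ) ≤ 2 * (aS p.t p.mu + 1) by positivity)
    rw [nsmul_eq_mul]
    linarith

theorem fib (o q : BT p → ℕ) (T : Finset (ℕ × ℕ)) :
    ∑ γ ∈ T, (∑ B ∈ {B ∈ BB I S | (ta B (o B), q B) = γ}, nb I S B (o B)) * #(RV p.t p.mu γ.1) ≤
      ∑ B ∈ BB I S, nb I S B (o B) * #(RV p.t p.mu (ta B (o B))) := by
  refine le_trans (le_of_eq (sum_congr rfl fun γ _ => ?_))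
    (sum_fiberwise_le_sum_of_sum_fiber_nonneg (t := T) (g := fun B => (ta B (o B), q B))
      fun _ _ => Nat.zero_le _)
  rw [sum_mul]
  exact sum_congr rfl fun B hB => by rw [← (mem_filter.1 hB).2]

theorem card_RJ : #(RJ I S) ≤ p.M0 * (p.L0 * 2 ^ p.t *
    (∑ B ∈ BB I S, nb I S B (B.1 - 1) * #(RV p.t p.mu (ta B (B.1 - 1))) +
      ∑ B ∈ BB I S, nb I S B 0 * #(RV p.t p.mu (ta B 0))) + 2 * p.nT * (aS p.t p.mu + 1)) := by
  have e0 : #(RJ I S) = p.M0 * (p.L0 * 2 ^ p.t *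
      (∑ γ ∈ I.TS ×ˢ range 2, (∑ B ∈ Wl I S γ, nb I S B (B.1 - 1)) * #(RV p.t p.mu γ.1) +
        ∑ γ ∈ I.TS ×ˢ range 2, (∑ B ∈ Wf I S γ, nb I S B 0) * #(RV p.t p.mu γ.1)) +
      ∑ γ ∈ I.TS ×ˢ range 2, #(RV p.t p.mu γ.1)) := by
    rw [← sum_add_distrib, mul_sum, ← sum_add_distrib, mul_sum, RJ, card_sigma]
    refine sum_congr rfl fun γ _ => ?_
    rw [card_product, card_product, card_range, card_range, nu]
    ring
  rw [e0]
  refine Nat.mul_le_mul_left _ (add_le_add (Nat.mul_le_mul_left _ (add_le_add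
    (fib (fun B => B.1 - 1) (fun B => (B.2.1 + B.1) % 2) _) (fib (fun _ => 0) (fun B => B.2.1) _)))
    ((sum_le_card_nsmul _ _ _ fun γ _ => RV_le γ.1).trans ?_))
  rw [card_product, card_range, smul_eq_mul, mul_comm _ 2]
  exact Nat.mul_le_mul_right _ (Nat.mul_le_mul_left _ I.cTS)

theorem last_lt {B : BT p} (h : B ∈ BB I S) : B.1 - 1 < B.1 :=
  Nat.sub_lt (len_pos h) one_pos

theorem fits (hη : 0 < η) (h : p.Ok n) (hf : p.Fit η C k) (π : ZMod 2) :
    #(RJ I S) + #(RM I S π) ≤ p.nA := by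
  have h1 := card_RM (I := I) (S := S) hη h π
  have h2 := edge (I := I) (S := S) hη h (fun B => B.1 - 1) (fun _ => last_lt)
    (le_trans (le_of_eq (sum_congr rfl fun j _ => congrArg (1 + ·) (S.avl j))) S.wl)
  have h3 := edge (I := I) (S := S) hη h (fun _ => 0) (fun _ => len_pos) S.wf
  have h4 := (Nat.cast_le (α := ℝ)).2 (card_RJ (I := I) (S := S))
  have h5 := hf.hA
  rw [← Nat.cast_le (α := ℝ)]
  generalize ∑ B ∈ BB I S, nb I S B (B.1 - 1) * #(RV p.t p.mu (ta B (B.1 - 1))) = X at h2 h4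
  generalize ∑ B ∈ BB I S, nb I S B 0 * #(RV p.t p.mu (ta B 0)) = Y at h3 h4
  push_cast at h4 ⊢
  have h6 := mul_le_mul_of_nonneg_left (add_le_add h2 h3)
    (show (0 : ℝ) ≤ p.M0 * (p.L0 * 2 ^ p.t) by positivity)
  linarith

end Pool.Agent.Work.MP_ede3c6_co.W.AlcExA
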