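import Pool.Agent.Work.MP_ede3c6_co.W.Base

/-! The Beck-Fiala theorem and the sliding balancing lemma.

PLAN. `beck_fiala`: induction on the number of live coordinates (`|x i| < 1`) of a point `x` of
the cube `[-1,1]^I`: there is a sign vector `x'` that agrees with `x` off the live set and has
`|∑ i, A y i * (x' i - x i)| ≤ 2 R` for every row `y`. Heavy rows (live mass `> R`) are fewer
than the live coordinates (double counting), so a nonzero vector supported on the live set is
orthogonal to them (`LinearMap.ker_ne_bot_of_finrank_lt` or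
`LinearMap.exists_ne_zero_mem_ker...`); move along it until a coordinate reaches `±1`; light rows
are bounded directly by `2 R`. Start at `x = 0`.
`slide1`: rows = keys (image of `S`), columns = values of `I` outside `PS`, entry
`A y v = ∑ x ∈ S with key x = y, I x = v of (-1)^(o x)`, column norm `≤ R`. The slots with
`I x ∈ PS` are at most `N * R`.
`slide`: induction over a finite set `T` of coordinates, apply `slide1` with the key extended by
the bits already chosen (`key x, fun c => if c ∈ T then bit else 0`); invariant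
`2 ^ |T| * load T ≤ load + 2 ^ |T| * (2 E)`, `E = (N + 1) * R`. -/

set_option autoImplicit false

namespace Pool.Agent.Work.MP_ede3c6_co.W

open Finset Vol

theorem BF_move {a d : ℝ} (ha : |a| ≤ 1) (hd : d ≠ 0) :
    ∃ τ, 0 ≤ τ ∧ |a + τ * d| = 1 ∧ ∀ t, 0 ≤ t → t ≤ τ → |a + t * d| ≤ 1 := by
  obtain ⟨h1, h2⟩ := abs_le.mp ha
  rcases lt_or_gt_of_ne hd with h | h
  · have h3 : (-1 - a) / d * d = -1 - a := div_mul_cancel₀ _ hd
    refine ⟨(-1 - a) / d, div_nonneg_of_nonpos (by linarith) h.le, ?_, fun t h4 h5 => ?_⟩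
    · rw [h3]
      norm_num
    · have h6 := mul_le_mul_of_nonpos_right h5 h.le
      have h7 := mul_nonpos_of_nonneg_of_nonpos h4 h.le
      rw [abs_le]
      constructor <;> linarith
  · have h3 : (1 - a) / d * d = 1 - a := div_mul_cancel₀ _ hd
    refine ⟨(1 - a) / d, div_nonneg (by linarith) h.le, ?_, fun t h4 h5 => ?_⟩
    · rw [h3]
      norm_num
    · have h6 := mul_le_mul_of_nonneg_right h5 h.le
      have h7 := mul_nonneg h4 h.le
      rw [abs_le]
      constructor <;> linarith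

theorem BF_ker {I Y : Type} [Fintype I] (A : Y → I → ℝ) (L : Finset I) (H : Finset Y)
    (h : H.card < L.card) :
    ∃ d : I → ℝ, (∃ i, d i ≠ 0) ∧ (∀ i, i ∉ L → d i = 0) ∧ ∀ y ∈ H, ∑ i, A y i * d i = 0 := by
  classical
  let φ : (L → ℝ) →ₗ[ℝ] (H → ℝ) := Matrix.mulVecLin (Matrix.of fun (y : H) (i : L) => A y i)
  have h1 : LinearMap.ker φ ≠ ⊥ := LinearMap.ker_ne_bot_of_finrank_lt (by simpa using h)
  obtain ⟨d, h2, h3⟩ := Submodule.exists_mem_ne_zero_of_ne_bot h1
  refine ⟨fun i => if hi : i ∈ L then d ⟨i, hi⟩ else 0, ?_, fun i hi => dif_neg hi, ?_⟩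
  · obtain ⟨i, hi⟩ := Function.ne_iff.mp h3
    exact ⟨i.1, by simpa [i.2] using hi⟩
  · intro y hy
    have h4 : ∑ i : L, A y i * d i = 0 := congrFun (LinearMap.mem_ker.mp h2) ⟨y, hy⟩
    refine Eq.trans ?_ h4
    rw [← Finset.sum_subset (Finset.subset_univ L) (fun i _ hi => by simp [hi]),
      ← Finset.sum_coe_sort]
    exact Finset.sum_congr rfl fun i _ => by simp [i.2]

theorem BF_heavy {I Y : Type} [Fintype Y] (A : Y → I → ℝ) {R : ℝ} (hR : 0 ≤ R)
    (h : ∀ i, ∑ y, |A y i| ≤ R) (L : Finset I) (hL : L.Nonempty) :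
    #{y | R < ∑ i ∈ L, |A y i|} < L.card := by
  rcases (univ.filter fun y => R < ∑ i ∈ L, |A y i|).eq_empty_or_nonempty with h0 | h0
  · rw [h0]
    exact hL.card_pos
  have h1 : ∑ _y ∈ univ.filter fun y => R < ∑ i ∈ L, |A y i|, R <
      ∑ y ∈ univ.filter fun y => R < ∑ i ∈ L, |A y i|, ∑ i ∈ L, |A y i| :=
    Finset.sum_lt_sum_of_nonempty h0 fun y hy => (Finset.mem_filter.mp hy).2
  have h2 : ∑ y ∈ univ.filter fun y => R < ∑ i ∈ L, |A y i|, ∑ i ∈ L, |A y i| ≤
      ∑ y, ∑ i ∈ L, |A y i| :=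
    Finset.sum_le_sum_of_subset_of_nonneg (Finset.subset_univ _) fun y _ _ =>
      Finset.sum_nonneg fun i _ => abs_nonneg _
  have h3 : ∑ y, ∑ i ∈ L, |A y i| ≤ ∑ _i ∈ L, R := by
    rw [Finset.sum_comm]
    exact Finset.sum_le_sum fun i _ => h i
  have h4 := (h1.trans_le h2).trans_le h3
  rw [Finset.sum_const, Finset.sum_const, nsmul_eq_mul, nsmul_eq_mul] at h4
  exact_mod_cast lt_of_mul_lt_mul_right h4 hR

theorem BF_ind {I Y : Type} [Fintype I] [Fintype Y] (A : Y → I → ℝ) {R : ℝ} (hR : 0 ≤ R)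
    (h : ∀ i, ∑ y, |A y i| ≤ R) (n : ℕ) : ∀ x : I → ℝ, (∀ i, |x i| ≤ 1) →
    #{i | |x i| < 1} ≤ n → ∃ x' : I → ℝ, (∀ i, |x' i| = 1) ∧ (∀ i, |x i| = 1 → x' i = x i) ∧
      ∀ y, |∑ i, A y i * (x' i - x i)| ≤ 2 * R := by
  classical
  have base : ∀ x : I → ℝ, (∀ i, |x i| ≤ 1) → (univ.filter fun i => |x i| < 1) = ∅ →
      ∃ x' : I → ℝ, (∀ i, |x' i| = 1) ∧ (∀ i, |x i| = 1 → x' i = x i) ∧
        ∀ y, |∑ i, A y i * (x' i - x i)| ≤ 2 * R := by
    intro x hx h0
    refine ⟨x, fun i => le_antisymm (hx i) (not_lt.mp fun hi => ?_), fun _ _ => rfl, fun y => ?_⟩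
    · exact Finset.notMem_empty i (h0 ▸ Finset.mem_filter.mpr ⟨Finset.mem_univ i, hi⟩)
    · simpa using hR
  induction n with
  | zero => exact fun x hx h0 => base x hx (Finset.card_eq_zero.mp (Nat.le_zero.mp h0))
  | succ n ih =>
    intro x hx hn
    rcases (univ.filter fun i => |x i| < 1).eq_empty_or_nonempty with h0 | h0
    · exact base x hx h0
    obtain ⟨d, ⟨i1, hi1⟩, hd1, hd2⟩ := BF_ker A _ _ (BF_heavy A hR h _ h0)
    have hd3 : ∀ i, |x i| = 1 → d i = 0 := fun i hi => hd1 i (by simp [hi])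
    have hm : ∀ i, ∃ τ, d i ≠ 0 → 0 ≤ τ ∧ |x i + τ * d i| = 1 ∧
        ∀ t, 0 ≤ t → t ≤ τ → |x i + t * d i| ≤ 1 := by
      intro i
      by_cases hi : d i = 0
      · exact ⟨0, fun h => absurd hi h⟩
      · obtain ⟨τ, hτ⟩ := BF_move (hx i) hi
        exact ⟨τ, fun _ => hτ⟩
    choose τ hτ using hm
    obtain ⟨i0, h1, h2⟩ := Finset.exists_min_image (univ.filter fun i => d i ≠ 0) τ
      ⟨i1, by simpa using hi1⟩
    have h3 : d i0 ≠ 0 := (Finset.mem_filter.mp h1).2
    have h4 : ∀ i, |x i + τ i0 * d i| ≤ 1 := by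
      intro i
      by_cases hi : d i = 0
      · simpa [hi] using hx i
      · exact (hτ i hi).2.2 _ (hτ i0 h3).1 (h2 i (by simpa using hi))
    have h5 : (univ.filter fun i => |x i + τ i0 * d i| < 1) ⊆
        (univ.filter fun i => |x i| < 1).erase i0 := by
      intro i hi
      have hi' := (Finset.mem_filter.mp hi).2
      refine Finset.mem_erase.mpr ⟨?_, Finset.mem_filter.mpr ⟨Finset.mem_univ i, ?_⟩⟩
      · rintro rfl
        exact hi'.ne (hτ i h3).2.1
      · refine lt_of_le_of_ne (hx i) fun he => ?_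
        rw [hd3 i he, mul_zero, add_zero] at hi'
        exact hi'.ne he
    have h6 : i0 ∈ univ.filter fun i => |x i| < 1 := by
      by_contra hc
      exact h3 (hd1 i0 hc)
    have h7 : #{i | |x i + τ i0 * d i| < 1} ≤ n := by
      have := Finset.card_le_card h5
      rw [Finset.card_erase_of_mem h6] at this
      omega
    obtain ⟨x', g1, g2, g3⟩ := ih (fun i => x i + τ i0 * d i) h4 h7
    have g4 : ∀ i, |x i| = 1 → x' i = x i := by
      intro i hi
      have := g2 i (by simpa [hd3 i hi] using hi)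
      simpa [hd3 i hi] using this
    refine ⟨x', g1, g4, fun y => ?_⟩
    by_cases hy : R < ∑ i ∈ univ.filter fun i => |x i| < 1, |A y i|
    · have g5 := hd2 y (Finset.mem_filter.mpr ⟨Finset.mem_univ y, hy⟩)
      have g6 : ∑ i, A y i * (x' i - x i) =
          ∑ i, A y i * (x' i - (x i + τ i0 * d i)) + τ i0 * ∑ i, A y i * d i := by
        rw [Finset.mul_sum, ← Finset.sum_add_distrib]
        exact Finset.sum_congr rfl fun i _ => by ring
      rw [g6, g5, mul_zero, add_zero]
      exact g3 y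
    · have g7 : ∑ i ∈ univ.filter fun i => |x i| < 1, A y i * (x' i - x i) =
          ∑ i, A y i * (x' i - x i) := by
        refine Finset.sum_subset (Finset.subset_univ _) fun i _ hi => ?_
        have : |x i| = 1 := le_antisymm (hx i) (by simpa using hi)
        rw [g4 i this, sub_self, mul_zero]
      rw [← g7]
      refine (Finset.abs_sum_le_sum_abs _ _).trans ?_
      have g8 : ∀ i ∈ univ.filter fun i => |x i| < 1, |A y i * (x' i - x i)| ≤ 2 * |A y i| := by
        intro i _
        have g9 : |x' i - x i| ≤ 2 := by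
          have := abs_sub (x' i) (x i)
          linarith [g1 i, hx i]
        rw [abs_mul, mul_comm]
        exact mul_le_mul_of_nonneg_right g9 (abs_nonneg _)
      refine (Finset.sum_le_sum g8).trans ?_
      rw [← Finset.mul_sum]
      linarith [not_lt.mp hy]

theorem beck_fiala {I Y : Type} [Fintype I] [Fintype Y] (A : Y → I → ℝ) (R : ℝ) (hR : 0 ≤ R)
    (h : ∀ i, ∑ y, |A y i| ≤ R) :
    ∃ x : I → ℝ, (∀ i, x i = 1 ∨ x i = -1) ∧ ∀ y, |∑ i, A y i * x i| ≤ 2 * R := by
  classical
  obtain ⟨x, h1, -, h2⟩ := BF_ind A hR h _ (fun _ => 0) (fun _ => by simp) le_rfl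
  refine ⟨x, fun i => (abs_eq zero_le_one).mp (h1 i), fun y => ?_⟩
  simpa using h2 y

open Classical in
theorem BF_fin {X Y : Type} (S : Finset X) (key : X → Y) (I : X → ℕ) (e : X → ℝ)
    (he : ∀ x, |e x| ≤ 1) (R : ℕ) (hR : ∀ v, #{x ∈ S | I x = v} ≤ R) :
    ∃ s : ℕ → ℝ, (∀ v, s v = 1 ∨ s v = -1) ∧
      ∀ y, |∑ x ∈ S with key x = y, e x * s (I x)| ≤ 2 * R := by
  have hcol : ∀ v : S.image I, ∑ y : S.image key,
      |∑ x ∈ (S.filter fun x => I x = v).filter fun x => key x = y, e x| ≤ (R : ℝ) := by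
    intro v
    rw [Finset.sum_coe_sort (S.image key)
      fun y => |∑ x ∈ (S.filter fun x => I x = v).filter fun x => key x = y, e x|]
    have h1 : ∀ y ∈ S.image key,
        |∑ x ∈ (S.filter fun x => I x = v).filter fun x => key x = y, e x| ≤
          ∑ _x ∈ (S.filter fun x => I x = v).filter fun x => key x = y, (1 : ℝ) := fun y _ =>
      (Finset.abs_sum_le_sum_abs _ _).trans (Finset.sum_le_sum fun x _ => he x)
    refine (Finset.sum_le_sum h1).trans ?_
    rw [Finset.sum_fiberwise_of_maps_to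
      fun x hx => Finset.mem_image_of_mem key (Finset.mem_filter.mp hx).1]
    rw [Finset.sum_const, nsmul_eq_mul, mul_one]
    exact_mod_cast hR v
  obtain ⟨s, h1, h2⟩ := beck_fiala (fun (y : S.image key) (v : S.image I) =>
    ∑ x ∈ (S.filter fun x => I x = v).filter fun x => key x = y, e x) R (Nat.cast_nonneg R) hcol
  refine ⟨fun v => if hv : v ∈ S.image I then s ⟨v, hv⟩ else 1, fun v => ?_, fun y => ?_⟩
  · by_cases hv : v ∈ S.image I
    · simpa only [dif_pos hv] using h1 ⟨v, hv⟩
    · exact Or.inl (dif_neg hv)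
  by_cases hy : y ∈ S.image key
  · refine le_of_eq_of_le (congrArg _ ?_) (h2 ⟨y, hy⟩)
    rw [← Finset.sum_fiberwise_of_maps_to (s := S.filter fun x => key x = y) (t := S.image I)
      (g := I) fun x hx => Finset.mem_image_of_mem I (Finset.mem_filter.mp hx).1,
      ← Finset.sum_coe_sort (S.image I)]
    refine Finset.sum_congr rfl fun v _ => ?_
    rw [Finset.sum_mul, Finset.filter_comm]
    refine Finset.sum_congr rfl fun x hx => ?_
    have h3 : I x = v := (Finset.mem_filter.mp (Finset.mem_filter.mp hx).1).2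
    rw [h3]
    exact congrArg (e x * ·) (dif_pos v.2)
  · rw [Finset.sum_eq_zero, abs_zero]
    · positivity
    · intro x hx
      have h3 : y ∈ S.image key := Finset.mem_image.mpr ⟨x, Finset.mem_filter.mp hx⟩
      exact absurd h3 hy

theorem BF_mem {X : Type} {p : X → Prop} {h : DecidablePred p} {S : Finset X} {x : X} :
    x ∈ @Finset.filter X p h S ↔ x ∈ S ∧ p x := Finset.mem_filter

/-- the sign of a bit -/
noncomputable def BF_sg (a : ZMod 2) : ℝ := if a = 0 then 1 else -1

theorem BF_sg_abs (a : ZMod 2) : |BF_sg a| = 1 := by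
  unfold BF_sg
  split_ifs <;> simp

theorem BF_sg_add (a b : ZMod 2) : BF_sg (a + b) = BF_sg a * BF_sg b := by
  have h : ∀ c : ZMod 2, c = 0 ∨ c = 1 := by decide
  have h2 : (1 + 1 : ZMod 2) = 0 := by decide
  rcases h a with rfl | rfl <;> rcases h b with rfl | rfl <;> simp [BF_sg, h2]

theorem BF_sg_ind (a β : ZMod 2) :
    2 * (if a = β then (1 : ℝ) else 0) = 1 + BF_sg β * BF_sg a := by
  have h : ∀ c : ZMod 2, c = 0 ∨ c = 1 := by decide
  rcases h a with rfl | rfl <;> rcases h β with rfl | rfl <;> simp [BF_sg] <;> norm_num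

open Classical in
theorem slide1 {X Y : Type} (S : Finset X) (key : X → Y) (I : X → ℕ) (o : X → ZMod 2) (R N : ℕ)
    (hR : ∀ v, #{x ∈ S | I x = v} ≤ R) (PS : Finset ℕ) (hP : PS.card ≤ N) (val : ℕ → ZMod 2) :
    ∃ b : ℕ → ZMod 2, (∀ v ∈ PS, b v = val v) ∧ ∀ y β,
      2 * #{x ∈ S | key x = y ∧ o x + b (I x) = β} ≤ #{x ∈ S | key x = y} + 2 * ((N + 1) * R) := by
  obtain ⟨s, h1, h2⟩ := BF_fin S key I (fun x => if I x ∈ PS then 0 else BF_sg (o x))
    (fun x => by
      by_cases hx : I x ∈ PS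
      · simp [hx]
      · simp [hx, BF_sg_abs]) R hR
  obtain ⟨b, hb1, hb2⟩ : ∃ b : ℕ → ZMod 2, (∀ v ∈ PS, b v = val v) ∧
      ∀ v, v ∉ PS → BF_sg (b v) = s v := by
    refine ⟨fun v => if v ∈ PS then val v else if s v = 1 then 0 else 1, fun v hv => if_pos hv,
      fun v hv => ?_⟩
    rcases h1 v with h | h
    · simp [hv, h, BF_sg]
    · have h3 : ¬ s v = 1 := by
        rw [h]
        norm_num
      simp only [if_neg hv, if_neg h3]
      simp [h, BF_sg]
  refine ⟨b, hb1, fun y β => ?_⟩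
  have h3 : (#{x ∈ S | I x ∈ PS} : ℕ) ≤ N * R := by
    rw [Finset.card_eq_sum_card_fiberwise (s := S.filter fun x => I x ∈ PS) (t := PS) (f := I)
      fun x hx => (Finset.mem_filter.mp hx).2]
    refine (Finset.sum_le_card_nsmul _ _ R fun v _ => ?_).trans ?_
    · refine le_trans (Finset.card_le_card fun x hx => ?_) (hR v)
      exact Finset.mem_filter.mpr
        ⟨(Finset.mem_filter.mp (Finset.mem_filter.mp hx).1).1, (Finset.mem_filter.mp hx).2⟩
    · exact Nat.mul_le_mul_right R hP
  have h4 : ∀ x ∈ S.filter fun x => key x = y, 2 * (if o x + b (I x) = β then (1 : ℝ) else 0) ≤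
      1 + BF_sg β * ((if I x ∈ PS then 0 else BF_sg (o x)) * s (I x)) +
        if I x ∈ PS then 1 else 0 := by
    intro x _
    by_cases hx : I x ∈ PS
    · simp only [if_pos hx]
      split_ifs <;> norm_num
    · simp only [if_neg hx]
      rw [BF_sg_ind, BF_sg_add, hb2 _ hx, add_zero]
  have h5 := Finset.sum_le_sum h4
  rw [← Finset.mul_sum, Finset.sum_add_distrib, Finset.sum_add_distrib, ← Finset.mul_sum,
    Finset.sum_boole, Finset.sum_boole, Finset.sum_const, nsmul_eq_mul, mul_one] at h5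
  have h6 : BF_sg β * ∑ x ∈ S with key x = y,
      (if I x ∈ PS then 0 else BF_sg (o x)) * s (I x) ≤ 2 * R := by
    refine (le_abs_self _).trans ?_
    rw [abs_mul, BF_sg_abs, one_mul]
    exact h2 y
  have h7 : (#((S.filter fun x => key x = y).filter fun x => I x ∈ PS) : ℝ) ≤ N * R := by
    have : #((S.filter fun x => key x = y).filter fun x => I x ∈ PS) ≤ N * R := by
      refine le_trans (Finset.card_le_card fun x hx => ?_) h3
      exact Finset.mem_filter.mpr
        ⟨(Finset.mem_filter.mp (Finset.mem_filter.mp hx).1).1, (Finset.mem_filter.mp hx).2⟩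
    exact_mod_cast this
  have h8 : (#{x ∈ S | key x = y ∧ o x + b (I x) = β} : ℝ) ≤
      #((S.filter fun x => key x = y).filter fun x => o x + b (I x) = β) := by
    refine Nat.cast_le.mpr (Finset.card_le_card fun x hx => ?_)
    obtain ⟨g1, g2, g3⟩ := Finset.mem_filter.mp hx
    exact Finset.mem_filter.mpr ⟨Finset.mem_filter.mpr ⟨g1, g2⟩, g3⟩
  have h9 : (0 : ℝ) ≤ N * R := by positivity
  have h10 : (2 * #{x ∈ S | key x = y ∧ o x + b (I x) = β} : ℝ) ≤
      #{x ∈ S | key x = y} + 2 * ((N + 1) * R) := by linarith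
  exact_mod_cast h10

open Classical in
theorem slide {X Y C : Type} [Fintype C] (S : Finset X) (key : X → Y) (I : C → X → ℕ)
    (o : C → X → ZMod 2) (R N : ℕ) (hR : ∀ c v, #{x ∈ S | I c x = v} ≤ R) (PS : C → Finset ℕ)
    (hP : ∀ c, (PS c).card ≤ N) (val : C → ℕ → ZMod 2) :
    ∃ b : C → ℕ → ZMod 2, (∀ c, ∀ v ∈ PS c, b c v = val c v) ∧ ∀ y (ρ : C → ZMod 2),
      2 ^ Fintype.card C * #{x ∈ S | key x = y ∧ (fun c => o c x + b c (I c x)) = ρ} ≤
        #{x ∈ S | key x = y} + 2 ^ Fintype.card C * (2 * ((N + 1) * R)) := by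
  have main : ∀ T : Finset C, ∃ b : C → ℕ → ZMod 2, (∀ c, ∀ v ∈ PS c, b c v = val c v) ∧
      ∀ y (ρ : C → ZMod 2),
        2 ^ T.card * #{x ∈ S | key x = y ∧ ∀ c ∈ T, o c x + b c (I c x) = ρ c} ≤
          #{x ∈ S | key x = y} + 2 ^ T.card * (2 * ((N + 1) * R)) := by
    intro T
    induction T using Finset.induction_on with
    | empty =>
      refine ⟨val, fun _ _ _ => rfl, fun y ρ => ?_⟩
      rw [Finset.card_empty, pow_zero, one_mul]
      refine le_trans (Finset.card_le_card fun x hx => ?_) (Nat.le_add_right _ _)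
      exact Finset.mem_filter.mpr ⟨(Finset.mem_filter.mp hx).1, (Finset.mem_filter.mp hx).2.1⟩
    | insert c0 T hc ih =>
      obtain ⟨b, h1, h2⟩ := ih
      obtain ⟨b0, h3, h4⟩ := slide1 S
        (fun x => (key x, fun c => if c ∈ T then o c x + b c (I c x) else 0)) (I c0) (o c0) R N
        (hR c0) (PS c0) (hP c0) (val c0)
      refine ⟨Function.update b c0 b0, fun c v hv => ?_, fun y ρ => ?_⟩
      · by_cases he : c = c0
        · subst he
          rw [Function.update_self]
          exact h3 v hv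
        · rw [Function.update_of_ne he]
          exact h1 c v hv
      have h5 := h4 (y, fun c => if c ∈ T then ρ c else 0) (ρ c0)
      have h6 : 2 * #{x ∈ S | key x = y ∧
          ∀ c ∈ insert c0 T, o c x + Function.update b c0 b0 c (I c x) = ρ c} ≤
          #{x ∈ S | key x = y ∧ ∀ c ∈ T, o c x + b c (I c x) = ρ c} + 2 * ((N + 1) * R) := by
        refine le_trans (Nat.mul_le_mul_left 2 (Finset.card_le_card fun x hx => ?_))
          (h5.trans (Nat.add_le_add_right (Finset.card_le_card fun x hx => ?_) _))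
        · obtain ⟨g1, g2, g3⟩ := Finset.mem_filter.mp hx
          refine BF_mem.mpr ⟨g1, Prod.ext g2 (funext fun c => ?_), ?_⟩
          · by_cases he : c ∈ T
            · have g4 := g3 c (Finset.mem_insert_of_mem he)
              rw [Function.update_of_ne (ne_of_mem_of_not_mem he hc)] at g4
              simp only [if_pos he]
              exact g4
            · simp only [if_neg he]
          · have g4 := g3 c0 (Finset.mem_insert_self _ _)
            rwa [Function.update_self] at g4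
        · obtain ⟨g1, g2⟩ := BF_mem.mp hx
          refine Finset.mem_filter.mpr ⟨g1, congrArg Prod.fst g2, fun c he => ?_⟩
          have g3 := congrFun (congrArg Prod.snd g2) c
          simpa only [if_pos he] using g3
      have h7 := Nat.mul_le_mul_left (2 ^ T.card) h6
      have h8 := h2 y ρ
      rw [Finset.card_insert_of_notMem hc, pow_succ, mul_assoc, mul_assoc]
      rw [mul_add] at h7
      refine h7.trans ((Nat.add_le_add_right h8 _).trans (le_of_eq ?_))
      ring
  obtain ⟨b, h1, h2⟩ := main Finset.univ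
  refine ⟨b, h1, fun y ρ => le_trans (Nat.mul_le_mul_left _ (Finset.card_le_card fun x hx => ?_))
    (h2 y ρ)⟩
  obtain ⟨g1, g2, g3⟩ := Finset.mem_filter.mp hx
  exact Finset.mem_filter.mpr ⟨g1, g2, fun c _ => congrFun g3 c⟩

end Pool.Agent.Work.MP_ede3c6_co.W
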