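import Pool.Agent.Work.MP_ede3c6_co.V.C1

/-! Near-optimal embeddings of caterpillars: labels, parameters and the three interfaces
(inner structure of a zone, segmentation of the spine, allocation of zones). -/

set_option autoImplicit false

namespace Pool.Agent.Work.MP_ede3c6_co.W

open Finset Vol

/-- size of the colour class of parity `π` of the caterpillar -/
def cls (k : ℕ) (a : ℕ → ℕ) (π : ℕ) : ℕ := ∑ i ∈ range k, if i % 2 = π then 1 else a i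

/-- inner coordinates -/
abbrev Zt (mu kk : ℕ) : Type := Fin mu ⊕ Fin kk

/-- label bits -/
abbrev Lb (Zn : Type) (t mu kk : ℕ) : Type := Zn ⊕ (Fin t ⊕ Zt mu kk)

section Lab
variable {Zn : Type} {t mu kk : ℕ}

/-- a label from its three parts -/
def mk (Z : V Zn) (u : V (Fin t)) (z : V (Zt mu kk)) : V (Lb Zn t mu kk) :=
  Sum.elim Z (Sum.elim u z)

/-- zone of a label -/
def zo (l : V (Lb Zn t mu kk)) : V Zn := fun b => l (Sum.inl b)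

/-- middle part of a label -/
def uo (l : V (Lb Zn t mu kk)) : V (Fin t) := fun b => l (Sum.inr (Sum.inl b))

/-- inner part of a label -/
def zz (l : V (Lb Zn t mu kk)) : V (Zt mu kk) := fun b => l (Sum.inr (Sum.inr b))

@[simp] theorem zo_mk (Z : V Zn) (u : V (Fin t)) (z : V (Zt mu kk)) : zo (mk Z u z) = Z := rfl
@[simp] theorem uo_mk (Z : V Zn) (u : V (Fin t)) (z : V (Zt mu kk)) : uo (mk Z u z) = u := rfl
@[simp] theorem zz_mk (Z : V Zn) (u : V (Fin t)) (z : V (Zt mu kk)) : zz (mk Z u z) = z := rfl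
@[simp] theorem zo_add (x y : V (Lb Zn t mu kk)) : zo (x + y) = zo x + zo y := rfl
@[simp] theorem uo_add (x y : V (Lb Zn t mu kk)) : uo (x + y) = uo x + uo y := rfl
@[simp] theorem zz_add (x y : V (Lb Zn t mu kk)) : zz (x + y) = zz x + zz y := rfl
@[simp] theorem zo_zero : zo (0 : V (Lb Zn t mu kk)) = 0 := rfl
@[simp] theorem uo_zero : uo (0 : V (Lb Zn t mu kk)) = 0 := rfl
@[simp] theorem zz_zero : zz (0 : V (Lb Zn t mu kk)) = 0 := rfl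

theorem lab_ext {x y : V (Lb Zn t mu kk)} (h1 : zo x = zo y) (h2 : uo x = uo y)
    (h3 : zz x = zz y) : x = y := by
  funext b
  rcases b with b | b | b
  exacts [congrFun h1 b, congrFun h2 b, congrFun h3 b]

end Lab

/-- demands below this bound are small -/
def aS (t mu : ℕ) : ℕ := (2 ^ t - 1) * mu

/-- largest demand -/
def aM (t mu kk : ℕ) : ℕ := (2 ^ t - 1) * mu * 2 ^ kk

/-- size of a big bin -/
def bin (t mu kk : ℕ) : ℕ := (2 ^ t - 1) * 2 ^ (mu + kk)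

/-- number of big bins of the other parity that a class uses -/
def oth (t mu τ : ℕ) : ℕ := if τ < aS t mu then τ else 1

/-- admissible resource numbers of a class of type `τ` -/
def vr (t mu τ r : ℕ) : Prop := r ≤ if τ < aS t mu then τ else 0

/-- parity of resource `r` of a class of type `τ` and parity `p` -/
def rp (t mu τ : ℕ) (p : ZMod 2) (r : ℕ) : ZMod 2 := if τ < aS t mu ∧ r = 0 then p else p + 1

/-- The inner structure of a zone. -/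
structure Inn (t mu kk : ℕ) (η : ℝ) where
  TS : Finset ℕ
  rd : ℕ → ℕ
  Dz : ℕ → Set (V (Zt mu kk))
  Jz : Finset (V (Zt mu kk))
  lu : ℕ → ℕ → V (Fin t)
  lz : ℕ → ℕ → V (Zt mu kk)
  lev : ℕ → ℕ
  mb : ℕ → ℕ → ℕ
  su : ℕ → ℕ → ℕ → V (Fin t)
  sz : ℕ → ℕ → ℕ → V (Zt mu kk)
  hv : ℕ → ℕ → V (Zt mu kk)
  cTS : TS.card ≤ aS t mu + mu * (kk + 1)
  rdT : ∀ a, a ≤ aM t mu kk → rd a ∈ TS
  rd1 : ∀ a, a ≤ aM t mu kk → a ≤ rd a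
  cJ : Jz.card ≤ mu * 2 ^ kk
  lu0 : ∀ τ ∈ TS, aS t mu ≤ τ → ∀ l < τ, lu τ l ≠ 0 ∧ lz τ l ∈ Jz
  lfi : ∀ τ ∈ TS, aS t mu ≤ τ → ∀ l < τ, ∀ l' < τ, ∀ z ∈ Dz τ, ∀ z' ∈ Dz τ,
    lu τ l = lu τ l' → z + lz τ l = z' + lz τ l' → l = l'
  lev1 : ∀ τ ∈ TS, lev τ ≤ kk
  su1 : ∀ τ ∈ TS, ∀ j, lev τ ≤ j → j ≤ kk → ∀ f < mb τ j, (τ < aS t mu → su τ j f ≠ 0) ∧
    (aS t mu ≤ τ → su τ j f = 0 ∧ ∀ β < 2 ^ (kk - j), sz τ j f + hv j β ∈ Dz τ)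
  sti : ∀ τ ∈ TS, ∀ j, lev τ ≤ j → j ≤ kk → ∀ f < mb τ j, ∀ f' < mb τ j,
    ∀ β < 2 ^ (kk - j), ∀ β' < 2 ^ (kk - j), su τ j f = su τ j f' →
    sz τ j f + hv j β = sz τ j f' + hv j β' → f = f' ∧ β = β'
  mb0 : ∀ τ ∈ TS, ∀ j, lev τ ≤ j → j ≤ kk → 0 < mb τ j
  mb1 : ∀ τ ∈ TS, mb τ (lev τ) ≤ 2 ^ (t + mu)
  ef1 : ∀ τ ∈ TS, τ < aS t mu → ∀ j, lev τ ≤ j → j ≤ kk → bin t mu kk ≤ mb τ j * 2 ^ (kk - j)
  ef2 : ∀ a, a ≤ aM t mu kk → ∀ j, lev (rd a) ≤ j → j ≤ kk →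
    (oth t mu (rd a) : ℝ) * bin t mu kk ≤ (1 + η) * a * (mb (rd a) j * 2 ^ (kk - j))

/-- `l` is a site of a class of type `τ` in zone `Z` with special value `u` and shift `δ` -/
def Inn.Site {Zn : Type} {t mu kk : ℕ} {η : ℝ} (I : Inn t mu kk η) (τ : ℕ) (Z : V Zn)
    (u : V (Fin t)) (δ : V (Zt mu kk)) (l : V (Lb Zn t mu kk)) : Prop :=
  zo l = Z ∧ (τ < aS t mu → uo l ≠ u) ∧ (aS t mu ≤ τ → uo l = u ∧ zz l + δ ∈ I.Dz τ)

/-- the numerical parameters -/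
structure Pm where
  t : ℕ
  mu : ℕ
  kk : ℕ
  t1 : ℕ
  H : ℕ
  hh : ℕ
  s : ℕ
  G : ℕ
  d1 : ℕ
  d2 : ℕ
  P : ℕ
  P' : ℕ
  Kp : ℕ
  L0 : ℕ

namespace Pm
variable (p : Pm)

/-- zone bits -/
abbrev Zn : Type := (Fin p.t1 ⊕ Fin p.t1) ⊕ Fin (p.H + 1)
/-- labels -/
abbrev Lab : Type := V (Lb p.Zn p.t p.mu p.kk)
/-- number of label bits -/
def nL : ℕ := p.t1 + p.t1 + (p.H + 1) + (p.t + (p.mu + p.kk))
/-- standard pairs of a junction -/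
def M0 : ℕ := 2 * p.hh + 4
/-- extra pairs of a long junction -/
def Mg : ℕ := 3 * p.nL + 2
/-- pairs of junction `j` -/
def Mj (j : ℕ) : ℕ := if j % (p.P + 1) = p.P then p.M0 + p.Mg else p.M0
/-- slots of a segment -/
def ks : ℕ := 2 * p.M0 + 3
/-- length of a stretch -/
def K : ℕ := (2 * p.M0 + 2) * p.Kp
/-- length of a chapter -/
def Lc : ℕ := p.P * p.K + (2 * (p.M0 + p.Mg) + 2)
/-- number of chapters -/
def N (k : ℕ) : ℕ := k / p.Lc + 1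
/-- number of junctions -/
def J (k : ℕ) : ℕ := p.N k * (p.P + 1)
/-- number of values of the balanced coordinates -/
def Q : ℕ := 2 ^ (p.s + (p.G + (p.d1 + p.d2)))
/-- discrepancy -/
def er : ℕ := 6 + 2 * ((p.d2 + 1) * p.ks)
/-- largest demand -/
def Am : ℕ := aM p.t p.mu p.kk
/-- bound for the number of types -/
def nT : ℕ := aS p.t p.mu + p.mu * (p.kk + 1)
/-- bound for the number of block types -/
def nB : ℕ := (2 * p.K + 1) * 2 * p.nT ^ (2 * p.K)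
/-- number of standard zones -/
def nA : ℕ := (2 ^ p.t1 - 1) * (2 ^ p.t1 - 1) * 2 ^ (p.H + 1)
/-- bound for the number of track directions -/
def nD : ℕ := p.nB * (2 * p.K) * (2 ^ (p.t + p.mu) * p.nA)
/-- bound for the weight of the windows -/
def Wb (C k : ℕ) : ℕ := (2 * C + p.Lc + p.K) / p.Kp + (p.N k + 1) * (1 + p.Am)
/-- bound for the weight of the blocks -/
def Vb (C k : ℕ) : ℕ := C + p.Lc + p.K + 2 * p.Wb C k

/-- conditions on the parameters that do not depend on the caterpillar -/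
structure Ok (n : ℕ) : Prop where
  t0 : 1 ≤ p.t
  mu0 : 1 ≤ p.mu
  P0 : 1 ≤ p.P
  Kp0 : 1 ≤ p.Kp
  L00 : 1 ≤ p.L0
  d10 : 1 ≤ p.d1
  d20 : 1 ≤ p.d2
  dim : n = 1 + p.nL + (p.hh + p.hh + (p.s + (p.G + (p.d1 + p.d2))))
  hG : 2 ^ p.t * (p.mu * 2 ^ p.kk) + 2 ^ (p.mu + p.kk) + 2 ^ (p.t1 + p.t1 + (p.H + 1) + p.t) +
    p.nD ≤ p.G
  hs : p.G ≤ 2 ^ p.s
  hP : p.P + 1 = p.s * p.P'
  hH : 9 * p.Mg < 2 ^ (p.H + 1)
  e2 : (p.G * (p.P + 1) + 1) * p.ks ≤ 2 ^ (p.d1 + p.d2)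
  e3 : (p.d1 + 1) * p.ks ≤ 2 ^ p.d2
  hr : p.L0 + p.er + 2 ^ p.hh * (p.ks * (1 + p.er)) < 2 ^ (p.hh + p.hh)

/-- conditions that link the parameters with the size of the caterpillar -/
structure Fit (η : ℝ) (C k : ℕ) : Prop where
  e1 : (p.N k + 1) * ((p.s + 1) * p.ks) ≤ 2 ^ (p.G + (p.d1 + p.d2))
  hA : (1 + η) * p.Vb C k / (p.L0 * p.Q * bin p.t p.mu p.kk) +
    2 * p.nB * (2 * p.K) * (aS p.t p.mu + 1) +
    p.M0 * (p.L0 * 2 ^ p.t * (2 * ((1 + η) * p.Wb C k / (p.L0 * p.Q * bin p.t p.mu p.kk)) +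
      4 * p.nB * (aS p.t p.mu + 1)) + 2 * p.nT * (aS p.t p.mu + 1)) ≤ (p.nA : ℝ)

/-- the standard zones -/
def Std (Z : V p.Zn) : Prop :=
  (∃ b, Z (Sum.inl (Sum.inl b)) ≠ 0) ∧ ∃ b, Z (Sum.inl (Sum.inr b)) ≠ 0

end Pm

/-- weight of a spine vertex in the colour class `π` -/
def wt (π i x : ℕ) : ℕ := if i % 2 = π then 1 else x

/-- The segmentation of the spine into blocks and junctions. -/
structure Seg (p : Pm) (k : ℕ) (a : ℕ → ℕ) (C : ℕ) where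
  bs : ℕ → ℕ
  bl : ℕ → ℕ
  av : ℕ → ℕ → ℕ
  mx : ℕ → ℕ
  bs0 : bs 0 = 0
  bss : ∀ j, bs (j + 1) = bs j + bl j + 2 * p.Mj j
  bl1 : ∀ j, 1 ≤ bl j
  bl2 : ∀ j, bl j ≤ 2 * p.K
  avM : ∀ j o, av j o ≤ p.Am
  avl : ∀ j, av j (bl j - 1) = mx j
  avf : ∀ j, av (j + 1) 0 = mx j
  lgM : ∀ j, j % (p.P + 1) = p.P → mx j = p.Am ∧ (bs j + bl j) % 2 = 1
  cv1 : ∀ j o, o < bl j → bs j + o < k → a (bs j + o) ≤ av j o
  cv2 : ∀ j o, o < 2 * p.Mj j → bs j + bl j + o < k → a (bs j + bl j + o) ≤ mx j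
  cov : k ≤ bs (p.J k)
  vol : ∀ π < 2, ∑ j ∈ range (p.J k + 1), ∑ o ∈ range (bl j), wt π (bs j + o) (av j o) ≤ p.Vb C k
  wf : ∑ j ∈ range (p.J k + 1), (1 + av j 0) ≤ p.Wb C k
  wl : ∑ j ∈ range (p.J k + 1), (1 + mx j) ≤ p.Wb C k

open Classical in
/-- The allocation of tracks and standard zones. -/
structure Alc (p : Pm) {η : ℝ} (I : Inn p.t p.mu p.kk η) {k : ℕ} {a : ℕ → ℕ} {C : ℕ}
    (S : Seg p k a C) where
  Cl : Type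
  Tk : Type
  ok : Cl → Prop
  ty : Cl → ℕ
  pr : Cl → ZMod 2
  rz : Cl → ℕ → V p.Zn
  cm : ℕ → ℕ → Cl
  lm : ℕ → ℕ → p.Lab
  tk : ℕ → Tk
  cj : ℕ → ℕ → ℕ → Cl
  Dl : Finset p.Lab
  tyT : ∀ x, ok x → ty x ∈ I.TS
  rzA : ∀ x r, ok x → vr p.t p.mu (ty x) r → p.Std (rz x r)
  inj : ∀ x y r r', ok x → ok y → vr p.t p.mu (ty x) r → vr p.t p.mu (ty y) r' →
    rz x r = rz y r' → rp p.t p.mu (ty x) (pr x) r = rp p.t p.mu (ty y) (pr y) r' →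
    x = y ∧ r = r'
  cm1 : ∀ j ≤ p.J k, ∀ o < S.bl j, ok (cm j o) ∧ ty (cm j o) = I.rd (S.av j o) ∧
    pr (cm j o) = ((S.bs j + o : ℕ) : ZMod 2) ∧
    I.Site (I.rd (S.av j o)) (rz (cm j o) 0) 0 0 (lm j o)
  cm2 : ∀ j ≤ p.J k, ∀ j' ≤ p.J k, ∀ o < S.bl j, ∀ o' < S.bl j', cm j o = cm j' o' →
    lm j o = lm j' o' → o = o' ∧ tk j = tk j'
  tk1 : ∀ j ≤ p.J k, ∀ j' ≤ p.J k, tk j = tk j' → ∀ o, lm j o = lm j' o
  tk2 : ∀ y, #{j ∈ range (p.J k + 1) | tk j = y} ≤ p.L0 * p.Q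
  dl1 : ∀ j ≤ p.J k, ∀ o, o + 1 < S.bl j → lm j o + lm j (o + 1) ∈ Dl
  dl2 : Dl.card ≤ p.nD
  cj1 : ∀ j < p.J k, ∀ m < p.M0, ∀ e < 2, ok (cj j m e) ∧ ty (cj j m e) = I.rd (S.mx j) ∧
    pr (cj j m e) = ((S.bs j + S.bl j + e : ℕ) : ZMod 2) ∧ rz (cj j m e) 0 = rz (cj j m 0) 0
  cj2 : ∀ j j' m m' e e', cj j m e = cj j' m' e' → m = m' ∧ e = e'
  cj3 : ∀ j o j' m e, cm j o ≠ cj j' m e
  cj4 : ∀ m e y z, #{j ∈ range (p.J k) | cj j m e = y ∧ zz (lm j (S.bl j - 1)) = z} ≤ p.Q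
  cj5 : ∀ m e y z, #{j ∈ range (p.J k) | cj j m e = y ∧ zz (lm (j + 1) 0) = z} ≤ p.Q

end Pool.Agent.Work.MP_ede3c6_co.W
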