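import Pool.Agent.Work.MP_ede3c6_co.W.Base

/-! From labels and rest vectors to points of the cube; injectivity at the level of labels. -/

set_option autoImplicit false

namespace Pool.Agent.Work.MP_ede3c6_co.W

open Finset Vol

section Emb
variable {L R : Type} [Fintype L] [DecidableEq L] [Fintype R] [DecidableEq R] (lam : R → V L)

/-- label of a rest vector -/
def lsum (r : V R) : V L := ∑ c, r c • lam c

omit [Fintype L] [DecidableEq L] in
theorem lsum_e (r : V R) (c : R) : lsum lam (r + e c) = lsum lam r + lam c := by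
  simp [lsum, add_smul, sum_add_distrib, e_apply]

/-- the point with given parity, label and rest -/
def pt (π : ZMod 2) (l : V L) (r : V R) : V (Option L ⊕ R) :=
  Sum.elim (fun o => o.elim (π + par (l + lsum lam r) + par r) (l + lsum lam r)) r

omit [DecidableEq L] [DecidableEq R] in
theorem pt_inj {π π' : ZMod 2} {l l' : V L} {r r' : V R} (h : pt lam π l r = pt lam π' l' r') :
    π = π' ∧ l = l' ∧ r = r' := by
  have h3 : r = r' := funext fun c => congrFun h (Sum.inr c)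
  subst h3
  have h2 : l = l' := add_right_cancel (funext fun b => congrFun h (Sum.inl (some b)))
  subst h2
  have h1 := congrFun h (Sum.inl none)
  exact ⟨add_right_cancel (add_right_cancel h1), rfl, rfl⟩

theorem pt_none (π : ZMod 2) (l : V L) (r : V R) :
    pt lam (π + 1) l r = pt lam π l r + e (Sum.inl none) := by
  funext c
  rcases c with (_ | b) | c <;> simp [pt, e_apply]
  ring

theorem pt_reg (π : ZMod 2) (l : V L) (r : V R) (b : L) :
    pt lam (π + 1) (l + e b) r = pt lam π l r + e (Sum.inl (some b)) := by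
  funext c
  rcases c with (_ | b') | c
  · simp only [pt, Sum.elim_inl, Option.elim_none, Pi.add_apply, e_apply, par_add, par_e]
    simp only [Sum.inl.injEq, reduceCtorEq, if_false]
    generalize par l = x, par (lsum lam r) = y, par r = z
    revert π x y z
    decide
  · simp [pt, e_apply]
    ring
  · simp [pt, e_apply]

theorem pt_rest (π : ZMod 2) (l : V L) (r : V R) (c : R) :
    pt lam (π + 1) (l + lam c) (r + e c) = pt lam π l r + e (Sum.inr c) := by
  have k : l + lam c + lsum lam (r + e c) = l + lsum lam r := by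
    rw [lsum_e, add_assoc, add_comm (lsum lam r), ← add_assoc (lam c), vv, zero_add]
  funext d
  rcases d with (_ | b') | d
  · simp only [pt, k, Sum.elim_inl, Option.elim_none, Pi.add_apply, e_apply, par_add r, par_e]
    simp only [reduceCtorEq, if_false]
    generalize par (l + lsum lam r) = y, par r = z
    revert π y z
    decide
  · simp [pt, k, e_apply]
  · simp [pt, e_apply]

/-- one step of the spine -/
def Step (l : V L) (r : V R) (l' : V L) (r' : V R) : Prop :=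
  (l' = l ∧ r' = r) ∨ (∃ b, l' = l + e b ∧ r' = r) ∨ ∃ c, l' = l + lam c ∧ r' = r + e c

theorem emb (k : ℕ) (a : ℕ → ℕ) (l : ℕ → V L) (r : ℕ → V R) (dr : ℕ → ℕ → R)
    (hst : ∀ i, i + 1 < k → Step lam (l i) (r i) (l (i + 1)) (r (i + 1)))
    (hxx : ∀ i j, i < k → j < k → (i : ZMod 2) = j → l i = l j → r i = r j → i = j)
    (hxy : ∀ i j m, i < k → j < k → m < a j → (i : ZMod 2) = j + 1 → l i = l j + lam (dr j m) →
      r i = r j + e (dr j m) → False)
    (hyy : ∀ i j m m', i < k → j < k → m < a i → m' < a j → (i : ZMod 2) = j →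
      l i + lam (dr i m) = l j + lam (dr j m') → r i + e (dr i m) = r j + e (dr j m') →
      i = j ∧ m = m')
    {n : ℕ} (hn : n = 1 + Fintype.card L + Fintype.card R) : (cat k a).IsContained (cube n) := by
  refine Dat.contained (x := fun i => pt lam i (l i) (r i))
    (y := fun i m => pt lam (i + 1) (l i + lam (dr i m)) (r i + e (dr i m)))
    ⟨fun i j hi hj h => ?_, fun i j m hi hj hm h => ?_, fun i j m m' hi hj hm hm' h => ?_,
      fun i hi => ?_, fun i m _ _ => ?_⟩ (by simp [hn, add_comm])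
  · obtain ⟨h1, h2, h3⟩ := pt_inj lam h
    exact hxx i j hi hj h1 h2 h3
  · obtain ⟨h1, h2, h3⟩ := pt_inj lam h
    exact hxy i j m hi hj hm h1 h2 h3
  · obtain ⟨h1, h2, h3⟩ := pt_inj lam h
    exact hyy i j m m' hi hj hm hm' (add_right_cancel h1) h2 h3
  · simp only [Nat.cast_add, Nat.cast_one]
    rcases hst i hi with ⟨h1, h2⟩ | ⟨b, h1, h2⟩ | ⟨c, h1, h2⟩
    · rw [h1, h2, pt_none, hd_e]
    · rw [h1, h2, pt_reg, hd_e]
    · rw [h1, h2, pt_rest, hd_e]
  · rw [pt_rest, hd_e]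

end Emb

section Bins
variable {Zn : Type} {t mu kk : ℕ} {η : ℝ} (I : Inn t mu kk η)

/-- A layout: classes of sites with pairwise different resources. -/
structure Lay (Zn Cl : Type) where
  ok : Cl → Prop
  ty : Cl → ℕ
  pr : Cl → ZMod 2
  rz : Cl → ℕ → V Zn
  dl : Cl → V (Zt mu kk)
  us : V Zn → ZMod 2 → V (Fin t)
  tyT : ∀ x, ok x → ty x ∈ I.TS
  inj : ∀ x y r r', ok x → ok y → vr t mu (ty x) r → vr t mu (ty y) r' →
    rz x r = rz y r' → rp t mu (ty x) (pr x) r = rp t mu (ty y) (pr y) r' → x = y ∧ r = r'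

variable {I} {Cl : Type} (Y : Lay I Zn Cl)

/-- `l` is a site of the class `x` -/
def Lay.St (x : Cl) (l : V (Lb Zn t mu kk)) : Prop :=
  Y.ok x ∧ I.Site (Y.ty x) (Y.rz x 0) (Y.us (Y.rz x 0) (Y.pr x)) (Y.dl x) l

/-- label of the direction of leaf `m` -/
def Lay.ld (x : Cl) (m : ℕ) : V (Lb Zn t mu kk) :=
  if Y.ty x < aS t mu then
    W.mk (Y.rz x 0 + Y.rz x (m + 1))
      (Y.us (Y.rz x 0) (Y.pr x) + Y.us (Y.rz x (m + 1)) (Y.pr x + 1)) 0
  else W.mk 0 (Y.us (Y.rz x 0) (Y.pr x) + Y.us (Y.rz x 0) (Y.pr x + 1) + I.lu (Y.ty x) m)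
    (I.lz (Y.ty x) m)

theorem Lay.ld_mem {x : Cl} (hx : Y.ok x) {m : ℕ} (hm : m < Y.ty x) :
    zz (Y.ld x m) = 0 ∨ (zo (Y.ld x m) = 0 ∧ zz (Y.ld x m) ∈ I.Jz) := by
  unfold Lay.ld
  split_ifs with h
  · exact Or.inl rfl
  · exact Or.inr ⟨rfl, (I.lu0 _ (Y.tyT x hx) (not_lt.1 h) m hm).2⟩

theorem vr_zero (τ : ℕ) : vr t mu τ 0 := Nat.zero_le _

theorem Lay.b1 {x y : Cl} {l : V (Lb Zn t mu kk)} (hx : Y.St x l) (hy : Y.St y l)
    (hp : Y.pr x = Y.pr y) : x = y := by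
  obtain ⟨x0, x1, x2, x3⟩ := hx
  obtain ⟨y0, y1, y2, y3⟩ := hy
  have hz : Y.rz x 0 = Y.rz y 0 := x1.symm.trans y1
  refine (Y.inj x y 0 0 x0 y0 (vr_zero _) (vr_zero _) hz ?_).1
  rw [hz, hp] at x2 x3
  by_cases a : Y.ty x < aS t mu <;> by_cases b : Y.ty y < aS t mu
  · simp [rp, a, b, hp]
  · exact absurd (y3 (not_lt.1 b)).1 (x2 a)
  · exact absurd (x3 (not_lt.1 a)).1 (y2 b)
  · simp [rp, a, b, hp]

/-- the resource that holds leaf `m` -/
def Lay.lr (x : Cl) (m : ℕ) : ℕ := if Y.ty x < aS t mu then m + 1 else 0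

theorem Lay.leaf {x : Cl} {l : V (Lb Zn t mu kk)} (hx : Y.St x l) {m : ℕ} (hm : m < Y.ty x) :
    vr t mu (Y.ty x) (Y.lr x m) ∧ rp t mu (Y.ty x) (Y.pr x) (Y.lr x m) = Y.pr x + 1 ∧
      zo (l + Y.ld x m) = Y.rz x (Y.lr x m) ∧
      uo (l + Y.ld x m) ≠ Y.us (Y.rz x (Y.lr x m)) (Y.pr x + 1) := by
  obtain ⟨x0, x1, x2, x3⟩ := hx
  unfold Lay.lr Lay.ld vr rp
  by_cases a : Y.ty x < aS t mu
  · simp only [if_pos a, zo_add, uo_add, zo_mk, uo_mk, x1]
    refine ⟨hm, by simp, by rw [← add_assoc, vv, zero_add], fun h => x2 a ?_⟩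
    rw [← add_assoc, add_eq_right] at h
    rw [← add_zero (uo l), ← vv (Y.us (Y.rz x 0) (Y.pr x)), ← add_assoc, h, zero_add]
  · simp only [if_neg a, zo_add, uo_add, zo_mk, uo_mk, x1, (x3 (not_lt.1 a)).1]
    refine ⟨le_rfl, by simp [a], add_zero _, fun h => ?_⟩
    rw [← add_assoc, ← add_assoc, vv, zero_add, add_eq_left] at h
    exact (I.lu0 _ (Y.tyT x x0) (not_lt.1 a) m hm).1 h

theorem Lay.b2 {x y : Cl} {l l' : V (Lb Zn t mu kk)} (hx : Y.St x l) (hy : Y.St y l') {m : ℕ}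
    (hm : m < Y.ty y) (hl : l = l' + Y.ld y m) (hp : Y.pr x = Y.pr y + 1) : False := by
  obtain ⟨y1, y2, y3, y4⟩ := Y.leaf hy hm
  obtain ⟨x0, x1, x2, x3⟩ := hx
  rw [← hl] at y3 y4
  have hz : Y.rz x 0 = Y.rz y (Y.lr y m) := x1.symm.trans y3
  by_cases a : Y.ty x < aS t mu
  · obtain ⟨rfl, h⟩ := Y.inj x y 0 _ x0 hy.1 (vr_zero _) y1 hz (by rw [y2, ← hp]; simp [rp, a])
    simp [Lay.lr, a] at h
  · exact y4 (by rw [← hz, ← hp]; exact (x3 (not_lt.1 a)).1)

theorem Lay.b3 {x y : Cl} {l l' : V (Lb Zn t mu kk)} (hx : Y.St x l) (hy : Y.St y l') {m m' : ℕ}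
    (hm : m < Y.ty x) (hm' : m' < Y.ty y) (hl : l + Y.ld x m = l' + Y.ld y m')
    (hp : Y.pr x = Y.pr y) : x = y ∧ m = m' ∧ l = l' := by
  obtain ⟨x1, x2, x3, -⟩ := Y.leaf hx hm
  obtain ⟨y1, y2, y3, -⟩ := Y.leaf hy hm'
  obtain ⟨rfl, h⟩ := Y.inj x y _ _ hx.1 hy.1 x1 y1 (by rw [← x3, ← y3, hl]) (by rw [x2, y2, hp])
  suffices k : m = m' by
    subst k
    exact ⟨rfl, rfl, add_right_cancel hl⟩
  by_cases a : Y.ty x < aS t mu
  · simpa [Lay.lr, a] using h
  · obtain ⟨u1, z1⟩ := hx.2.2.2 (not_lt.1 a)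
    obtain ⟨u2, z2⟩ := hy.2.2.2 (not_lt.1 a)
    have h1 := congrArg uo hl
    have h2 := congrArg zz hl
    simp only [Lay.ld, if_neg a, uo_add, zz_add, uo_mk, zz_mk, u1, u2] at h1 h2
    refine I.lfi _ (Y.tyT x hx.1) (not_lt.1 a) m hm m' hm' _ z1 _ z2
      (add_left_cancel (add_left_cancel h1)) ?_
    rw [add_right_comm, h2, add_right_comm]

end Bins

end Pool.Agent.Work.MP_ede3c6_co.W
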