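import Pool.Agent.Work.MP_ede3c6_co.W.Greedy

/-! The gadget: two routes of the same length with the same end labels, one of which uses a
prescribed direction. -/

set_option autoImplicit false

namespace Pool.Agent.Work.MP_ede3c6_co.W

open Finset Vol

/-- Shifts and zones of the gadget for a direction with label `lam`. -/
structure Gad (p : Pm) (lam : p.Lab) where
  rho : ℕ → p.Lab
  fl : ℕ → ZMod 2
  bz : ℕ → V p.Zn
  az : ℕ → ℕ → V p.Zn
  r0 : rho 0 = 0
  rM : rho p.Mg = 0
  r1 : rho 2 = rho 1 + lam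
  rs : ∀ i, i ≠ 1 → rho (i + 1) = rho i ∨ ∃ b, rho (i + 1) = rho i + e b
  f0 : ∀ i ≤ p.Mg, fl i = 0 → rho i = 0
  f1 : ∀ i, 2 ≤ i → i < p.Mg → fl i = 1
  fa : ∀ g o, fl (g + o) = 1 → az g o = bz g + zo (rho (g + o))
  nb : ∀ g, ¬ p.Std (bz g)
  na : ∀ g o, ¬ p.Std (az g o)
  ib : ∀ g < p.Mg, ∀ g' < p.Mg, bz g = bz g' → g = g'
  ia : ∀ g < p.Mg, ∀ g' < p.Mg, ∀ o < 2, ∀ o' < 2, az g o = az g' o' → g = g'
  iab : ∀ g < p.Mg, ∀ g' < p.Mg, ∀ o < 2, az g o ≠ bz g'

section
variable (p : Pm)

/-- the flag bit -/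
def flag : Lb p.Zn p.t p.mu p.kk := Sum.inl (Sum.inr 0)

theorem card_Lb : Fintype.card (Lb p.Zn p.t p.mu p.kk) = p.nL := by simp [Pm.nL]

/-- a numbering of the label bits -/
noncomputable def ix (b : Lb p.Zn p.t p.mu p.kk) : ℕ := Fintype.equivFin _ b

theorem ix_lt (b : Lb p.Zn p.t p.mu p.kk) : ix p b < p.nL := by
  rw [← card_Lb]
  exact (Fintype.equivFin _ b).2

theorem ix_inj {b c : Lb p.Zn p.t p.mu p.kk} (h : ix p b = ix p c) : b = c :=
  (Fintype.equivFin _).injective (Fin.ext h)

open Classical in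
/-- the time at which a bit is repaired -/
noncomputable def od (b : Lb p.Zn p.t p.mu p.kk) : ℕ :=
  if b = flag p then 3 * p.nL - 1 else
    if ∃ c, b = Sum.inl (Sum.inl (Sum.inl c)) then p.nL + ix p b else ix p b

theorem od_inj {b c : Lb p.Zn p.t p.mu p.kk} (h : od p b = od p c) : b = c := by
  have := ix_lt p b
  have := ix_lt p c
  unfold od at h
  split_ifs at h with h1 h2 <;> first | exact h1.trans h2.symm | omega | exact ix_inj p (by omega)

theorem od_lt (b : Lb p.Zn p.t p.mu p.kk) : od p b < 3 * p.nL := by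
  have := ix_lt p b
  unfold od
  split_ifs <;> omega

/-- the shift of the first route -/
noncomputable def rho (lam : p.Lab) (i : ℕ) : p.Lab :=
  if i = 0 then 0 else if i = 1 then (if lam (flag p) = 0 then e (flag p) else 0) else
    fun b => if i - 2 ≤ od p b then (if b = flag p then 1 else lam b) else 0

theorem rho_ge (lam : p.Lab) (i : ℕ) (b : Lb p.Zn p.t p.mu p.kk) :
    rho p lam (i + 2) b = if i ≤ od p b then (if b = flag p then 1 else lam b) else 0 := by
  simp [rho]

theorem rho_low (lam : p.Lab) {i : ℕ} (h : i < 2) {b : Lb p.Zn p.t p.mu p.kk} (hb : b ≠ flag p) :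
    rho p lam i b = 0 := by
  unfold rho
  split_ifs
  · rfl
  · simp [e_apply, hb]
  · rfl
  · omega

theorem z2 (a : ZMod 2) : a = 0 ∨ a = 1 := by
  revert a
  decide

theorem gad_ex (hH : 9 * p.Mg < 2 ^ (p.H + 1)) (lam : p.Lab) : Nonempty (Gad p lam) := by
  classical
  let rt : ℕ → V p.Zn := fun i => zo (Function.update (rho p lam i) (flag p) 1)
  let A : ℕ → Finset (V (Fin (p.H + 1))) := fun g =>
    {0, fun b => rt g (Sum.inr b), fun b => rt (g + 1) (Sum.inr b)}
  obtain ⟨x, -, hx⟩ := greedyL (range p.Mg) (fun _ => (univ : Finset (V (Fin (p.H + 1)))))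
    (fun g c g' d => ∃ a ∈ A g, ∃ a' ∈ A g', c + a = d + a') 0
    (fun i c j d ⟨a, h1, b, h2, h3⟩ => ⟨b, h2, a, h1, h3.symm⟩) (fun _ _ => 9)
    (fun i _ j _ d => ⟨(A i ×ˢ A j).image fun q => d + q.2 + q.1,
      card_image_le.trans (by
        rw [card_product]
        exact Nat.mul_le_mul card_le_three card_le_three),
      fun c ⟨a, h1, b, h2, h3⟩ => mem_image.2 ⟨(a, b), mem_product.2 ⟨h1, h2⟩, by
        rw [← h3, add_assoc, vv, add_zero]⟩⟩)
    (fun i _ => by simpa [mul_comm] using hH)
  let bz : ℕ → V p.Zn := fun g =>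
    Sum.elim (Sum.elim (fun b => lam (Sum.inl (Sum.inl (Sum.inl b)))) 0) (x g)
  have key : ∀ g < p.Mg, ∀ g' < p.Mg, ∀ a ∈ A g, ∀ a' ∈ A g', x g + a = x g' + a' → g = g' :=
    fun g hg g' hg' a ha a' ha' h => by_contra fun k =>
      hx g (mem_range.2 hg) g' (mem_range.2 hg') k ⟨a, ha, a', ha', h⟩
  have mA : ∀ g, ∀ o < 2, (fun b => rt (g + o) (Sum.inr b)) ∈ A g := fun g o ho => by
    interval_cases o <;> simp [A]
  have m0 : ∀ g, (0 : V (Fin (p.H + 1))) ∈ A g := fun g => by simp [A]
  have nL : 0 < p.nL := lt_of_le_of_lt (Nat.zero_le _) (ix_lt p (flag p))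
  have odf : od p (flag p) = 3 * p.nL - 1 := by simp [od]
  refine ⟨⟨rho p lam, fun i => rho p lam i (flag p), bz, fun g o => bz g + rt (g + o),
    by simp [rho], ?_, ?_, ?_, ?_, ?_, ?_, ?_, ?_, ?_, ?_, ?_⟩⟩
  · funext b
    have := od_lt p b
    rw [Pm.Mg, rho_ge, if_neg (by omega)]
    rfl
  · funext b
    refine (rho_ge p lam 0 b).trans ?_
    rw [if_pos (Nat.zero_le _)]
    by_cases hb : b = flag p
    · subst hb
      rcases z2 (lam (flag p)) with h | h <;> simp [rho, h, e_apply]
    · rw [if_neg hb, Pi.add_apply, rho_low p lam (by omega) hb, zero_add]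
  · intro i hi
    rcases i with _ | _ | i
    · rcases z2 (lam (flag p)) with h | h
      · exact Or.inr ⟨flag p, by simp [rho, h]⟩
      · exact Or.inl (by simp [rho, h])
    · exact absurd rfl hi
    · by_cases h : ∃ b, od p b = i ∧ (if b = flag p then 1 else lam b) = 1
      · obtain ⟨b, h1, h2⟩ := h
        refine Or.inr ⟨b, funext fun c => ?_⟩
        rw [show i + 1 + 1 + 1 = i + 1 + 2 from rfl, show i + 1 + 1 = i + 2 from rfl, Pi.add_apply,
          rho_ge, rho_ge, e_apply]
        by_cases k : c = b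
        · subst k
          rw [if_neg (by omega), if_pos (by omega), h2, if_pos rfl]
          decide
        · have : od p c ≠ i := fun q => k (od_inj p (q.trans h1.symm))
          rw [if_neg k, add_zero]
          exact if_congr (by omega) rfl rfl
      · refine Or.inl (funext fun c => ?_)
        rw [show i + 1 + 1 + 1 = i + 1 + 2 from rfl, show i + 1 + 1 = i + 2 from rfl,
          rho_ge, rho_ge]
        by_cases k : od p c = i
        · rw [if_neg (by omega), if_pos (by omega)]
          exact ((z2 _).resolve_right fun q => h ⟨c, k, q⟩).symm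
        · exact if_congr (by omega) rfl rfl
  · intro i hi h
    funext b
    by_cases hb : b = flag p
    · exact hb ▸ h
    rcases i with _ | _ | i
    · exact rho_low p lam (by omega) hb
    · exact rho_low p lam (by omega) hb
    · have := od_lt p b
      simp only [show i + 1 + 1 = i + 2 from rfl, rho_ge, if_true, odf] at h
      rw [show i + 1 + 1 = i + 2 from rfl, rho_ge, if_neg]
      · rfl
      · intro q
        rw [if_pos (by omega)] at h
        exact one_ne_zero h
  · intro i h1 h2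
    obtain ⟨i, rfl⟩ := Nat.exists_eq_add_of_le' h1
    rw [Pm.Mg] at h2
    simp only [rho_ge, if_true, odf]
    rw [if_pos (by omega)]
  · intro g o h
    simp only [rt]
    rw [← h, Function.update_eq_self]
  · rintro g ⟨-, b, h⟩
    exact h rfl
  · rintro g o ⟨⟨b, h1⟩, c, h2⟩
    have n1 : (Sum.inl (Sum.inl (Sum.inl b)) : Lb p.Zn p.t p.mu p.kk) ≠ flag p := by simp [flag]
    have n2 : (Sum.inl (Sum.inl (Sum.inr c)) : Lb p.Zn p.t p.mu p.kk) ≠ flag p := by simp [flag]
    simp only [bz, rt, zo, Pi.add_apply, Sum.elim_inl, Sum.elim_inr, Function.update_of_ne n1,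
      Function.update_of_ne n2, Pi.zero_apply, zero_add] at h1 h2
    generalize g + o = i at h1 h2
    rcases i with _ | _ | i
    · exact h2 (rho_low p lam (by omega) n2)
    · exact h2 (rho_low p lam (by omega) n2)
    · rw [show i + 1 + 1 = i + 2 from rfl, rho_ge] at h1 h2
      by_cases k : i ≤ p.nL
      · rw [if_pos (by rw [od, if_neg n1, if_pos ⟨b, rfl⟩]; omega), if_neg n1] at h1
        exact h1 (CharTwo.add_self_eq_zero _)
      · have := ix_lt p (Sum.inl (Sum.inl (Sum.inr c)))
        rw [if_neg (by rw [od, if_neg n2, if_neg (by simp)]; omega)] at h2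
        exact h2 rfl
  · intro g hg g' hg' h
    exact key g hg g' hg' 0 (m0 g) 0 (m0 g')
      (congrArg (· + 0) (funext fun b => congrFun h (Sum.inr b)))
  · intro g hg g' hg' o ho o' ho' h
    exact key g hg g' hg' _ (mA g o ho) _ (mA g' o' ho') (funext fun b => congrFun h (Sum.inr b))
  · intro g hg g' hg' o ho h
    obtain rfl := key g hg g' hg' _ (mA g o ho) 0 (m0 g')
      (funext fun b => (congrFun h (Sum.inr b)).trans (add_zero _).symm)
    have := congrFun h (Sum.inr 0)
    rw [Pi.add_apply, add_eq_left] at this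
    simp only [rt, zo] at this
    rw [show (Sum.inl (Sum.inr 0) : Lb p.Zn p.t p.mu p.kk) = flag p from rfl,
      Function.update_self] at this
    exact one_ne_zero this

end

end Pool.Agent.Work.MP_ede3c6_co.W
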