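import Pool.Agent.Work.MP_ede3c6_co.W.Base

/-! Greedy list colouring with weighted conflicts and three consequences. -/

set_option autoImplicit false

namespace Pool.Agent.Work.MP_ede3c6_co.W

open Finset Vol

theorem greedyL {ι C : Type} (S : Finset ι) (Cs : ι → Finset C) (bad : ι → C → ι → C → Prop)
    (c0 : C) (hs : ∀ i c j d, bad i c j d → bad j d i c) (w : ι → ι → ℕ)
    (hw : ∀ i ∈ S, ∀ j ∈ S, ∀ d, ∃ T : Finset C, T.card ≤ w i j ∧ ∀ c, bad i c j d → c ∈ T)
    (hc : ∀ i ∈ S, ∑ j ∈ S, w i j < (Cs i).card) :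
    ∃ f : ι → C, (∀ i ∈ S, f i ∈ Cs i) ∧ ∀ i ∈ S, ∀ j ∈ S, i ≠ j → ¬ bad i (f i) j (f j) := by
  classical
  suffices H : ∀ U : Finset ι, U ⊆ S → ∃ f : ι → C, (∀ i ∈ U, f i ∈ Cs i) ∧
      ∀ i ∈ U, ∀ j ∈ U, i ≠ j → ¬ bad i (f i) j (f j) from H S Subset.rfl
  intro U
  induction U using Finset.induction_on with
  | empty => exact fun _ => ⟨fun _ => c0, by simp, by simp⟩
  | insert a U ha ih =>
    intro hU
    obtain ⟨f, f1, f2⟩ := ih ((subset_insert _ _).trans hU)
    have aS : a ∈ S := hU (mem_insert_self _ _)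
    have hT : ∀ j, ∃ T : Finset C, j ∈ S → T.card ≤ w a j ∧ ∀ c, bad a c j (f j) → c ∈ T :=
      fun j => by
        by_cases h : j ∈ S
        · obtain ⟨T, hT⟩ := hw a aS j h (f j)
          exact ⟨T, fun _ => hT⟩
        · exact ⟨∅, fun k => absurd k h⟩
    choose T hT using hT
    have hlt : (S.biUnion T).card < (Cs a).card :=
      lt_of_le_of_lt (card_biUnion_le.trans (sum_le_sum fun j hj => (hT j hj).1)) (hc a aS)
    obtain ⟨c, c1, c2⟩ := exists_mem_notMem_of_card_lt_card hlt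
    have key : ∀ j ∈ U, ¬ bad a c j (f j) := fun j hj hb =>
      c2 (mem_biUnion.2 ⟨j, hU (mem_insert_of_mem hj), (hT j (hU (mem_insert_of_mem hj))).2 c hb⟩)
    have ne : ∀ j ∈ U, j ≠ a := fun j hj h => ha (h ▸ hj)
    refine ⟨Function.update f a c, fun i hi => ?_, fun i hi j hj hij => ?_⟩
    · rcases mem_insert.1 hi with rfl | hi
      · simpa using c1
      · rw [Function.update_of_ne (ne i hi)]
        exact f1 i hi
    · rcases mem_insert.1 hi with e1 | hi' <;> rcases mem_insert.1 hj with e2 | hj'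
      · exact absurd (e1.trans e2.symm) hij
      · rw [e1, Function.update_self, Function.update_of_ne (ne j hj')]
        exact key j hj'
      · rw [e2, Function.update_self, Function.update_of_ne (ne i hi')]
        exact fun h => key i hi' (hs _ _ _ _ h)
      · rw [Function.update_of_ne (ne i hi'), Function.update_of_ne (ne j hj')]
        exact f2 i hi' j hj' hij

open Classical in
theorem fill2 {ι Y Y' : Type} (S : Finset ι) (k1 : ι → Y) (k2 : ι → Y') (nu : ι → ℕ) (c : ℕ)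
    (h : ∀ i ∈ S, #{j ∈ S | k1 j = k1 i} + #{j ∈ S | k2 j = k2 i} < nu i * c) :
    ∃ f : ι → ℕ, (∀ i ∈ S, f i < nu i) ∧ (∀ y v, #{j ∈ S | k1 j = y ∧ f j = v} ≤ c) ∧
      ∀ y v, #{j ∈ S | k2 j = y ∧ f j = v} ≤ c := by
  obtain ⟨f, f1, f2⟩ := greedyL S (fun i => range (nu i) ×ˢ range c)
    (fun i x j y => (k1 j = k1 i ∨ k2 j = k2 i) ∧ x = y) (0, 0)
    (fun i x j y h => ⟨h.1.imp Eq.symm Eq.symm, h.2.symm⟩)
    (fun i j => (if k1 j = k1 i then 1 else 0) + if k2 j = k2 i then 1 else 0)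
    (fun i _ j _ d => by
      by_cases q : k1 j = k1 i ∨ k2 j = k2 i
      · refine ⟨{d}, ?_, fun c h => mem_singleton.2 h.2⟩
        rcases q with q | q <;> simp [q]
      · exact ⟨∅, by simp, fun c h => absurd h.1 q⟩)
    (fun i hi => by
      rw [sum_add_distrib, ← card_filter, ← card_filter, card_product, card_range, card_range]
      exact h i hi)
  have key : ∀ (T : Finset ι) (v : ℕ), T ⊆ S → (∀ j ∈ T, (f j).1 = v) →
      (∀ i ∈ T, ∀ j ∈ T, k1 j = k1 i ∨ k2 j = k2 i) → T.card ≤ c := fun T v t1 t2 t3 => by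
    rw [← card_range c]
    refine card_le_card_of_injOn (fun j => (f j).2)
      (fun j hj => (mem_product.1 (f1 j (t1 hj))).2) fun i hi j hj q => ?_
    by_contra k
    exact f2 i (t1 hi) j (t1 hj) k ⟨t3 i hi j hj, Prod.ext ((t2 i hi).trans (t2 j hj).symm) q⟩
  refine ⟨fun i => (f i).1, fun i hi => mem_range.1 (mem_product.1 (f1 i hi)).1, fun y v => ?_,
    fun y v => ?_⟩
  · exact key _ v (filter_subset _ _) (fun j hj => (mem_filter.1 hj).2.2) fun i hi j hj =>
      Or.inl ((mem_filter.1 hj).2.1.trans (mem_filter.1 hi).2.1.symm)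
  · exact key _ v (filter_subset _ _) (fun j hj => (mem_filter.1 hj).2.2) fun i hi j hj =>
      Or.inr ((mem_filter.1 hj).2.1.trans (mem_filter.1 hi).2.1.symm)

open Classical in
theorem fill1 {ι Y : Type} (S : Finset ι) (k1 : ι → Y) (nu : ι → ℕ) (c : ℕ)
    (h : ∀ i ∈ S, #{j ∈ S | k1 j = k1 i} < nu i * c) :
    ∃ f : ι → ℕ, (∀ i ∈ S, f i < nu i) ∧ ∀ y v, #{j ∈ S | k1 j = y ∧ f j = v} ≤ c := by
  obtain ⟨f, f1, f2⟩ := greedyL S (fun i => range (nu i) ×ˢ range c)
    (fun i x j y => k1 j = k1 i ∧ x = y) (0, 0)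
    (fun i x j y h => ⟨h.1.symm, h.2.symm⟩) (fun i j => if k1 j = k1 i then 1 else 0)
    (fun i _ j _ d => by
      by_cases q : k1 j = k1 i
      · exact ⟨{d}, by simp [q], fun c h => mem_singleton.2 h.2⟩
      · exact ⟨∅, by simp, fun c h => absurd h.1 q⟩)
    (fun i hi => by
      rw [← card_filter, card_product, card_range, card_range]
      exact h i hi)
  refine ⟨fun i => (f i).1, fun i hi => mem_range.1 (mem_product.1 (f1 i hi)).1, fun y v => ?_⟩
  rw [← card_range c]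
  refine card_le_card_of_injOn (fun j => (f j).2)
    (fun j hj => (mem_product.1 (f1 j (mem_filter.1 hj).1)).2) fun i hi j hj q => ?_
  by_contra k
  obtain ⟨a1, a2, a3⟩ := mem_filter.1 hi
  obtain ⟨b1, b2, b3⟩ := mem_filter.1 hj
  exact f2 i a1 j b1 k ⟨b2.trans a2.symm, Prod.ext (a3.trans b3.symm) q⟩

open Classical in
theorem rank_ex {Y : Type} (J ks hh Lt L : ℕ) (X : Finset (ℕ × ℕ))
    (hX : ∀ x ∈ X, x.1 < J ∧ x.2 < ks) (cell : ℕ × ℕ → Y)
    (h0 : ∀ y, #{j ∈ range J | (j, 0) ∈ X ∧ cell (j, 0) = y} ≤ Lt)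
    (h1 : ∀ u, 1 ≤ u → ∀ y, #{j ∈ range J | (j, u) ∈ X ∧ cell (j, u) = y} ≤ L)
    (hr : Lt + 2 ^ hh * (ks * L) < 2 ^ (hh + hh)) :
    ∃ lo hi : ℕ → V (Fin hh), ∀ j j' u, (j, u) ∈ X → (j', u) ∈ X → cell (j, u) = cell (j', u) →
      j ≠ j' → (u = 0 → ¬ (lo j = lo j' ∧ hi j = hi j')) ∧ (1 ≤ u → u / 2 ≤ hh → hi j ≠ hi j') ∧
        (hh < u / 2 → lo (j + 1) ≠ lo (j' + 1)) := by
  let R : ℕ → ℕ → ℕ → Prop := fun u j j' => (j, u) ∈ X ∧ (j', u) ∈ X ∧ cell (j, u) = cell (j', u)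
  have Rs : ∀ u j j', R u j j' → R u j' j := fun u j j' h => ⟨h.2.1, h.1, h.2.2.symm⟩
  let R' : ℕ → ℕ → ℕ → Prop := fun u j j' =>
    if u / 2 ≤ hh then 1 ≤ u ∧ R u j j' else 1 ≤ j ∧ 1 ≤ j' ∧ R u (j - 1) (j' - 1)
  have c0 : ∀ j, ∑ j' ∈ range (J + 1), (if R 0 j j' then 1 else 0) ≤ Lt := fun j => by
    rw [← card_filter]
    refine le_trans (card_le_card fun i hi => ?_) (h0 (cell (j, 0)))
    obtain ⟨-, -, a, b⟩ := mem_filter.1 hi
    exact mem_filter.2 ⟨mem_range.2 (hX _ a).1, a, b.symm⟩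
  have c1 : ∀ u j, ∑ j' ∈ range (J + 1), (if R' u j j' then 1 else 0) ≤ L := fun u j => by
    rw [← card_filter]
    by_cases q : u / 2 ≤ hh
    · by_cases q' : 1 ≤ u
      · refine le_trans (card_le_card fun i hi => ?_) (h1 u q' (cell (j, u)))
        have := (mem_filter.1 hi).2
        simp only [R', if_pos q] at this
        obtain ⟨-, -, a, b⟩ := this
        exact mem_filter.2 ⟨mem_range.2 (hX _ a).1, a, b.symm⟩
      · rw [filter_false_of_mem fun i _ h => q' (by simp only [R', if_pos q] at h; exact h.1)]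
        simp
    · refine le_trans (card_le_card_of_injOn (fun i => i - 1) (fun i hi => ?_) fun i hi l hl k => ?_)
        (h1 u (by omega) (cell (j - 1, u)))
      · have := (mem_filter.1 hi).2
        simp only [R', if_neg q] at this
        obtain ⟨-, -, -, a, b⟩ := this
        exact mem_filter.2 ⟨mem_range.2 (hX _ a).1, a, b.symm⟩
      · have a := (mem_filter.1 hi).2
        have b := (mem_filter.1 hl).2
        simp only [R', if_neg q] at a b
        have := a.2.1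
        have := b.2.1
        simp only at k
        omega
  obtain ⟨f, -, f2⟩ := greedyL (C := V (Fin hh) × V (Fin hh)) (range (J + 1)) (fun _ => univ)
    (fun j x j' y => (R 0 j j' ∧ x = y) ∨
      ∃ u ∈ range ks, R' u j j' ∧ if u / 2 ≤ hh then x.2 = y.2 else x.1 = y.1) (0, 0)
    (fun i x j y h => by
      rcases h with h | ⟨u, u1, u2, u3⟩
      · exact Or.inl ⟨Rs _ _ _ h.1, h.2.symm⟩
      · refine Or.inr ⟨u, u1, ?_, ?_⟩
        · by_cases q : u / 2 ≤ hh
          · simp only [R', if_pos q] at u2 ⊢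
            exact ⟨u2.1, Rs _ _ _ u2.2⟩
          · simp only [R', if_neg q] at u2 ⊢
            exact ⟨u2.2.1, u2.1, Rs _ _ _ u2.2.2⟩
        · split_ifs at u3 ⊢ <;> exact u3.symm)
    (fun j j' => (if R 0 j j' then 1 else 0) +
      2 ^ hh * ∑ u ∈ range ks, if R' u j j' then 1 else 0)
    (fun i _ j _ d => by
      refine ⟨(if R 0 i j then {d} else ∅) ∪ (range ks).biUnion fun u => if R' u i j then
        (if u / 2 ≤ hh then univ ×ˢ {d.2} else {d.1} ×ˢ univ) else ∅, ?_, fun c h => ?_⟩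
      · refine (card_union_le _ _).trans (add_le_add ?_ (card_biUnion_le.trans ?_))
        · split_ifs <;> simp
        · rw [mul_sum]
          refine sum_le_sum fun u _ => ?_
          split_ifs <;> simp
      · rcases h with h | ⟨u, u1, u2, u3⟩
        · exact mem_union_left _ (by rw [if_pos h.1]; exact mem_singleton.2 h.2)
        · refine mem_union_right _ (mem_biUnion.2 ⟨u, u1, ?_⟩)
          rw [if_pos u2]
          split_ifs at u3 ⊢
          · exact mem_product.2 ⟨mem_univ _, mem_singleton.2 u3⟩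
          · exact mem_product.2 ⟨mem_singleton.2 u3, mem_univ _⟩)
    (fun i _ => by
      rw [sum_add_distrib, ← mul_sum, sum_comm]
      refine lt_of_le_of_lt (add_le_add (c0 i) (Nat.mul_le_mul_left _
        ((sum_le_sum fun u _ => c1 u i).trans (le_of_eq (by simp))))) (hr.trans_le ?_)
      simp [pow_add])
  refine ⟨fun j => (f j).1, fun j => (f j).2, fun j j' u a b c d => ⟨?_, ?_, ?_⟩⟩
  · rintro rfl h
    exact f2 j (mem_range.2 (Nat.lt_succ_of_lt (hX _ a).1)) j'
      (mem_range.2 (Nat.lt_succ_of_lt (hX _ b).1)) d (Or.inl ⟨⟨a, b, c⟩, Prod.ext h.1 h.2⟩)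
  · intro u1 u2 h
    refine f2 j (mem_range.2 (Nat.lt_succ_of_lt (hX _ a).1)) j'
      (mem_range.2 (Nat.lt_succ_of_lt (hX _ b).1)) d
      (Or.inr ⟨u, mem_range.2 (hX _ a).2, ?_, by rw [if_pos u2]; exact h⟩)
    simp only [R', if_pos u2]
    exact ⟨u1, a, b, c⟩
  · intro u2 h
    have q : ¬ u / 2 ≤ hh := by omega
    refine f2 (j + 1) (mem_range.2 (Nat.succ_lt_succ (hX _ a).1)) (j' + 1)
      (mem_range.2 (Nat.succ_lt_succ (hX _ b).1)) (by omega)
      (Or.inr ⟨u, mem_range.2 (hX _ a).2, ?_, by rw [if_neg q]; exact h⟩)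
    simp only [R', if_neg q, Nat.add_sub_cancel]
    exact ⟨by omega, by omega, a, b, c⟩

end Pool.Agent.Work.MP_ede3c6_co.W
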