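import Pool.Agent.Work.MP_ede3c6_co.W.KP

/-! Existence of the inner structure.

PLAN. `q = 2 ^ t - 1`. `lev a` = least `j` with `a ≤ q mu 2 ^ j`; `rd a = a` if `a < aS`, else
`q ι 2 ^ lev a` with `ι = ⌈a / (q 2 ^ lev a)⌉` (so `mu < 2 ι`, `ι ≤ mu`, `lev (rd a) = lev a`,
`rd a ≤ a + q 2 ^ lev a ≤ (1 + 2 / mu) a`); `TS` = image of `rd` on `range (aM + 1)`;
`io τ = τ / (q 2 ^ lev τ)`. `Cd ι` = code of `kp` (with `η / 3`, `m0` doubled, `mu ≥ 6 / η`,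
take `min η 1`). `Iv i j` = vectors of `V (Fin kk)` supported on the bits in `[i, j)`, `2 ^ (j - i)`
elements for `i ≤ j ≤ kk`. `Dz τ` = the `Sum.elim x a` with `x ∈ Cd (io τ)` and `a` zero on the
bits below `lev τ`. `Jz` = all `Sum.elim (e i) α`. With an enumeration `en s : ℕ → α` of a finite
set `s` (member and injective below `s.card`, from `Finset.equivFin`): leaves enumerate
`(univ.erase 0) ×ˢ {i < io τ} ×ˢ Iv 0 (lev τ)` (`τ` elements); `hv j` enumerates `Iv j kk` (first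
part zero); base sites enumerate `(univ.erase 0) ×ˢ univ ×ˢ Iv 0 j` for small `τ` and
`{0} ×ˢ Cd (io τ) ×ˢ Iv (lev τ) j` otherwise, `mb` is the cardinality. -/

set_option autoImplicit false

namespace Pool.Agent.Work.MP_ede3c6_co.W

open Finset Vol

theorem InnEx_en (α : Type) [Nonempty α] : ∃ en : Finset α → ℕ → α, ∀ s : Finset α,
    (∀ i < s.card, en s i ∈ s) ∧ ∀ i < s.card, ∀ j < s.card, en s i = en s j → i = j :=
  ⟨fun s i => if h : i < s.card then s.equivFin.symm ⟨i, h⟩ else Classical.arbitrary α, fun s =>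
    ⟨fun i h => by simp only [dif_pos h]; exact coe_mem _, fun i h j h' e => by
      simpa [dif_pos h, dif_pos h'] using e⟩⟩

/-- vectors supported on the bits in `[i, j)` -/
def InnEx_Iv (kk i j : ℕ) : Finset (V (Fin kk)) :=
  Fintype.piFinset fun b => if i ≤ (b : ℕ) ∧ (b : ℕ) < j then univ else {0}

theorem InnEx_mem {kk i j : ℕ} {x : V (Fin kk)} (h : x ∈ InnEx_Iv kk i j) (b : Fin kk)
    (hb : (b : ℕ) < i ∨ j ≤ b) : x b = 0 := by
  have := Fintype.mem_piFinset.1 h b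
  rwa [if_neg (by omega), mem_singleton] at this

theorem InnEx_card {kk i j : ℕ} (h : j ≤ kk) : (InnEx_Iv kk i j).card = 2 ^ (j - i) := by
  rw [InnEx_Iv, Fintype.card_piFinset]
  simp only [apply_ite card, card_univ, ZMod.card, card_singleton]
  rw [Fin.prod_univ_eq_prod_range (fun b => if i ≤ b ∧ b < j then 2 else 1), prod_ite,
    prod_const_one, mul_one, prod_const, ← Nat.card_Ico]
  refine congrArg (fun s : Finset ℕ => 2 ^ s.card) ?_
  ext b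
  simp only [mem_filter, mem_range, mem_Ico]
  omega

theorem InnEx_fin {ε η q M a τ ι c x y z : ℝ} (e0 : 0 ≤ ε) (e1 : ε ≤ 1) (e2 : 3 * ε ≤ η)
    (hq : 0 ≤ q) (ha : 0 ≤ a) (hc : 0 ≤ c) (hx : 0 ≤ x) (hy : 0 ≤ y) (hz : 0 ≤ z)
    (k1 : M ≤ (1 + ε) * ι * c) (k2 : τ = q * ι * x) (k3 : τ ≤ (1 + ε) * a) :
    q * (M * (x * (y * z))) ≤ (1 + η) * a * (c * y * z) :=
  calc _ ≤ q * ((1 + ε) * ι * c * (x * (y * z))) := by gcongr
    _ = (1 + ε) * τ * (c * y * z) := by rw [k2]; ring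
    _ ≤ (1 + ε) * ((1 + ε) * a) * (c * y * z) := by gcongr
    _ ≤ _ := by
      rw [← mul_assoc (1 + ε)]
      gcongr ?_ * _ * _
      nlinarith

theorem InnEx_num (q mu kk : ℕ) (hq : 1 ≤ q) (hm : 1 ≤ mu) :
    ∃ (TS : Finset ℕ) (rd lev io : ℕ → ℕ), TS.card ≤ q * mu + mu * (kk + 1) ∧
      (∀ a, a ≤ q * mu * 2 ^ kk → rd a ∈ TS ∧ a ≤ rd a ∧ (a < q * mu → rd a = a) ∧
        mu * rd a ≤ (mu + 2) * a) ∧
      ∀ τ ∈ TS, lev τ ≤ kk ∧ (τ < q * mu → lev τ = 0) ∧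
        (q * mu ≤ τ → τ = q * io τ * 2 ^ lev τ ∧ io τ ≤ mu ∧ mu ≤ 2 * io τ) := by
  let TS := range (q * mu) ∪ ((((Icc 1 mu).filter fun ι => mu ≤ 2 * ι) ×ˢ range (kk + 1)).image
    fun p => q * p.1 * 2 ^ p.2)
  have h1 : ∀ a, a ≤ q * mu * 2 ^ kk → ∃ τ, τ ∈ TS ∧ a ≤ τ ∧ (a < q * mu → τ = a) ∧
      mu * τ ≤ (mu + 2) * a := fun a ha => by
    rcases lt_or_ge a (q * mu) with h | h
    · exact ⟨a, mem_union_left _ (mem_range.2 h), le_rfl, fun _ => rfl,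
        Nat.mul_le_mul_right _ (by omega)⟩
    have ex : ∃ l, a ≤ q * mu * 2 ^ l := ⟨kk, ha⟩
    have l1 := Nat.find_spec ex
    have l2 := Nat.find_min' ex ha
    have l3 : q * mu * 2 ^ Nat.find ex ≤ 2 * a := by
      rcases e : Nat.find ex with _ | l
      · omega
      · have := Nat.find_min ex (show l < _ by omega)
        rw [pow_succ, ← mul_assoc]
        omega
    generalize Nat.find ex = l at l1 l2 l3
    have w0 : 0 < q * 2 ^ l := by positivity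
    have i1 := Nat.div_mul_le_self (a + q * 2 ^ l - 1) (q * 2 ^ l)
    have i2 := Nat.lt_div_mul_add (a := a + q * 2 ^ l - 1) w0
    generalize (a + q * 2 ^ l - 1) / (q * 2 ^ l) = ι at i1 i2
    have e : q * ι * 2 ^ l = ι * (q * 2 ^ l) := by ring
    rw [show q * mu * 2 ^ l = mu * (q * 2 ^ l) by ring] at l1 l3
    have i3 : ι < mu + 1 := lt_of_mul_lt_mul_right (by rw [add_mul]; omega) w0.le
    have i4 : mu ≤ 2 * ι := le_of_mul_le_mul_right (by rw [mul_assoc]; omega) w0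
    refine ⟨q * ι * 2 ^ l, mem_union_right _ (mem_image.2 ⟨(ι, l), mem_product.2
      ⟨mem_filter.2 ⟨mem_Icc.2 (by omega), i4⟩, mem_range.2 (by omega)⟩, rfl⟩), by omega,
      fun c => by omega, ?_⟩
    have := Nat.mul_le_mul_left mu (show q * ι * 2 ^ l ≤ a + q * 2 ^ l by omega)
    rw [mul_add] at this
    rw [add_mul]
    omega
  have h2 : ∀ τ ∈ TS, ∃ l ι, l ≤ kk ∧ (τ < q * mu → l = 0) ∧
      (q * mu ≤ τ → τ = q * ι * 2 ^ l ∧ ι ≤ mu ∧ mu ≤ 2 * ι) := fun τ h => by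
    rcases lt_or_ge τ (q * mu) with c | c
    · exact ⟨0, 0, by omega, fun _ => rfl, fun _ => by omega⟩
    obtain ⟨p, hp, rfl⟩ := mem_image.1 ((mem_union.1 h).resolve_left (by simpa using c))
    simp only [mem_product, mem_filter, mem_Icc, mem_range] at hp
    exact ⟨p.2, p.1, by omega, fun _ => by omega, fun _ => ⟨rfl, hp.1.1.2, hp.1.2⟩⟩
  choose! rd h1 using h1
  choose! lev io h2 using h2
  refine ⟨TS, rd, lev, io, (card_union_le _ _).trans (add_le_add (card_range _).le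
    (card_image_le.trans ?_)), h1, h2⟩
  rw [card_product, card_range]
  exact Nat.mul_le_mul_right _ ((card_filter_le _ _).trans (by simp))

theorem inn_ex (η : ℝ) (hη : 0 < η) : ∃ m0 : ℕ, ∀ t mu kk : ℕ, 1 ≤ t → m0 ≤ mu →
    Nonempty (Inn t mu kk η) := by
  obtain ⟨ε, e0, e1, e2⟩ : ∃ ε : ℝ, 0 < ε ∧ ε ≤ 1 ∧ 3 * ε ≤ η :=
    ⟨min 1 (η / 3), by positivity, min_le_left _ _, by linarith [min_le_right 1 (η / 3)]⟩
  obtain ⟨m0, hk⟩ := kp ε e0
  refine ⟨2 * m0 + ⌈2 / ε⌉₊ + 1, fun t mu kk ht hm => ?_⟩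
  choose! Cd c1 c2 using fun ι => hk ι mu
  have hq : 1 ≤ 2 ^ t - 1 := by have := Nat.pow_le_pow_right two_pos ht; omega
  obtain ⟨TS, rd, lev, io, n1, n2, n3⟩ := InnEx_num (2 ^ t - 1) mu kk hq (by omega)
  have : Nonempty (Fin mu) := ⟨⟨0, by omega⟩⟩
  obtain ⟨f1, g1⟩ := InnEx_en (V (Fin t) × Fin mu × V (Fin kk))
  obtain ⟨f2, g2⟩ := InnEx_en (V (Fin t) × V (Fin mu) × V (Fin kk))
  obtain ⟨f3, g3⟩ := InnEx_en (V (Fin kk))
  have cq : (univ.erase (0 : V (Fin t))).card = 2 ^ t - 1 := by simp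
  have big : ∀ τ ∈ TS, aS t mu ≤ τ → m0 ≤ io τ ∧ io τ ≤ mu := fun τ h h' => by
    have := (n3 τ h).2.2 h'
    omega
  obtain ⟨Lf, cL, mL⟩ : ∃ Lf : ℕ → Finset (V (Fin t) × Fin mu × V (Fin kk)),
      (∀ τ ∈ TS, aS t mu ≤ τ → (Lf τ).card = τ) ∧ ∀ τ, ∀ x ∈ Lf τ, x.1 ≠ 0 ∧ (x.2.1 : ℕ) < io τ ∧
        ∀ b : Fin kk, lev τ ≤ b → x.2.2 b = 0 := by
    refine ⟨fun τ => (univ.erase (0 : V (Fin t))) ×ˢ (univ.filter fun i : Fin mu => i < io τ) ×ˢ
      InnEx_Iv kk 0 (lev τ), fun τ h h' => ?_, fun τ x h => ?_⟩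
    · obtain ⟨b1, b2, -⟩ := (n3 τ h).2.2 h'
      rw [card_product, card_product, cq, Fin.card_filter_val_lt, min_eq_right b2,
        InnEx_card (n3 τ h).1, Nat.sub_zero, ← mul_assoc, ← b1]
    · simp only [mem_product, mem_erase, mem_filter] at h
      exact ⟨h.1.1, h.2.1.2, fun b hb => InnEx_mem h.2.2 b (Or.inr hb)⟩
  obtain ⟨Bs, b1, b2, b3⟩ : ∃ Bs : ℕ → ℕ → Finset (V (Fin t) × V (Fin mu) × V (Fin kk)),
      (∀ τ j, j ≤ kk → τ < aS t mu → (Bs τ j).card = (2 ^ t - 1) * (2 ^ mu * 2 ^ j)) ∧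
      (∀ τ j, j ≤ kk → aS t mu ≤ τ → (Bs τ j).card = (Cd (io τ)).card * 2 ^ (j - lev τ)) ∧
      ∀ τ j, ∀ x ∈ Bs τ j, (τ < aS t mu → x.1 ≠ 0) ∧ (aS t mu ≤ τ → x.1 = 0 ∧ x.2.1 ∈ Cd (io τ) ∧
        ∀ b : Fin kk, b < lev τ → x.2.2 b = 0) ∧ ∀ b : Fin kk, j ≤ b → x.2.2 b = 0 := by
    refine ⟨fun τ j => if τ < aS t mu then (univ.erase 0) ×ˢ univ ×ˢ InnEx_Iv kk 0 j
      else {0} ×ˢ Cd (io τ) ×ˢ InnEx_Iv kk (lev τ) j, fun τ j h c => ?_, fun τ j h c => ?_,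
      fun τ j x h => ?_⟩
    · simp [c, InnEx_card h]
    · simp [c.not_gt, InnEx_card h]
    · by_cases c : τ < aS t mu <;>
        simp only [c, if_true, if_false, mem_product, mem_erase, mem_singleton] at h
      · exact ⟨fun _ => h.1.1, fun c' => absurd c c'.not_gt,
          fun b hb => InnEx_mem h.2.2 b (Or.inr hb)⟩
      · exact ⟨fun c' => absurd c' c, fun _ => ⟨h.1, h.2.1, fun b hb => InnEx_mem h.2.2 b (Or.inl hb)⟩,
          fun b hb => InnEx_mem h.2.2 b (Or.inr hb)⟩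
  have hv : ∀ j, ∀ β < 2 ^ (kk - j), ∀ b : Fin kk, b < j → f3 (InnEx_Iv kk j kk) β b = 0 :=
    fun j β h b hb => InnEx_mem ((g3 _).1 β (h.trans_eq (InnEx_card le_rfl).symm)) b (Or.inl hb)
  have ef : ∀ τ < aS t mu, ∀ j ≤ kk, bin t mu kk = (Bs τ j).card * 2 ^ (kk - j) := fun τ h j hj => by
    rw [b1 τ j hj h, mul_assoc, mul_assoc, ← pow_add, Nat.add_sub_cancel' hj, ← pow_add, bin]
  refine ⟨⟨TS, rd, fun τ => {z | (fun i => z (.inl i)) ∈ Cd (io τ) ∧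
      ∀ b : Fin kk, b < lev τ → z (.inr b) = 0},
    univ.image fun p : Fin mu × V (Fin kk) => Sum.elim (e p.1) p.2, fun τ l => (f1 (Lf τ) l).1,
    fun τ l => Sum.elim (e (f1 (Lf τ) l).2.1) (f1 (Lf τ) l).2.2, lev, fun τ j => (Bs τ j).card,
    fun τ j f => (f2 (Bs τ j) f).1, fun τ j f => Sum.elim (f2 (Bs τ j) f).2.1 (f2 (Bs τ j) f).2.2,
    fun j β => Sum.elim 0 (f3 (InnEx_Iv kk j kk) β), n1, fun a h => (n2 a h).1,
    fun a h => (n2 a h).2.1, card_image_le.trans (by simp), fun τ h c l hl =>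
      ⟨(mL τ _ ((g1 _).1 l (hl.trans_eq (cL τ h c).symm))).1, mem_image.2 ⟨_, mem_univ _, rfl⟩⟩,
    fun τ h c l hl l' hl' z hz z' hz' u1 u2 => ?_, fun τ h => (n3 τ h).1,
    fun τ h j j1 j2 f hf => ?_, fun τ h j j1 j2 f hf f' hf' β hβ β' hβ' u1 u2 => ?_,
    fun τ h j j1 j2 => ?_, fun τ h => ?_, fun τ h c j _ j2 => (ef τ c j j2).le,
    fun a h j j1 j2 => ?_⟩⟩
  · rw [← cL τ h c] at hl hl'
    obtain ⟨-, x2, x3⟩ := mL τ _ ((g1 _).1 l hl)
    obtain ⟨-, y2, y3⟩ := mL τ _ ((g1 _).1 l' hl')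
    refine (g1 _).2 l hl l' hl' (Prod.ext u1 (Prod.ext (c2 _ (big τ h c).1 (big τ h c).2 _ hz.1 _
      hz'.1 _ _ x2 y2 (funext fun i => congrFun u2 (.inl i))) (funext fun b => ?_)))
    rcases lt_or_ge (b : ℕ) (lev τ) with k | k
    · simpa [hz.2 b k, hz'.2 b k] using congrFun u2 (.inr b)
    · rw [x3 b k, y3 b k]
  · obtain ⟨x1, x2, -⟩ := b3 τ j _ ((g2 _).1 f hf)
    refine ⟨x1, fun c => ⟨(x2 c).1, fun β hβ => ⟨by simpa using (x2 c).2.1, fun b hb => ?_⟩⟩⟩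
    simp [(x2 c).2.2 b hb, hv j β hβ b (hb.trans_le j1)]
  · have x := (b3 τ j _ ((g2 _).1 f hf)).2.2
    have y := (b3 τ j _ ((g2 _).1 f' hf')).2.2
    have k : (f2 (Bs τ j) f).2.2 = (f2 (Bs τ j) f').2.2 := funext fun b => by
      rcases lt_or_ge (b : ℕ) j with k | k
      · simpa [hv j β hβ b k, hv j β' hβ' b k] using congrFun u2 (.inr b)
      · rw [x b k, y b k]
    refine ⟨(g2 _).2 f hf f' hf' (Prod.ext u1 (Prod.ext (funext fun i => ?_) k)),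
      (g3 _).2 β (hβ.trans_eq (InnEx_card le_rfl).symm) β' (hβ'.trans_eq (InnEx_card le_rfl).symm)
        (funext fun b => ?_)⟩
    · simpa using congrFun u2 (.inl i)
    · simpa [k] using congrFun u2 (.inr b)
  · rcases lt_or_ge τ (aS t mu) with c | c
    · rw [b1 τ j j2 c]
      exact mul_pos hq (mul_pos (Nat.two_pow_pos _) (Nat.two_pow_pos _))
    · rw [b2 τ j j2 c]
      refine mul_pos (Nat.pos_of_ne_zero fun k => ?_) (Nat.two_pow_pos _)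
      have := c1 _ (big τ h c).1 (big τ h c).2
      rw [k, Nat.cast_zero, mul_zero] at this
      exact absurd this (pow_pos two_pos _).not_ge
  · rw [pow_add]
    rcases lt_or_ge τ (aS t mu) with c | c
    · rw [b1 τ _ (n3 τ h).1 c, (n3 τ h).2.1 c, pow_zero, mul_one]
      exact Nat.mul_le_mul_right _ (Nat.sub_le _ _)
    · rw [b2 τ _ (n3 τ h).1 c, Nat.sub_self, pow_zero, mul_one]
      exact ((card_le_univ _).trans (by simp)).trans (Nat.le_mul_of_pos_left _ (Nat.two_pow_pos _))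
  obtain ⟨r1, r2, r3, r4⟩ := n2 a h
  rcases lt_or_ge a (aS t mu) with c | c
  · rw [r3 c, oth, if_pos c, ef a c j j2]
    rw [Nat.cast_mul, Nat.cast_pow, Nat.cast_ofNat]
    exact mul_le_mul_of_nonneg_right (le_mul_of_one_le_left a.cast_nonneg (le_add_of_nonneg_right
      hη.le)) (mul_nonneg (Nat.cast_nonneg _) (pow_nonneg zero_le_two _))
  have c' := c.trans r2
  have k1 := c1 _ (big _ r1 c').1 (big _ r1 c').2
  have k2 : (rd a : ℝ) = (2 ^ t - 1 : ℕ) * io (rd a) * 2 ^ lev (rd a) := by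
    exact_mod_cast ((n3 _ r1).2.2 c').1
  have m0' : (0 : ℝ) < mu := by exact_mod_cast (show 0 < mu by omega)
  have k3 : (rd a : ℝ) ≤ (1 + ε) * a := by
    have a1 : (mu : ℝ) * rd a ≤ (mu + 2) * a := by exact_mod_cast r4
    have a2 : 2 / ε ≤ mu := (Nat.le_ceil _).trans (by exact_mod_cast (show _ ≤ mu by omega))
    rw [div_le_iff₀ e0] at a2
    refine le_of_mul_le_mul_left (a1.trans ?_) m0'
    linarith [mul_le_mul_of_nonneg_right a2 a.cast_nonneg]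
  have k4 : (2 : ℝ) ^ kk = 2 ^ lev (rd a) * (2 ^ (j - lev (rd a)) * 2 ^ (kk - j)) := by
    rw [← pow_add, ← pow_add]
    congr 1
    omega
  rw [oth, if_neg c'.not_gt, b2 _ j j2 c', bin, Nat.cast_mul, Nat.cast_mul, Nat.cast_one, one_mul,
    Nat.cast_pow, Nat.cast_pow, Nat.cast_ofNat, pow_add, k4]
  exact InnEx_fin e0.le e1 e2 (Nat.cast_nonneg _) a.cast_nonneg (Nat.cast_nonneg _)
    (pow_nonneg zero_le_two _) (pow_nonneg zero_le_two _) (pow_nonneg zero_le_two _) k1 k2 k3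

end Pool.Agent.Work.MP_ede3c6_co.W
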