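import Pool.Agent.Work.MP_ede3c6_co.W.Base

/-! Asymptotically perfect one-error codes for every large length.

PLAN. Say `Col ι w` if there is a map `κ` from `V ι` to a type with at most `w` elements with
`κ (x + e i) = κ (x + e j) → i = j`.
(1) Base: let `F` be a finite field with `q` elements (`GaloisField 3 α`), `2 ^ s ≤ q`, `g` an
injection `V (Fin s) → F`. Coordinates `(v, p)`, `v : Fin r → F`, `p : V (Fin s)`, `p ≠ 0`;
`σ v x = ∑ p, x (v, p) • p`; colour `(∑ v, g (σ v x), ∑ v, g (σ v x) • v)` in `F × (Fin r → F)`.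
Flipping `(v, p)` adds `d • (1, v)` with `d = g (σ v x + p) - g (σ v x) ≠ 0`, which determines
`d`, `v`, `p`. Length `q ^ r (2 ^ s - 1)`, `q ^ (r + 1)` colours.
(2) Doubling: `κ' x = (κ (x ∘ inl + x ∘ inr), par (x ∘ inr))` on `ι ⊕ ι`, twice as many colours.
(3) Restriction along an injection `ι' → ι` (extend by zero) and pull back to `Fin mu` (use only
the first `ι` coordinates).
(4) For `δ > 0` there are `α, s` with `2 ^ s < 3 ^ α ≤ (1 + δ) 2 ^ s` (pigeonhole on the numbers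
`3 ^ α / 2 ^ (log 2 (3 ^ α))` in `[1, 2)`; if the quotient `γ` of two close ones is below 1, take
the last power with `γ ^ M > 1 / 2`, then `1 < 2 γ ^ M ≤ 1 / γ`; or use density of the group
generated by `log 2`, `log 3`). Then `1 / 2 ^ s ≤ δ`. With `θ = q / 2 ^ s`, `1 < θ ≤ 1 + δ`, fix
`r0` with `θ ^ r0 ≥ 2`; for `m ≥ q ^ r0 2 ^ s` there are `r ≤ r0`, `j` with
`m ≤ q ^ r (2 ^ s - 1) 2 ^ j ≤ (1 + δ) m` (take `J` with `(2 ^ s - 1) 2 ^ J < m ≤ (2 ^ s - 1)
2 ^ (J + 1)`, the least `r` with `m ≤ θ ^ r (2 ^ s - 1) 2 ^ J`, `j = J - s r`).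
(5) The largest colour class (pigeonhole) is the code. -/

set_option autoImplicit false

namespace Pool.Agent.Work.MP_ede3c6_co.W

open Finset Vol

/-- colourings which separate the neighbours of every vertex -/
def KP_Col (n w : ℕ) : Prop :=
  ∃ (ι K : Type) (_ : Fintype ι) (_ : DecidableEq ι) (_ : Fintype K) (κ : V ι → K),
    Fintype.card ι = n ∧ Fintype.card K = w ∧
      ∀ (x : V ι) (i j : ι), κ (x + e i) = κ (x + e j) → i = j

theorem KP_base (F : Type) [Field F] [Fintype F] (s r : ℕ) (h : 2 ^ s ≤ Fintype.card F) :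
    KP_Col (Fintype.card F ^ r * (2 ^ s - 1)) (Fintype.card F ^ (r + 1)) := by
  classical
  obtain ⟨g⟩ : Nonempty (V (Fin s) ↪ F) :=
    Function.Embedding.nonempty_of_card_le (by simpa using h)
  let σ : (Fin r → F) → V ((Fin r → F) × {p : V (Fin s) // p ≠ 0}) → V (Fin s) :=
    fun v x => ∑ p, x (v, p) • p.1
  have hσ : ∀ v x u p, σ v (x + e (u, p)) = σ v x + if v = u then p.1 else 0 := by
    intro v x u p
    simp only [σ, Pi.add_apply, add_smul, sum_add_distrib, e_apply, Prod.mk.injEq]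
    congr 1
    split_ifs with k
    · simp [k]
    · simp [k]
  let κ : V ((Fin r → F) × {p : V (Fin s) // p ≠ 0}) → F × (Fin r → F) :=
    fun x => ∑ v, (g (σ v x), g (σ v x) • v)
  have hκ : ∀ x u p, κ (x + e (u, p)) =
      κ x + (g (σ u x + p.1) - g (σ u x), (g (σ u x + p.1) - g (σ u x)) • u) := by
    intro x u p
    simp only [κ, hσ]
    rw [← add_sum_erase _ _ (mem_univ u), ← add_sum_erase _ _ (mem_univ u),
      sum_congr rfl fun v hv => by rw [if_neg (ne_of_mem_erase hv), add_zero], if_pos rfl]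
    ext <;> simp <;> ring
  refine ⟨_, _, inferInstance, inferInstance, inferInstance, κ, ?_, ?_, ?_⟩
  · simp [Fintype.card_subtype_compl]
  · simp [pow_succ, mul_comm]
  · rintro x ⟨u, p⟩ ⟨u', p'⟩ k
    rw [hκ, hκ, add_right_inj, Prod.mk.injEq] at k
    obtain ⟨k1, k2⟩ := k
    have d : g (σ u x + p.1) - g (σ u x) ≠ 0 := fun q =>
      p.2 (add_eq_left.1 (g.injective (sub_eq_zero.1 q)))
    rw [← k1] at k2
    obtain rfl : u = u' := smul_right_injective _ d k2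
    rw [Subtype.ext (add_left_cancel (g.injective (sub_left_injective k1)))]

theorem KP_dbl {n w : ℕ} (h : KP_Col n w) : KP_Col (n * 2) (w * 2) := by
  obtain ⟨ι, K, _, _, _, κ, h1, h2, h3⟩ := h
  let κ' : V (ι ⊕ ι) → K × ZMod 2 :=
    fun x => (κ (x ∘ Sum.inl + x ∘ Sum.inr), par (x ∘ Sum.inr))
  have a : ∀ x c, κ' (x + e (Sum.inl c)) =
      (κ (x ∘ Sum.inl + x ∘ Sum.inr + e c), par (x ∘ Sum.inr)) := by
    intro x c
    have a1 : (x + e (Sum.inl c) : V (ι ⊕ ι)) ∘ Sum.inl = x ∘ Sum.inl + e c := by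
      funext i; simp [e_apply]
    have a2 : (x + e (Sum.inl c) : V (ι ⊕ ι)) ∘ Sum.inr = x ∘ Sum.inr := by
      funext i; simp [e_apply]
    simp only [κ', a1, a2, add_right_comm]
  have b : ∀ x c, κ' (x + e (Sum.inr c)) =
      (κ (x ∘ Sum.inl + x ∘ Sum.inr + e c), par (x ∘ Sum.inr) + 1) := by
    intro x c
    have a1 : (x + e (Sum.inr c) : V (ι ⊕ ι)) ∘ Sum.inl = x ∘ Sum.inl := by
      funext i; simp [e_apply]
    have a2 : (x + e (Sum.inr c) : V (ι ⊕ ι)) ∘ Sum.inr = x ∘ Sum.inr + e c := by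
      funext i; simp [e_apply]
    simp only [κ', a1, a2, add_assoc, par_add, par_e]
  refine ⟨_, _, inferInstance, inferInstance, inferInstance, κ', ?_, ?_, ?_⟩
  · simp [h1, mul_two]
  · simp [h2]
  · rintro x (i | i) (j | j) k <;> simp only [a, b, Prod.mk.injEq] at k
    · rw [h3 _ _ _ k.1]
    · simp at k
    · simp at k
    · rw [h3 _ _ _ k.1]

theorem KP_pow {n w : ℕ} (h : KP_Col n w) (j : ℕ) : KP_Col (n * 2 ^ j) (w * 2 ^ j) := by
  induction j with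
  | zero => simpa using h
  | succ j ih => simpa only [pow_succ, mul_assoc] using KP_dbl ih

theorem KP_code {n w m mu : ℕ} (h : KP_Col n w) (hm : m ≤ n) :
    ∃ C : Finset (V (Fin mu)), (2 : ℝ) ^ mu ≤ w * C.card ∧
      ∀ x ∈ C, ∀ x' ∈ C, ∀ i j : Fin mu, (i : ℕ) < m → (j : ℕ) < m → x + e i = x' + e j →
        i = j := by
  classical
  obtain ⟨ι, K, _, _, _, κ, h1, h2, h3⟩ := h
  obtain ⟨f⟩ : Nonempty (Fin m ↪ ι) :=
    Function.Embedding.nonempty_of_card_le (by simpa [h1] using hm)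
  let u : Fin mu → V ι := fun i => if k : (i : ℕ) < m then e (f ⟨i, k⟩) else 0
  let φ : V (Fin mu) → V ι := fun x => ∑ i, x i • u i
  have hφ : ∀ x (i : Fin mu) (k : (i : ℕ) < m), φ (x + e i) = φ x + e (f ⟨i, k⟩) := by
    intro x i k
    simp only [φ, Pi.add_apply, add_smul, sum_add_distrib, e_apply]
    congr 1
    simp only [ite_smul, one_smul, zero_smul, sum_ite_eq', mem_univ, if_true]
    exact dif_pos k
  have : Nonempty K := ⟨κ 0⟩
  have w0 : (0 : ℝ) < w := by exact_mod_cast h2 ▸ Fintype.card_pos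
  obtain ⟨y, hy⟩ := Fintype.exists_le_card_fiber_of_nsmul_le_card (fun x => κ (φ x))
    (b := (2 : ℝ) ^ mu / w) (by
      rw [h2, nsmul_eq_mul, mul_div_cancel₀ _ w0.ne']
      simp)
  refine ⟨_, by rwa [div_le_iff₀' w0] at hy, fun x hx x' hx' i j hi hj k => ?_⟩
  have e1 : x = x + e i + e i := by rw [add_assoc, vv, add_zero]
  have e2 : x' = x + e i + e j := by rw [k, add_assoc, vv, add_zero]
  have q := (mem_filter.1 hx).2.trans (mem_filter.1 hx').2.symm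
  rw [e2, hφ _ j hj] at q
  nth_rewrite 1 [e1] at q
  rw [hφ _ i hi] at q
  exact Fin.ext (Fin.mk.inj (f.injective (h3 _ _ _ q)))

theorem KP_irr : Irrational (Real.log 3 / Real.log 2) := by
  have l2 : 0 < Real.log 2 := Real.log_pos (by norm_num)
  have l3 : 0 < Real.log 3 := Real.log_pos (by norm_num)
  rintro ⟨r, hr⟩
  have r0 : (0 : ℝ) < r := hr ▸ div_pos l3 l2
  have n0 : 0 < r.num := Rat.num_pos.2 (by exact_mod_cast r0)
  obtain ⟨a, ha⟩ := Int.eq_ofNat_of_zero_le n0.le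
  have d0 : (0 : ℝ) < r.den := by exact_mod_cast r.den_pos
  rw [Rat.cast_def, ha, div_eq_div_iff d0.ne' l2.ne', Int.cast_natCast, mul_comm (Real.log 3),
    ← Real.log_pow, ← Real.log_pow] at hr
  have k := Real.log_injOn_pos (by simp) (by simp) hr
  have k' : 2 ^ a = 3 ^ r.den := by exact_mod_cast k
  have o : Odd (2 ^ a) := k' ▸ Odd.pow (by decide)
  have a0 : a ≠ 0 := by omega
  exact Nat.not_odd_iff_even.2 ((Nat.even_pow.2 ⟨by decide, a0⟩)) o

theorem KP_near {δ : ℝ} (h0 : 0 < δ) (h1 : δ ≤ 1) :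
    ∃ α s : ℕ, 2 ^ s < 3 ^ α ∧ (3 : ℝ) ^ α ≤ (1 + δ) * 2 ^ s := by
  have l2 : 0 < Real.log 2 := Real.log_pos (by norm_num)
  have l3 : 0 < Real.log 3 := Real.log_pos (by norm_num)
  have : Fact (0 < Real.log 2) := ⟨l2⟩
  have d := AddCircle.denseRange_zsmul_coe_iff.2 KP_irr
  have d' : DenseRange (· • ((Real.log 3 : ℝ) : AddCircle (Real.log 2)) : ℕ → _) :=
    denseRange_zsmul_iff_nsmul.1 (by simpa using d)
  have ld : 0 < Real.log (1 + δ) := Real.log_pos (by linarith)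
  have ld' : Real.log (1 + δ) ≤ Real.log 2 := Real.log_le_log (by linarith) (by linarith)
  obtain ⟨α, y, hy, k⟩ := d'.exists_mem_open
    (QuotientAddGroup.isOpenMap_coe _ (isOpen_Ioo (a := 0) (b := Real.log (1 + δ))))
    (Set.Nonempty.image _ (Set.nonempty_Ioo.2 ld))
  have k' : ((y : ℝ) : AddCircle (Real.log 2)) = ((α • Real.log 3 : ℝ) : AddCircle _) := by
    simpa using k
  obtain ⟨z, hz⟩ := AddSubgroup.mem_zmultiples_iff.1 (QuotientAddGroup.eq.1 k')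
  rw [zsmul_eq_mul, nsmul_eq_mul] at hz
  have z0 : -1 < z := by
    have : (-1 : ℝ) * Real.log 2 < z * Real.log 2 := by
      have := mul_nonneg (Nat.cast_nonneg (α := ℝ) α) l3.le
      linarith [hy.2]
    exact_mod_cast lt_of_mul_lt_mul_right this l2.le
  obtain ⟨s, rfl⟩ := Int.eq_ofNat_of_zero_le (show 0 ≤ z by omega)
  rw [Int.cast_natCast, ← Real.log_pow, ← Real.log_pow] at hz
  refine ⟨α, s, ?_, ?_⟩
  · have : (2 : ℝ) ^ s < 3 ^ α :=
      (Real.log_lt_log_iff (by positivity) (by positivity)).1 (by linarith [hy.1])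
    exact_mod_cast this
  · refine (Real.log_le_log_iff (by positivity) (by positivity)).1 ?_
    rw [Real.log_mul (by positivity) (by positivity)]
    linarith [hy.2]

theorem KP_len {q s D : ℕ} (h : 2 ^ s < q) (hD : 0 < D) : ∃ m0 : ℕ, ∀ m, m0 ≤ m →
    ∃ r j, m ≤ q ^ r * D * 2 ^ j ∧ q ^ r * D * 2 ^ j * 2 ^ s ≤ q * m := by
  classical
  have T0 : (0 : ℝ) < 2 ^ s := by positivity
  obtain ⟨r0, h0⟩ := pow_unbounded_of_one_lt (2 : ℝ)
    (show (1 : ℝ) < q / 2 ^ s from (one_lt_div T0).2 (by exact_mod_cast h))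
  rw [div_pow, lt_div_iff₀ (by positivity)] at h0
  have h0' : 2 * (2 ^ s) ^ r0 < q ^ r0 := by exact_mod_cast h0
  refine ⟨D * 2 ^ (s * r0) + 1, fun m hm => ?_⟩
  have ex : ∃ J, m ≤ D * 2 ^ J :=
    ⟨m, (Nat.lt_two_pow_self).le.trans (Nat.le_mul_of_pos_left _ hD)⟩
  have J1 := Nat.find_spec ex
  have J0 : s * r0 < Nat.find ex := by
    by_contra k
    have := Nat.mul_le_mul_left D (Nat.pow_le_pow_right (show 0 < 2 by decide) (not_lt.1 k))
    omega
  obtain ⟨J, hJ⟩ : ∃ J, Nat.find ex = J + 1 := ⟨Nat.find ex - 1, by omega⟩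
  have J2 : D * 2 ^ J < m := not_le.1 (Nat.find_min ex (by omega))
  rw [hJ] at J1 J0
  have r1 : m * (2 ^ s) ^ r0 ≤ q ^ r0 * D * 2 ^ J := by
    calc m * (2 ^ s) ^ r0 ≤ D * 2 ^ (J + 1) * (2 ^ s) ^ r0 := Nat.mul_le_mul_right _ J1
      _ = 2 * (2 ^ s) ^ r0 * (D * 2 ^ J) := by ring
      _ ≤ q ^ r0 * (D * 2 ^ J) := Nat.mul_le_mul_right _ h0'.le
      _ = _ := by ring
  have ex' : ∃ r, m * (2 ^ s) ^ r ≤ q ^ r * D * 2 ^ J := ⟨r0, r1⟩
  have r2 := Nat.find_spec ex'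
  have r3 : Nat.find ex' ≤ r0 := Nat.find_min' ex' r1
  have r4 : Nat.find ex' ≠ 0 := fun k => by
    rw [k] at r2
    simp at r2
    omega
  obtain ⟨r, hr⟩ : ∃ r, Nat.find ex' = r + 1 := ⟨Nat.find ex' - 1, by omega⟩
  have r5 : q ^ r * D * 2 ^ J < m * (2 ^ s) ^ r := not_le.1 (Nat.find_min ex' (by omega))
  rw [hr] at r2 r3
  obtain ⟨j, rfl⟩ : ∃ j, J = j + s * (r + 1) :=
    ⟨J - s * (r + 1), by have := Nat.mul_le_mul_left s r3; omega⟩
  rw [pow_add 2 j, pow_mul, ← mul_assoc] at r2 r5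
  refine ⟨r + 1, j, Nat.le_of_mul_le_mul_right r2 (by positivity), ?_⟩
  have r6 : q ^ r * D * 2 ^ j * 2 ^ s ≤ m := by
    refine Nat.le_of_mul_le_mul_right (le_of_eq_of_le ?_ r5.le) (show 0 < (2 ^ s) ^ r by positivity)
    ring
  calc _ = q * (q ^ r * D * 2 ^ j * 2 ^ s) := by ring
    _ ≤ _ := Nat.mul_le_mul_left _ r6

theorem kp (η : ℝ) (hη : 0 < η) : ∃ m0 : ℕ, ∀ ι mu : ℕ, m0 ≤ ι → ι ≤ mu →
    ∃ C : Finset (V (Fin mu)), (2 : ℝ) ^ mu ≤ (1 + η) * ι * C.card ∧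
      ∀ x ∈ C, ∀ x' ∈ C, ∀ i j : Fin mu, (i : ℕ) < ι → (j : ℕ) < ι → x + e i = x' + e j →
        i = j := by
  obtain ⟨δ, d0, d1, d2⟩ : ∃ δ : ℝ, 0 < δ ∧ δ ≤ 1 / 5 ∧ 4 * δ ≤ η :=
    ⟨min (1 / 5) (η / 4), by positivity, min_le_left _ _, by linarith [min_le_right (1 / 5) (η / 4)]⟩
  obtain ⟨α, s, h1, h2⟩ := KP_near d0 (by linarith)
  have T0 : (0 : ℝ) < 2 ^ s := by positivity
  have h1' : (2 : ℝ) ^ s + 1 ≤ 3 ^ α := by exact_mod_cast h1
  have h3 : 1 ≤ δ * 2 ^ s := by linarith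
  have s1 : 1 < 2 ^ s := by
    have : (1 : ℝ) < 2 ^ s := by nlinarith
    exact_mod_cast this
  have a0 : α ≠ 0 := by
    rintro rfl
    omega
  obtain ⟨m0, hm⟩ := KP_len (D := 2 ^ s - 1) h1 (by omega)
  refine ⟨m0, fun m mu m1 _ => ?_⟩
  obtain ⟨r, j, k1, k2⟩ := hm m m1
  have : Fact (Nat.Prime 3) := ⟨by decide⟩
  let : Fintype (GaloisField 3 α) := Fintype.ofFinite _
  have c : Fintype.card (GaloisField 3 α) = 3 ^ α := by
    rw [← Nat.card_eq_fintype_card, GaloisField.card 3 α a0]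
  have b := KP_pow (KP_base (GaloisField 3 α) s r (c ▸ h1.le)) j
  rw [c] at b
  obtain ⟨C, c1, c2⟩ := KP_code (mu := mu) b k1
  refine ⟨C, c1.trans (mul_le_mul_of_nonneg_right ?_ (Nat.cast_nonneg _)), c2⟩
  have k3 : (((3 : ℝ) ^ α) ^ r * (2 ^ s - 1) * 2 ^ j * 2 ^ s) ≤ 3 ^ α * m := by
    have : (((3 ^ α) ^ r * (2 ^ s - 1) * 2 ^ j * 2 ^ s : ℕ) : ℝ) ≤ ((3 ^ α * m : ℕ) : ℝ) := by
      exact_mod_cast k2
    simpa [Nat.cast_sub s1.le] using this
  push_cast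
  rw [pow_succ]
  generalize ((3 : ℝ) ^ α) = q at *
  generalize ((2 : ℝ) ^ s) = T at *
  have q0 : 0 < q := by linarith
  have m0 : (0 : ℝ) ≤ m := Nat.cast_nonneg _
  have u0 : 0 ≤ q ^ r * q * 2 ^ j := by positivity
  have e1 : q ^ r * q * 2 ^ j * ((T - 1) * T) ≤ q * q * m := by
    calc _ = q * (q ^ r * (T - 1) * 2 ^ j * T) := by ring
      _ ≤ q * (q * m) := mul_le_mul_of_nonneg_left k3 q0.le
      _ = _ := by ring
  have e2 : (1 - δ) * (T * T) ≤ (T - 1) * T := by nlinarith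
  have e3 : q * q ≤ (1 + η) * ((1 - δ) * (T * T)) := by
    calc q * q ≤ ((1 + δ) * T) * ((1 + δ) * T) := mul_self_le_mul_self q0.le h2
      _ = ((1 + δ) * (1 + δ)) * (T * T) := by ring
      _ ≤ ((1 + η) * (1 - δ)) * (T * T) :=
        mul_le_mul_of_nonneg_right (by nlinarith) (by positivity)
      _ = _ := by ring
  have p0 : 0 < (1 - δ) * (T * T) := mul_pos (by linarith) (by positivity)
  refine le_of_mul_le_mul_right ?_ p0
  calc _ ≤ q ^ r * q * 2 ^ j * ((T - 1) * T) := mul_le_mul_of_nonneg_left e2 u0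
    _ ≤ q * q * m := e1
    _ ≤ (1 + η) * ((1 - δ) * (T * T)) * m := mul_le_mul_of_nonneg_right e3 m0
    _ = _ := by ring

end Pool.Agent.Work.MP_ede3c6_co.W
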