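import Pool.Agent.Work.MP_ede3c6_co.W.Gad
import Pool.Agent.Work.MP_ede3c6_co.W.Emb
import Pool.Agent.Work.MP_ede3c6_co.W.BF

/-! The unshifted labels of the spine, the slots, and the balancing of the rest coordinates. -/

set_option autoImplicit false

namespace Pool.Agent.Work.MP_ede3c6_co.W

open Finset Vol

/-- All data that do not depend on the balancing. -/
structure Cx where
  p : Pm
  η : ℝ
  I : Inn p.t p.mu p.kk η
  k : ℕ
  a : ℕ → ℕ
  C : ℕ
  S : Seg p k a C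
  A : Alc p I S
  n : ℕ
  ok : p.Ok n
  e1 : (p.N k + 1) * ((p.s + 1) * p.ks) ≤ 2 ^ (p.G + (p.d1 + p.d2))
  lam : Fin p.G → p.Lab
  dir : p.Lab → Fin p.G
  hU : ∀ δ, zz δ = 0 → lam (dir δ) = δ
  hJ : ∀ δ, zo δ = 0 → zz δ ∈ I.Jz → lam (dir δ) = δ
  hZ : ∀ δ, zo δ = 0 → uo δ = 0 → lam (dir δ) = δ
  hD : ∀ δ ∈ A.Dl, lam (dir δ) = δ
  enc : Fin p.G → V (Fin p.s)
  dec : V (Fin p.s) → Fin p.G
  hdec : ∀ c, dec (enc c) = c
  gd : ∀ c, Gad p (lam c)

theorem div_step (j D r : ℕ) (h : r < D) :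
    (j + 1 + D - 1 - r) / D = (j + D - 1 - r) / D + if j % D = r then 1 else 0 := by
  have e1 : j + 1 + D - 1 - r = (j + D - 1 - r) + 1 := by omega
  rw [e1, Nat.succ_div]
  congr 1
  refine if_congr ?_ rfl rfl
  have e2 : j + D - 1 - r + 1 = j + (D - r) := by omega
  rw [e2, Nat.dvd_iff_mod_eq_zero, Nat.add_mod]
  have h1 := Nat.mod_lt j (show 0 < D by omega)
  rcases Nat.eq_zero_or_pos r with rfl | h2
  · simp
  · rw [Nat.mod_eq_of_lt (show D - r < D by omega)]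
    generalize j % D = x at *
    by_cases q : x + (D - r) < D
    · rw [Nat.mod_eq_of_lt q]
      omega
    · rw [Nat.mod_eq_sub_mod (by omega), Nat.mod_eq_of_lt (by omega)]
      omega

namespace Cx
variable (x : Cx)

theorem G0 : 0 < x.p.G := lt_of_lt_of_le (by positivity) x.ok.hG

theorem s0 : 0 < x.p.s := Nat.pos_of_ne_zero fun h => by
  have := x.ok.hP
  rw [h, zero_mul] at this
  omega

/-- long junctions -/
def lg (j : ℕ) : Prop := j % (x.p.P + 1) = x.p.P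

instance (j : ℕ) : Decidable (x.lg j) := inferInstanceAs (Decidable (_ = _))

/-- number of junctions -/
abbrev J : ℕ := x.p.J x.k

/-- length of a block -/
abbrev bl (j : ℕ) : ℕ := x.S.bl j

/-- length of a segment -/
def sl (j : ℕ) : ℕ := x.bl j + 2 * x.p.Mj j

theorem sl_lg {j : ℕ} (h : x.lg j) : x.sl j = x.bl j + 2 * (x.p.M0 + x.p.Mg) := by
  rw [sl, Pm.Mj, if_pos (show j % (x.p.P + 1) = x.p.P from h)]

theorem sl_sh {j : ℕ} (h : ¬ x.lg j) : x.sl j = x.bl j + 2 * x.p.M0 := by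
  rw [sl, Pm.Mj, if_neg (show ¬ j % (x.p.P + 1) = x.p.P from h)]

theorem sl_ge (j : ℕ) : x.bl j + 2 * x.p.M0 ≤ x.sl j := by
  by_cases h : x.lg j
  · rw [x.sl_lg h]
    omega
  · rw [x.sl_sh h]

/-- the direction treated in the gadget of junction `j` -/
def cg (j : ℕ) : Fin x.p.G := ⟨j / (x.p.P + 1) % x.p.G, Nat.mod_lt _ x.G0⟩

/-- inner part at the start of a junction -/
def zs (j : ℕ) : V (Zt x.p.mu x.p.kk) := zz (x.A.lm j (x.bl j - 1))

/-- inner part at the end of a junction -/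
def zt (j : ℕ) : V (Zt x.p.mu x.p.kk) := zz (x.A.lm (j + 1) 0)

/-- middle part in a junction -/
def ud (τ : ℕ) : V (Fin x.p.t) := if τ < aS x.p.t x.p.mu then fun _ => 1 else 0

/-- unshifted labels -/
def l0 (j o : ℕ) : x.p.Lab :=
  if o < x.bl j then x.A.lm j o else
  if o < x.bl j + 2 * x.p.M0 then
    W.mk (x.A.rz (x.A.cj j ((o - x.bl j) / 2) 0) 0) (x.ud (x.I.rd (x.S.mx j)))
      (if o + 1 < x.bl j + 2 * x.p.M0 then x.zs j else x.zt j) else
  if o < x.sl j then W.mk ((x.gd (x.cg j)).bz ((o - x.bl j) / 2 - x.p.M0)) 0 (x.zt j)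
  else x.A.lm (j + 1) 0

/-- special steps -/
def sp (j o : ℕ) : Prop :=
  x.bl j ≤ o ∧ (o - x.bl j) % 2 = 0 ∧ o + 2 ≠ x.bl j + 2 * x.p.M0

instance (j o : ℕ) : Decidable (x.sp j o) := inferInstanceAs (Decidable (_ ∧ _))

/-- the forced move -/
def dm (j o : ℕ) : V (Fin x.p.G) := if x.sp j o then 0 else e (x.dir (x.l0 j o + x.l0 j (o + 1)))

/-- sum of the forced moves before a segment -/
def Fs : ℕ → V (Fin x.p.G)
  | 0 => 0
  | j + 1 => Fs j + ∑ o ∈ range (x.sl j), x.dm j o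

/-- sum of the forced moves before a vertex -/
def Fg (j o : ℕ) : V (Fin x.p.G) := x.Fs j + ∑ q ∈ range o, x.dm j q

/-- number of the interval between two switches -/
def iv (pm D r j o : ℕ) : ℕ := (j + (if x.bl j + 2 * pm < o then 1 else 0) + D - 1 - r) / D

theorem iv_step (pm D r j o : ℕ) (h : r < D) (hh : ¬ (o = x.bl j + 2 * pm ∧ j % D = r)) :
    x.iv pm D r j (o + 1) = x.iv pm D r j o := by
  unfold iv
  by_cases q : o = x.bl j + 2 * pm
  · rw [if_pos (by omega), if_neg (by omega), div_step _ _ _ h, if_neg fun k => hh ⟨q, k⟩]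
    rfl
  · rw [if_congr (show x.bl j + 2 * pm < o + 1 ↔ x.bl j + 2 * pm < o by omega) rfl rfl]

/-- offset of a slot -/
def so (j u : ℕ) : ℕ :=
  if u = 0 then 0 else if u ≤ 2 * x.p.M0 + 1 then x.bl j + (u - 1) else x.sl j - 1

/-- the slots -/
def X : Finset (ℕ × ℕ) := {y ∈ range x.J ×ˢ range x.p.ks | y.2 ≤ 2 * x.p.M0 ∨ x.lg y.1}

theorem mem_X {j u : ℕ} : (j, u) ∈ x.X ↔ j < x.J ∧ u < x.p.ks ∧ (u ≤ 2 * x.p.M0 ∨ x.lg j) := by
  simp [X, and_assoc]

/-- keys -/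
abbrev Ky : Type := ℕ × Option x.A.Tk × Option (x.A.Cl × V (Zt x.p.mu x.p.kk))

/-- key of a slot -/
def key (y : ℕ × ℕ) : x.Ky :=
  (y.2, if y.2 = 0 then some (x.A.tk y.1) else none, if 1 ≤ y.2 ∧ y.2 ≤ 2 * x.p.M0 then
    some (x.A.cj y.1 ((y.2 - 1) / 2) ((y.2 - 1) % 2),
      if y.2 < 2 * x.p.M0 then x.zs y.1 else x.zt y.1) else none)

theorem N_le : x.p.N x.k ≤ x.p.Q := by
  refine le_trans ?_ (x.e1.trans (Nat.pow_le_pow_right (by omega) (Nat.le_add_left _ _)))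
  refine le_trans (Nat.le_succ _) (Nat.le_mul_of_pos_right _ ?_)
  unfold Pm.ks
  positivity

theorem lg_card : #{j ∈ range x.J | x.lg j} ≤ x.p.N x.k := by
  rw [← card_range (x.p.N x.k)]
  refine card_le_card_of_injOn (fun j => j / (x.p.P + 1)) (fun j hj => ?_) fun i hi j hj h => ?_
  · exact mem_range.2 (Nat.div_lt_of_lt_mul (by
      rw [mul_comm]; exact mem_range.1 (mem_filter.1 hj).1))
  · have h1 : i % (x.p.P + 1) = x.p.P := (mem_filter.1 hi).2
    have h2 : j % (x.p.P + 1) = x.p.P := (mem_filter.1 hj).2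
    rw [← Nat.div_add_mod i (x.p.P + 1), ← Nat.div_add_mod j (x.p.P + 1), h1, h2]
    exact congrArg (fun z => (x.p.P + 1) * z + x.p.P) h

open Classical in
theorem load0 (y : x.Ky) :
    #{z ∈ x.X | x.key z = y} ≤ (if y.1 = 0 then x.p.L0 else 1) * x.p.Q := by
  have H : ∀ T : Finset ℕ, (∀ j, (j, y.1) ∈ x.X → x.key (j, y.1) = y → j ∈ T) →
      #{z ∈ x.X | x.key z = y} ≤ T.card := fun T hT => by
    have k : ∀ z ∈ ({z ∈ x.X | x.key z = y} : Finset _), z.2 = y.1 := fun z hz =>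
      congrArg Prod.fst (mem_filter.1 hz).2
    refine card_le_card_of_injOn Prod.fst (fun z hz => ?_) fun z hz w hw h =>
      Prod.ext h ((k z hz).trans (k w hw).symm)
    have := k z hz
    obtain ⟨j, u⟩ := z
    simp only at this
    subst this
    exact hT j (mem_filter.1 hz).1 (mem_filter.1 hz).2
  obtain ⟨u, tk, cz⟩ := y
  simp only at H ⊢
  by_cases h0 : u = 0
  · rw [if_pos h0]
    rcases tk with _ | tk
    · exact (H ∅ fun j _ h => by simp [key, h0] at h).trans (by simp)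
    · refine (H _ fun j h1 h => ?_).trans (x.A.tk2 tk)
      simp only [key, h0, if_true, Prod.mk.injEq, Option.some.injEq] at h
      exact mem_filter.2 ⟨mem_range.2 (Nat.lt_succ_of_lt (x.mem_X.1 h1).1), h.2.1⟩
  rw [if_neg h0, one_mul]
  by_cases h1 : u ≤ 2 * x.p.M0
  · have h2 : 1 ≤ u ∧ u ≤ 2 * x.p.M0 := ⟨by omega, h1⟩
    rcases cz with _ | ⟨c, z⟩
    · exact (H ∅ fun j _ h => by simp [key, h2] at h).trans (by simp)
    by_cases h3 : u < 2 * x.p.M0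
    · refine (H _ fun j h1 h => ?_).trans (x.A.cj4 ((u - 1) / 2) ((u - 1) % 2) c z)
      simp only [key, if_pos h2, if_pos h3, Prod.mk.injEq, Option.some.injEq] at h
      exact mem_filter.2 ⟨mem_range.2 (x.mem_X.1 h1).1, h.2.2⟩
    · refine (H _ fun j h1 h => ?_).trans (x.A.cj5 ((u - 1) / 2) ((u - 1) % 2) c z)
      simp only [key, if_pos h2, if_neg h3, Prod.mk.injEq, Option.some.injEq] at h
      exact mem_filter.2 ⟨mem_range.2 (x.mem_X.1 h1).1, h.2.2⟩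
  · refine (H _ fun j h2 _ => ?_).trans (x.lg_card.trans x.N_le)
    exact mem_filter.2 ⟨mem_range.2 (x.mem_X.1 h2).1, (x.mem_X.1 h2).2.2.resolve_left h1⟩

theorem fibre (pm D r : ℕ) (h : r < D) (v : ℕ) :
    #{z ∈ x.X | x.iv pm D r z.1 (x.so z.1 z.2) = v} ≤ (D + 1) * x.p.ks := by
  refine le_trans (card_le_card (t := Ico (v * D + r + 1 - D - 1) (v * D + r + 1) ×ˢ range x.p.ks)
    fun z hz => ?_) ?_
  · obtain ⟨h1, h2⟩ := mem_filter.1 hz
    refine mem_product.2 ⟨mem_Ico.2 ?_, mem_range.2 (x.mem_X.1 h1).2.1⟩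
    unfold iv at h2
    rw [Nat.div_eq_iff (by omega)] at h2
    split_ifs at h2 <;> omega
  · rw [card_product, card_range, Nat.card_Ico]
    exact Nat.mul_le_mul_right _ (by omega)

/-- selector bits -/
def sv (b : Fin x.p.s → ℕ → ZMod 2) (j o : ℕ) : V (Fin x.p.s) :=
  fun c => b c (x.iv (2 * x.p.hh) x.p.s c j o)

/-- global bits -/
def gv (b : Fin x.p.G → ℕ → ZMod 2) (j o : ℕ) : V (Fin x.p.G) :=
  fun c => x.Fg j o c +
    b c (x.iv (x.p.M0 + 1) (x.p.G * (x.p.P + 1)) (c * (x.p.P + 1) + x.p.P) j o)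

/-- local bits, first level -/
def v1 (b : Fin x.p.d1 → ℕ → ZMod 2) (j o : ℕ) : V (Fin x.p.d1) :=
  fun c => b c (x.iv (2 * x.p.hh + 1) x.p.d1 c j o)

/-- local bits, second level -/
def v2 (b : Fin x.p.d2 → ℕ → ZMod 2) (j o : ℕ) : V (Fin x.p.d2) :=
  fun c => b c (x.iv (2 * x.p.hh + 2) x.p.d2 c j o)

theorem res_lt (c : Fin x.p.G) : c * (x.p.P + 1) + x.p.P < x.p.G * (x.p.P + 1) := by
  have := Nat.mul_le_mul_right (x.p.P + 1) (Nat.succ_le_of_lt c.2)
  rw [Nat.succ_mul] at this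
  omega

/-- cell of a slot -/
def cell (bS : Fin x.p.s → ℕ → ZMod 2) (bG : Fin x.p.G → ℕ → ZMod 2)
    (b1 : Fin x.p.d1 → ℕ → ZMod 2) (b2 : Fin x.p.d2 → ℕ → ZMod 2) (z : ℕ × ℕ) :
    (((x.Ky × V (Fin x.p.s)) × V (Fin x.p.G)) × V (Fin x.p.d1)) × V (Fin x.p.d2) :=
  ((((x.key z, x.sv bS z.1 (x.so z.1 z.2)), x.gv bG z.1 (x.so z.1 z.2)),
    x.v1 b1 z.1 (x.so z.1 z.2)), x.v2 b2 z.1 (x.so z.1 z.2))

end Cx

theorem cf {α : Type} {S : Finset α} {P Q : α → Prop} {_ : DecidablePred P} {_ : DecidablePred Q}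
    (h : ∀ a, P a ↔ Q a) : #(S.filter P) = #(S.filter Q) :=
  congrArg card (filter_congr fun a _ => h a)

open Classical in
theorem slide' {X Y : Type} {d : ℕ} (S : Finset X) (key : X → Y) (I : Fin d → X → ℕ)
    (o : Fin d → X → ZMod 2) (R N : ℕ) (hR : ∀ c v, #{x ∈ S | I c x = v} ≤ R)
    (PS : Finset ℕ) (hP : PS.card ≤ N) (val : Fin d → ℕ → ZMod 2) (L : Y → ℕ) (T : ℕ)
    (hL : ∀ y, #{x ∈ S | key x = y} ≤ L y * (2 ^ d * T)) :
    ∃ b : Fin d → ℕ → ZMod 2, (∀ c, ∀ v ∈ PS, b c v = val c v) ∧ ∀ y : Y × V (Fin d),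
      #{x ∈ S | (key x, fun c => o c x + b c (I c x)) = y} ≤ L y.1 * T + 2 * ((N + 1) * R) := by
  obtain ⟨b, h1, h2⟩ := slide S key I o R N hR (fun _ => PS) (fun _ => hP) val
  refine ⟨b, h1, fun y => Nat.le_of_mul_le_mul_left ?_ (Nat.two_pow_pos d)⟩
  have := h2 y.1 y.2
  rw [Fintype.card_fin] at this
  rw [filter_congr fun x _ => Prod.ext_iff]
  refine (le_of_eq (by congr)).trans (this.trans ?_)
  rw [mul_add (2 ^ d), mul_left_comm (2 ^ d) (L _)]
  exact Nat.add_le_add_right (hL _) _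

open Classical in
theorem Cx.bal (x : Cx) : ∃ bS bG b1 b2,
    (∀ j < x.J, x.lg j → ∀ c : Fin x.p.s,
      bS c ((j + 1 + x.p.s - 1 - c) / x.p.s) = x.enc (x.cg j) c) ∧
    ∀ y, #{z ∈ x.X | x.cell bS bG b1 b2 z = y} ≤
      (if y.1.1.1.1.1 = 0 then x.p.L0 else 1) + x.p.er := by
  obtain ⟨bS, s1, s2⟩ := slide' x.X x.key
    (fun (c : Fin x.p.s) z => x.iv (2 * x.p.hh) x.p.s c z.1 (x.so z.1 z.2)) (fun _ _ => 0) _
    (x.p.N x.k) (fun c v => x.fibre _ _ _ c.2 v)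
    ((range (x.p.N x.k)).image fun ch => (ch + 1) * x.p.P')
    (card_image_le.trans (card_range _).le)
    (fun c v => x.enc ⟨(v / x.p.P' - 1) % x.p.G, Nat.mod_lt _ x.G0⟩ c)
    (fun y => if y.1 = 0 then x.p.L0 else 1) (2 ^ (x.p.G + (x.p.d1 + x.p.d2)))
    (fun y => by rw [← pow_add]; exact x.load0 y)
  obtain ⟨bG, -, g2⟩ := slide' x.X (fun z => (x.key z, x.sv bS z.1 (x.so z.1 z.2)))
    (fun (c : Fin x.p.G) z => x.iv (x.p.M0 + 1) (x.p.G * (x.p.P + 1)) (c * (x.p.P + 1) + x.p.P)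
      z.1 (x.so z.1 z.2)) (fun c z => x.Fg z.1 (x.so z.1 z.2) c) _ 0
    (fun c v => x.fibre _ _ _ (x.res_lt c) v) ∅ (by simp) (fun _ _ => 0)
    (fun y => (if y.1.1 = 0 then x.p.L0 else 1) + 2) (2 ^ (x.p.d1 + x.p.d2))
    (fun y => by
      have := s2 y
      simp only [zero_add] at this
      rw [← pow_add, add_mul]
      exact (cf fun _ => Iff.rfl).trans_le
        (this.trans (Nat.add_le_add_left (Nat.mul_le_mul_left _ x.e1) _)))
  obtain ⟨b1, -, c2⟩ := slide' x.X (fun z => ((x.key z, x.sv bS z.1 (x.so z.1 z.2)),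
      x.gv bG z.1 (x.so z.1 z.2)))
    (fun (c : Fin x.p.d1) z => x.iv (2 * x.p.hh + 1) x.p.d1 c z.1 (x.so z.1 z.2)) (fun _ _ => 0)
    _ 0 (fun c v => x.fibre _ _ _ c.2 v) ∅ (by simp) (fun _ _ => 0)
    (fun y => (if y.1.1.1 = 0 then x.p.L0 else 1) + 2 + 2) (2 ^ x.p.d2)
    (fun y => by
      have := g2 y
      simp only [zero_add, one_mul] at this
      rw [← pow_add, add_mul]
      exact (cf fun _ => Iff.rfl).trans_le
        (this.trans (Nat.add_le_add_left (Nat.mul_le_mul_left _ x.ok.e2) _)))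
  obtain ⟨b2, -, d2⟩ := slide' x.X (fun z => (((x.key z, x.sv bS z.1 (x.so z.1 z.2)),
      x.gv bG z.1 (x.so z.1 z.2)), x.v1 b1 z.1 (x.so z.1 z.2)))
    (fun (c : Fin x.p.d2) z => x.iv (2 * x.p.hh + 2) x.p.d2 c z.1 (x.so z.1 z.2)) (fun _ _ => 0)
    _ 0 (fun c v => x.fibre _ _ _ c.2 v) ∅ (by simp) (fun _ _ => 0)
    (fun y => (if y.1.1.1.1 = 0 then x.p.L0 else 1) + 2 + 2 + 2) 1
    (fun y => by
      have := c2 y
      simp only [zero_add, one_mul] at this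
      rw [mul_one, add_mul]
      exact (cf fun _ => Iff.rfl).trans_le
        (this.trans (Nat.add_le_add_left (Nat.mul_le_mul_left _ x.ok.e3) _)))
  refine ⟨bS, bG, b1, b2, fun j hj hl c => ?_, fun y => ?_⟩
  · have h1 : j % (x.p.P + 1) = x.p.P := hl
    have h2 := Nat.div_add_mod j (x.p.P + 1)
    have hP := x.ok.hP
    have P0 : 0 < x.p.P' := Nat.pos_of_ne_zero fun h => by
      rw [h, mul_zero] at hP
      omega
    have h3 : (j + 1 + x.p.s - 1 - c) / x.p.s = (j / (x.p.P + 1) + 1) * x.p.P' := by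
      have := c.2
      have h4 : (j / (x.p.P + 1) + 1) * x.p.P' * x.p.s = j + 1 := by
        rw [mul_assoc, mul_comm x.p.P', ← hP, add_mul, mul_comm (j / _)]
        omega
      rw [Nat.div_eq_iff x.s0, h4]
      omega
    rw [h3, s1 c _ (mem_image.2 ⟨j / (x.p.P + 1), mem_range.2 (Nat.div_lt_of_lt_mul (by
      rw [mul_comm]; exact hj)), rfl⟩)]
    simp only [Nat.mul_div_cancel _ P0, Nat.add_sub_cancel]
    rfl
  · have := d2 y
    simp only [zero_add, one_mul, mul_one] at this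
    refine (cf fun _ => Iff.rfl).trans_le (le_trans this (le_of_eq ?_))
    rw [Pm.er]
    omega

end Pool.Agent.Work.MP_ede3c6_co.W
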