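import Pool.Agent.Work.MP_ede3c6_co.W.P1

/-! Labels and rest vectors of the spine; consecutive vertices are adjacent. -/

set_option autoImplicit false

namespace Pool.Agent.Work.MP_ede3c6_co.W

open Finset Vol

/-- All data, with the balanced bits and the ranks. -/
structure Cy extends Cx where
  bS : Fin p.s → ℕ → ZMod 2
  bG : Fin p.G → ℕ → ZMod 2
  b1 : Fin p.d1 → ℕ → ZMod 2
  b2 : Fin p.d2 → ℕ → ZMod 2
  lo : ℕ → V (Fin p.hh)
  hi : ℕ → V (Fin p.hh)
  pre : ∀ j < toCx.J, toCx.lg j → ∀ c : Fin p.s,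
    bS c ((j + 1 + p.s - 1 - c) / p.s) = enc (toCx.cg j) c
  rnk : ∀ j j' u, (j, u) ∈ toCx.X → (j', u) ∈ toCx.X →
    toCx.cell bS bG b1 b2 (j, u) = toCx.cell bS bG b1 b2 (j', u) → j ≠ j' →
    (u = 0 → ¬ (lo j = lo j' ∧ hi j = hi j')) ∧ (1 ≤ u → u / 2 ≤ p.hh → hi j ≠ hi j') ∧
      (p.hh < u / 2 → lo (j + 1) ≠ lo (j' + 1))

theorem Cx.cy_ex (x : Cx) : ∃ y : Cy, y.toCx = x := by
  classical
  obtain ⟨bS, bG, b1, b2, h1, h2⟩ := x.bal
  have H : ∀ u y, #{j ∈ range x.J | (j, u) ∈ x.X ∧ x.cell bS bG b1 b2 (j, u) = y} ≤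
      (if u = 0 then x.p.L0 else 1) + x.p.er := fun u y => by
    by_cases h : y.1.1.1.1.1 = u
    · rw [← h]
      refine le_trans (card_le_card_of_injOn (fun j => (j, y.1.1.1.1.1)) (fun j hj => ?_)
        fun i _ j _ q => congrArg Prod.fst q) (h2 y)
      exact mem_filter.2 (mem_filter.1 hj).2
    · rw [filter_false_of_mem fun j _ q => h (by rw [← q.2]; rfl)]
      simp
  obtain ⟨lo, hi, h3⟩ := rank_ex x.J x.p.ks x.p.hh (x.p.L0 + x.p.er) (1 + x.p.er) x.X
    (fun z hz => ⟨(x.mem_X.1 hz).1, (x.mem_X.1 hz).2.1⟩) (x.cell bS bG b1 b2)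
    (fun y => (cf fun _ => Iff.rfl).trans_le (H 0 y))
    (fun u hu y => (cf fun _ => Iff.rfl).trans_le ((H u y).trans (by rw [if_neg (by omega)])))
    x.ok.hr
  exact ⟨⟨x, bS, bG, b1, b2, lo, hi, h1, h3⟩, rfl⟩

theorem one_flip {ι : Type} [DecidableEq ι] {u v : V ι} (c0 : ι) (h : ∀ c, c ≠ c0 → v c = u c) :
    (v c0 = u c0 ∧ v = u) ∨ (v c0 = u c0 + 1 ∧ v = u + e c0) := by
  have k : ∀ a b : ZMod 2, a = b ∨ a = b + 1 := by decide
  rcases k (v c0) (u c0) with q | q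
  · refine Or.inl ⟨q, funext fun c => ?_⟩
    by_cases hc : c = c0
    exacts [hc ▸ q, h c hc]
  · refine Or.inr ⟨q, funext fun c => ?_⟩
    by_cases hc : c = c0
    · subst hc
      simp [q, e_apply]
    · simp [h c hc, e_apply, hc]

namespace Cy
variable (x : Cy)

/-- rest coordinates -/
abbrev R : Type :=
  (Fin x.p.hh ⊕ Fin x.p.hh) ⊕ (Fin x.p.s ⊕ (Fin x.p.G ⊕ (Fin x.p.d1 ⊕ Fin x.p.d2)))

/-- labels of the rest coordinates -/
def lamR : x.R → x.p.Lab := Sum.elim 0 (Sum.elim 0 (Sum.elim x.lam 0))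

/-- a global coordinate -/
def gl (c : Fin x.p.G) : x.R := Sum.inr (Sum.inr (Sum.inl c))

/-- modulus of the global switches -/
abbrev DG : ℕ := x.p.G * (x.p.P + 1)

/-- residue of the global switches -/
abbrev rG (c : Fin x.p.G) : ℕ := c * (x.p.P + 1) + x.p.P

/-- the route in the gadget -/
def xi (j : ℕ) : ZMod 2 := x.bG (x.cg j) ((j + x.DG - 1 - x.rG (x.cg j)) / x.DG) +
  x.bG (x.cg j) ((j + x.DG - 1 - x.rG (x.cg j)) / x.DG + 1)

/-- number of gadget steps done -/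
def gi (j o : ℕ) : ℕ := (o + 1 - (x.bl j + 2 * x.p.M0)) / 2

/-- labels -/
def lb (j o : ℕ) : x.p.Lab := x.l0 j o + x.xi j • (x.gd (x.cg j)).rho (x.gi j o)

/-- ranks -/
def rk (j o : ℕ) : V (Fin x.p.hh ⊕ Fin x.p.hh) :=
  Sum.elim (fun b => if x.bl j + 2 * b < o then x.lo (j + 1) b else x.lo j b)
    (fun b => if x.bl j + 2 * (x.p.hh + b) < o then x.hi (j + 1) b else x.hi j b)

/-- rest vectors -/
def rv (j o : ℕ) : V x.R :=
  Sum.elim (x.rk j o) (Sum.elim (x.sv x.bS j o) (Sum.elim (x.gv x.bG j o)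
    (Sum.elim (x.v1 x.b1 j o) (x.v2 x.b2 j o))))

/-- the pair in which a coordinate can be switched -/
def pm : x.R → ℕ := Sum.elim (Sum.elim (fun b => b) fun b => x.p.hh + b)
  (Sum.elim (fun _ => 2 * x.p.hh) (Sum.elim (fun _ => x.p.M0 + 1)
    (Sum.elim (fun _ => 2 * x.p.hh + 1) fun _ => 2 * x.p.hh + 2)))

/-- the junctions in which a coordinate can be switched -/
def sw (j : ℕ) : x.R → Prop := Sum.elim (fun _ => True) (Sum.elim (fun c => j % x.p.s = c)
  (Sum.elim (fun c => j % x.DG = x.rG c)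
    (Sum.elim (fun c => j % x.p.d1 = c) fun c => j % x.p.d2 = c)))

/-- a vector of global bits as a rest vector -/
def em (v : V (Fin x.p.G)) : V x.R := Sum.elim 0 (Sum.elim 0 (Sum.elim v 0))

theorem em_e (c : Fin x.p.G) : x.em (e c) = e (x.gl c) := by
  funext d
  rcases d with d | d | d | d <;> simp [em, gl, e_apply]

theorem em_zero : x.em 0 = 0 := by
  funext c
  rcases c with c | c | c | c <;> rfl

theorem rv_step (j o : ℕ) (c : x.R) (h : ¬ (o = x.bl j + 2 * x.pm c ∧ x.sw j c)) :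
    x.rv j (o + 1) c = x.rv j o c + x.em (x.dm j o) c := by
  rcases c with (c | c) | c | c | c | c
  · have : o ≠ x.bl j + 2 * c := fun q => h ⟨q, trivial⟩
    exact (if_congr (by omega) rfl rfl).trans (add_zero _).symm
  · have : o ≠ x.bl j + 2 * (x.p.hh + c) := fun q => h ⟨q, trivial⟩
    exact (if_congr (by omega) rfl rfl).trans (add_zero _).symm
  · exact (congrArg (x.bS c) (x.iv_step _ _ _ _ _ c.2 h)).trans (add_zero _).symm
  · show x.Fg j (o + 1) c + _ = x.Fg j o c + _ + x.dm j o c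
    rw [x.iv_step (x.p.M0 + 1) _ _ _ _ (x.res_lt c) h, Cx.Fg, Cx.Fg, sum_range_succ]
    simp only [Pi.add_apply]
    ring
  · exact (congrArg (x.b1 c) (x.iv_step _ _ _ _ _ c.2 h)).trans (add_zero _).symm
  · exact (congrArg (x.b2 c) (x.iv_step _ _ _ _ _ c.2 h)).trans (add_zero _).symm

theorem sw_gl {j : ℕ} {c : Fin x.p.G} : j % x.DG = x.rG c ↔ x.lg j ∧ x.cg j = c := by
  have h1 : j % x.DG % (x.p.P + 1) = j % (x.p.P + 1) := Nat.mod_mod_of_dvd _ (Dvd.intro_left _ rfl)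
  have h2 : j % x.DG / (x.p.P + 1) = j / (x.p.P + 1) % x.p.G := by
    rw [DG, mul_comm]
    exact Nat.mod_mul_right_div_self _ _ _
  constructor
  · intro h
    rw [h] at h1 h2
    refine ⟨?_, Fin.ext ?_⟩
    · rw [Cx.lg, ← h1, rG, Nat.mul_add_mod', Nat.mod_eq_of_lt (Nat.lt_succ_self _)]
    · show j / (x.p.P + 1) % x.p.G = c
      rw [← h2, rG, add_comm ((c : ℕ) * _), Nat.add_mul_div_right _ _ (Nat.succ_pos _),
        Nat.div_eq_of_lt (Nat.lt_succ_self _), zero_add]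
  · rintro ⟨h, rfl⟩
    rw [← Nat.div_add_mod (j % x.DG) (x.p.P + 1), h1, h2, show j % (x.p.P + 1) = x.p.P from h,
      mul_comm]
    rfl

theorem M0e : x.p.M0 = 2 * x.p.hh + 4 := rfl

theorem l0_bl {j o : ℕ} (h : o < x.bl j) : x.l0 j o = x.A.lm j o := if_pos h

theorem l0_st {j o : ℕ} (h1 : x.bl j ≤ o) (h2 : o < x.bl j + 2 * x.p.M0) : x.l0 j o =
    W.mk (x.A.rz (x.A.cj j ((o - x.bl j) / 2) 0) 0) (x.ud (x.I.rd (x.S.mx j)))
      (if o + 1 < x.bl j + 2 * x.p.M0 then x.zs j else x.zt j) := by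
  rw [Cx.l0, if_neg (by omega), if_pos h2]

theorem l0_gd {j o : ℕ} (h1 : x.bl j + 2 * x.p.M0 ≤ o) (h2 : o < x.sl j) : x.l0 j o =
    W.mk ((x.gd (x.cg j)).bz ((o - x.bl j) / 2 - x.p.M0)) 0 (x.zt j) := by
  rw [Cx.l0, if_neg (by omega), if_neg (by omega), if_pos h2]

theorem l0_end {j o : ℕ} (h : x.sl j ≤ o) : x.l0 j o = x.A.lm (j + 1) 0 := by
  have := x.sl_ge j
  rw [Cx.l0, if_neg (by omega), if_neg (by omega), if_neg (by omega)]

theorem zz_l0_lo {j o : ℕ} (h1 : x.bl j ≤ o + 1) (h2 : o + 1 < x.bl j + 2 * x.p.M0) :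
    zz (x.l0 j o) = x.zs j := by
  by_cases h : o < x.bl j
  · rw [x.l0_bl h, show o = x.bl j - 1 by omega]
    rfl
  · rw [x.l0_st (by omega) (by omega), if_pos h2, zz_mk]

theorem zz_l0_hi {j o : ℕ} (h2 : x.bl j + 2 * x.p.M0 ≤ o + 1) : zz (x.l0 j o) = x.zt j := by
  have := x.M0e
  by_cases h : o < x.bl j + 2 * x.p.M0
  · rw [x.l0_st (by omega) h, if_neg (by omega), zz_mk]
  by_cases h' : o < x.sl j
  · rw [x.l0_gd (by omega) h', zz_mk]
  · rw [x.l0_end (by omega)]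
    rfl

theorem lam_dir {j : ℕ} (hj : j < x.J) (o : ℕ) :
    x.lam (x.dir (x.l0 j o + x.l0 j (o + 1))) = x.l0 j o + x.l0 j (o + 1) := by
  have := x.M0e
  by_cases h1 : o + 1 < x.bl j
  · rw [x.l0_bl h1, x.l0_bl (by omega)]
    exact x.hD _ (x.A.dl1 j hj.le o h1)
  by_cases h2 : o + 2 < x.bl j + 2 * x.p.M0
  · exact x.hU _ (by rw [zz_add, x.zz_l0_lo (by omega) (by omega),
      x.zz_l0_lo (by omega) (by omega), vv])
  by_cases h3 : o + 2 = x.bl j + 2 * x.p.M0
  · rw [x.l0_st (by omega) (by omega), x.l0_st (by omega) (by omega),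
      show (o + 1 - x.bl j) / 2 = (o - x.bl j) / 2 by omega]
    exact x.hZ _ (vv _) (vv _)
  · exact x.hU _ (by rw [zz_add, x.zz_l0_hi (by omega), x.zz_l0_hi (by omega), vv])

theorem l0_sp {j o : ℕ} (ho : o < x.sl j) (h : x.sp j o) : x.l0 j (o + 1) = x.l0 j o := by
  obtain ⟨h1, h2, h3⟩ := h
  have e1 : (o + 1 - x.bl j) / 2 = (o - x.bl j) / 2 := by omega
  by_cases h4 : o < x.bl j + 2 * x.p.M0
  · rw [x.l0_st (by omega) (by omega), x.l0_st h1 h4, e1, if_pos (by omega), if_pos (by omega)]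
  · have : o + 1 < x.sl j := by
      unfold Cx.sl at ho ⊢
      omega
    rw [x.l0_gd (by omega) this, x.l0_gd (by omega) ho, e1]

theorem step_triv {l : x.p.Lab} {r r' : V x.R} (c0 : x.R) (h0 : x.lamR c0 = 0)
    (h : ∀ c, c ≠ c0 → r' c = r c) : Step x.lamR l r l r' := by
  rcases one_flip c0 h with q | q
  · exact Or.inl ⟨rfl, q.2⟩
  · exact Or.inr (Or.inr ⟨c0, by rw [h0, add_zero], q.2⟩)

theorem step {j o : ℕ} (hj : j < x.J) (ho : o < x.sl j) :
    Step x.lamR (x.lb j o) (x.rv j o) (x.lb j (o + 1)) (x.rv j (o + 1)) := by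
  have hM := x.M0e
  by_cases h : x.sp j o
  swap
  · refine Or.inr (Or.inr ⟨x.gl (x.dir (x.l0 j o + x.l0 j (o + 1))), ?_, funext fun c => ?_⟩)
    · have : x.gi j (o + 1) = x.gi j o := by
        unfold Cx.sp at h
        unfold gi
        omega
      rw [lb, lb, this, show x.lamR (x.gl _) = x.lam _ from rfl, x.lam_dir hj, add_right_comm,
        ← add_assoc, vv, zero_add]
    · rw [x.rv_step, Cx.dm, if_neg h, em_e, Pi.add_apply]
      rintro ⟨q, -⟩
      refine h ⟨by omega, by omega, ?_⟩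
      rcases c with (c | c) | c | c | c | c <;> simp only [pm, Sum.elim_inl, Sum.elim_inr] at q
      · have := c.2
        omega
      · have := c.2
        omega
      all_goals omega
  have hr : ∀ c, ¬ (o = x.bl j + 2 * x.pm c ∧ x.sw j c) → x.rv j (o + 1) c = x.rv j o c :=
    fun c q => by rw [x.rv_step j o c q, Cx.dm, if_pos h, em_zero, Pi.zero_apply, add_zero]
  have hl := x.l0_sp ho h
  obtain ⟨h1, h2, h3⟩ := h
  obtain ⟨m, rfl⟩ : ∃ m, o = x.bl j + 2 * m := ⟨(o - x.bl j) / 2, by omega⟩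
  by_cases h4 : m < x.p.M0
  · have g1 : x.gi j (x.bl j + 2 * m + 1) = x.gi j (x.bl j + 2 * m) := by
      unfold gi
      omega
    rw [lb, lb, g1, hl]
    obtain ⟨c0, k1, k2⟩ : ∃ c0 : x.R, x.lamR c0 = 0 ∧ ∀ c, m = x.pm c → x.sw j c → c = c0 := by
      by_cases a1 : m < x.p.hh
      · refine ⟨Sum.inl (Sum.inl ⟨m, a1⟩), rfl, fun c q1 q2 => ?_⟩
        rcases c with (c | c) | c | c | c | c <;> simp only [pm, Sum.elim_inl, Sum.elim_inr] at q1
        · subst q1
          rfl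
        all_goals omega
      by_cases a2 : m < 2 * x.p.hh
      · refine ⟨Sum.inl (Sum.inr ⟨m - x.p.hh, by omega⟩), rfl, fun c q1 q2 => ?_⟩
        rcases c with (c | c) | c | c | c | c <;> simp only [pm, Sum.elim_inl, Sum.elim_inr] at q1
        · have := c.2
          omega
        · subst q1
          simp
        all_goals omega
      by_cases a3 : m = 2 * x.p.hh
      · refine ⟨Sum.inr (Sum.inl ⟨j % x.p.s, Nat.mod_lt _ x.s0⟩), rfl, fun c q1 q2 => ?_⟩
        rcases c with (c | c) | c | c | c | c <;> simp only [pm, Sum.elim_inl, Sum.elim_inr] at q1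
        · have := c.2
          omega
        · have := c.2
          omega
        · exact congrArg (fun z => Sum.inr (Sum.inl z)) (Fin.ext (Eq.symm q2))
        all_goals omega
      by_cases a4 : m = 2 * x.p.hh + 1
      · refine ⟨Sum.inr (Sum.inr (Sum.inr (Sum.inl ⟨j % x.p.d1, Nat.mod_lt _ x.ok.d10⟩))), rfl,
          fun c q1 q2 => ?_⟩
        rcases c with (c | c) | c | c | c | c <;> simp only [pm, Sum.elim_inl, Sum.elim_inr] at q1
        · have := c.2
          omega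
        · have := c.2
          omega
        · omega
        · omega
        · exact congrArg (fun z => Sum.inr (Sum.inr (Sum.inr (Sum.inl z)))) (Fin.ext (Eq.symm q2))
        · omega
      · refine ⟨Sum.inr (Sum.inr (Sum.inr (Sum.inr ⟨j % x.p.d2, Nat.mod_lt _ x.ok.d20⟩))), rfl,
          fun c q1 q2 => ?_⟩
        rcases c with (c | c) | c | c | c | c <;> simp only [pm, Sum.elim_inl, Sum.elim_inr] at q1
        · have := c.2
          omega
        · have := c.2
          omega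
        · omega
        · omega
        · omega
        · exact congrArg (fun z => Sum.inr (Sum.inr (Sum.inr (Sum.inr z)))) (Fin.ext (Eq.symm q2))
    exact x.step_triv c0 k1 fun c hc => hr c fun q => hc (k2 c (by omega) q.2)
  obtain ⟨g, rfl⟩ : ∃ g, m = x.p.M0 + g := ⟨m - x.p.M0, by omega⟩
  have g1 : x.gi j (x.bl j + 2 * (x.p.M0 + g)) = g := by
    unfold gi
    omega
  have g2 : x.gi j (x.bl j + 2 * (x.p.M0 + g) + 1) = g + 1 := by
    unfold gi
    omega
  rw [lb, lb, g1, g2, hl]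
  have hpm : ∀ c, x.p.M0 + g = x.pm c → g = 1 ∧ ∃ d, c = x.gl d := fun c q1 => by
    rcases c with (c | c) | c | c | c | c <;> simp only [pm, Sum.elim_inl, Sum.elim_inr] at q1
    · have := c.2
      omega
    · have := c.2
      omega
    · omega
    · exact ⟨by omega, c, rfl⟩
    · omega
    · omega
  by_cases a : g = 1
  · subst a
    have hlg : x.lg j := by
      by_contra q
      rw [x.sl_sh q] at ho
      omega
    have key : x.rv j (x.bl j + 2 * (x.p.M0 + 1) + 1) (x.gl (x.cg j)) =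
        x.rv j (x.bl j + 2 * (x.p.M0 + 1)) (x.gl (x.cg j)) + x.xi j := by
      show x.Fg j _ _ + _ = x.Fg j _ _ + _ + _
      rw [Cx.Fg, Cx.Fg, sum_range_succ, Cx.dm, if_pos ⟨h1, h2, h3⟩, add_zero, Cx.iv, Cx.iv,
        if_pos (Nat.lt_succ_self _), if_neg (lt_irrefl _), div_step _ _ _ (x.res_lt _),
        if_pos (x.sw_gl.2 ⟨hlg, rfl⟩), xi, add_zero, add_assoc, ← add_assoc (x.bG _ _),
        CharTwo.add_self_eq_zero, zero_add]
    rcases one_flip (x.gl (x.cg j)) (fun c hc => hr c fun q => hc (by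
      obtain ⟨-, d, rfl⟩ := hpm c (by omega)
      rw [(x.sw_gl.1 q.2).2])) with q | q
    · rw [key, add_eq_left] at q
      exact Or.inl ⟨by rw [q.1, zero_smul, zero_smul], q.2⟩
    · rw [key, add_right_inj] at q
      refine Or.inr (Or.inr ⟨_, ?_, q.2⟩)
      rw [q.1, one_smul, one_smul, (x.gd _).r1, add_assoc]
      rfl
  · have k : x.rv j (x.bl j + 2 * (x.p.M0 + g) + 1) = x.rv j (x.bl j + 2 * (x.p.M0 + g)) :=
      funext fun c => hr c fun q => a (hpm c (by omega)).1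
    rcases z2 (x.xi j) with q | q
    · exact Or.inl ⟨by rw [q, zero_smul, zero_smul], k⟩
    rcases (x.gd (x.cg j)).rs g a with r | ⟨b, r⟩
    · exact Or.inl ⟨by rw [r], k⟩
    · exact Or.inr (Or.inl ⟨b, by rw [r, q, one_smul, one_smul, add_assoc], k⟩)

theorem lb_low {j o : ℕ} (h : o ≤ x.bl j + 2 * x.p.M0) : x.lb j o = x.l0 j o := by
  rw [lb, show x.gi j o = 0 by unfold gi; omega, (x.gd _).r0, smul_zero, add_zero]

theorem glue_lb (j : ℕ) : x.lb j (x.sl j) = x.lb (j + 1) 0 := by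
  rw [x.lb_low (Nat.zero_le _), x.l0_bl (x.S.bl1 _), ← x.l0_end (le_refl (x.sl j))]
  by_cases h : x.lg j
  · rw [lb, show x.gi j (x.sl j) = x.p.Mg by rw [x.sl_lg h]; unfold gi; omega, (x.gd _).rM,
      smul_zero, add_zero]
  · exact x.lb_low (x.sl_sh h).le

theorem glue_iv (pm D r j : ℕ) (h : x.bl j + 2 * pm < x.sl j) :
    x.iv pm D r j (x.sl j) = x.iv pm D r (j + 1) 0 := by
  rw [Cx.iv, Cx.iv, if_pos h, if_neg (by omega)]

theorem glue_rv (j : ℕ) : x.rv j (x.sl j) = x.rv (j + 1) 0 := by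
  have h1 := x.sl_ge j
  have h2 := x.M0e
  funext c
  rcases c with (c | c) | c | c | c | c
  · have := c.2
    simp only [rv, rk, Sum.elim_inl]
    rw [if_pos (by omega), if_neg (Nat.not_lt_zero _)]
  · have := c.2
    simp only [rv, rk, Sum.elim_inl, Sum.elim_inr]
    rw [if_pos (by omega), if_neg (Nat.not_lt_zero _)]
  · exact congrArg (x.bS c) (x.glue_iv _ _ _ _ (by omega))
  · show x.Fg j (x.sl j) c + _ = x.Fg (j + 1) 0 c + _
    congr 1
    · simp [Cx.Fg, Cx.Fs]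
    congr 1
    by_cases h : x.lg j
    · refine x.glue_iv _ _ _ _ ?_
      rw [x.sl_lg h, Pm.Mg]
      omega
    · rw [Cx.iv, Cx.iv, if_neg (by rw [x.sl_sh h]; omega), if_neg (by omega), add_zero, add_zero,
        div_step _ _ _ (x.res_lt c), if_neg fun q => h (x.sw_gl.1 q).1, add_zero]
  · exact congrArg (x.b1 c) (x.glue_iv _ _ _ _ (by omega))
  · exact congrArg (x.b2 c) (x.glue_iv _ _ _ _ (by omega))

end Cy

end Pool.Agent.Work.MP_ede3c6_co.W
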