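import Pool.Agent.Work.MP_ede3c6_co.W.P2

/-! The layouts, the class of a spine vertex, and injectivity on the spine. -/

set_option autoImplicit false

namespace Pool.Agent.Work.MP_ede3c6_co.W

open Finset Vol

theorem cast_two {a b : ℕ} (ha : a < 2) (hb : b < 2)
    (h : ((1 + a : ℕ) : ZMod 2) = ((1 + b : ℕ) : ZMod 2)) : a = b := by
  have := (ZMod.natCast_eq_natCast_iff' _ _ _).1 h
  omega

namespace Cy
variable (x : Cy)

/-- all classes -/
abbrev Cl : Type := x.A.Cl ⊕ (ℕ × ℕ × ZMod 2)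

open Classical in
/-- special values -/
noncomputable def us (c : Fin x.p.G) (Z : V x.p.Zn) (π : ZMod 2) : V (Fin x.p.t) :=
  if h : ∃ q : ℕ × ℕ, q.1 < x.p.Mg ∧ q.2 < 2 ∧ (x.gd c).az q.1 q.2 = Z ∧
    ((1 + q.2 : ℕ) : ZMod 2) = π then uo ((x.gd c).rho (h.choose.1 + h.choose.2)) else 0

theorem us_az (c : Fin x.p.G) {g o : ℕ} (hg : g < x.p.Mg) (ho : o < 2) :
    x.us c ((x.gd c).az g o) ((1 + o : ℕ) : ZMod 2) = uo ((x.gd c).rho (g + o)) := by
  have h : ∃ q : ℕ × ℕ, q.1 < x.p.Mg ∧ q.2 < 2 ∧ (x.gd c).az q.1 q.2 = (x.gd c).az g o ∧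
    ((1 + q.2 : ℕ) : ZMod 2) = ((1 + o : ℕ) : ZMod 2) := ⟨(g, o), hg, ho, rfl, rfl⟩
  obtain ⟨h1, h2, h3, h4⟩ := h.choose_spec
  rw [us, dif_pos h, (x.gd c).ia _ h1 _ hg _ h2 _ ho h3, cast_two h2 ho h4]

theorem us_std (c : Fin x.p.G) {Z : V x.p.Zn} (h : x.p.Std Z) (π : ZMod 2) : x.us c Z π = 0 :=
  dif_neg fun ⟨_, _, _, q, _⟩ => (x.gd c).na _ _ (q ▸ h)

theorem us_bz (c : Fin x.p.G) {g : ℕ} (hg : g < x.p.Mg) (π : ZMod 2) :
    x.us c ((x.gd c).bz g) π = 0 :=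
  dif_neg fun ⟨_, a, b, q, _⟩ => (x.gd c).iab _ a _ hg _ b q

/-- zone of a gadget class -/
def gz (c : Fin x.p.G) (q : ℕ × ℕ × ZMod 2) : V x.p.Zn :=
  if q.2.2 = 0 then (x.gd c).bz q.1 else (x.gd c).az q.1 q.2.1

theorem gz_ns (c : Fin x.p.G) (q : ℕ × ℕ × ZMod 2) : ¬ x.p.Std (x.gz c q) := by
  unfold gz
  split_ifs
  exacts [(x.gd c).nb _, (x.gd c).na _ _]

theorem top : ¬ x.I.rd x.p.Am < aS x.p.t x.p.mu :=
  not_lt.2 (le_trans (Nat.le_mul_of_pos_right _ (Nat.two_pow_pos _)) (x.I.rd1 _ le_rfl))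

/-- the layout that belongs to the direction `c` -/
noncomputable def lay (c : Fin x.p.G) : Lay x.I x.p.Zn x.Cl where
  ok := Sum.elim x.A.ok fun q => q.1 < x.p.Mg ∧ q.2.1 < 2
  ty := Sum.elim x.A.ty fun _ => x.I.rd x.p.Am
  pr := Sum.elim x.A.pr fun q => ((1 + q.2.1 : ℕ) : ZMod 2)
  rz := Sum.elim x.A.rz fun q _ => x.gz c q
  dl := Sum.elim 0 fun q => q.2.2 • zz ((x.gd c).rho (q.1 + q.2.1))
  us := x.us c
  tyT := by
    rintro (y | y) h
    exacts [x.A.tyT y h, x.I.rdT _ le_rfl]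
  inj := by
    rintro (y | y) (z | z) r r' hy hz h1 h2 h3 h4
    · obtain ⟨rfl, rfl⟩ := x.A.inj y z r r' hy hz h1 h2 h3 h4
      exact ⟨rfl, rfl⟩
    · exact absurd ((show x.A.rz y r = x.gz c z from h3) ▸ x.A.rzA y r hy h1) (x.gz_ns c z)
    · exact absurd ((show x.gz c y = x.A.rz z r' from h3).symm ▸ x.A.rzA z r' hz h2) (x.gz_ns c y)
    · obtain ⟨g, o, s⟩ := y
      obtain ⟨g', o', s'⟩ := z
      simp only [Sum.elim_inr, vr, rp, x.top, false_and, if_false, add_left_inj,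
        gz] at hy hz h1 h2 h3 h4
      obtain rfl := cast_two hy.2 hz.2 h4
      refine ⟨?_, by omega⟩
      rcases z2 s with rfl | rfl <;> rcases z2 s' with rfl | rfl
      · simp only [if_true] at h3
        rw [(x.gd c).ib _ hy.1 _ hz.1 h3]
      · simp only [if_true, one_ne_zero, if_false] at h3
        exact absurd h3.symm ((x.gd c).iab _ hz.1 _ hy.1 _ hz.2)
      · simp only [if_true, one_ne_zero, if_false] at h3
        exact absurd h3 ((x.gd c).iab _ hy.1 _ hz.1 _ hz.2)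
      · simp only [one_ne_zero, if_false] at h3
        rw [(x.gd c).ia _ hy.1 _ hz.1 _ hy.2 _ hz.2 h3]

/-- class of a vertex -/
def cl (j o : ℕ) : x.Cl :=
  if o < x.bl j then Sum.inl (x.A.cm j o) else
  if o < x.bl j + 2 * x.p.M0 then Sum.inl (x.A.cj j ((o - x.bl j) / 2) ((o - x.bl j) % 2)) else
  Sum.inr ((o - x.bl j) / 2 - x.p.M0, (o - x.bl j) % 2,
    x.xi j * (x.gd (x.cg j)).fl (x.gi j o))

theorem lg_of {j o : ℕ} (h1 : x.bl j + 2 * x.p.M0 ≤ o) (h2 : o < x.sl j) : x.lg j := by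
  by_contra q
  rw [x.sl_sh q] at h2
  omega

theorem sv_gd {j o : ℕ} (hj : j < x.J) (h1 : x.bl j + 2 * x.p.M0 ≤ o) (h2 : o < x.sl j) :
    x.sv x.bS j o = x.enc (x.cg j) := by
  funext c
  have := x.M0e
  rw [← x.pre j hj (x.lg_of h1 h2) c, Cx.sv, Cx.iv, if_pos (by omega)]

theorem mx_le (j : ℕ) : x.S.mx j ≤ x.p.Am := x.S.avl j ▸ x.S.avM _ _

theorem zs_mem {j : ℕ} (hj : j < x.J) (h : aS x.p.t x.p.mu ≤ x.I.rd (x.S.mx j)) :
    x.zs j + 0 ∈ x.I.Dz (x.I.rd (x.S.mx j)) := by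
  have h1 := x.S.bl1 j
  have := (x.A.cm1 j hj.le (x.bl j - 1) (by unfold Cx.bl; omega)).2.2.2.2.2
  rw [x.S.avl] at this
  exact (this h).2

theorem zt_mem {j : ℕ} (hj : j < x.J) (h : aS x.p.t x.p.mu ≤ x.I.rd (x.S.mx j)) :
    x.zt j + 0 ∈ x.I.Dz (x.I.rd (x.S.mx j)) := by
  have := (x.A.cm1 (j + 1) hj 0 (x.S.bl1 _)).2.2.2.2.2
  rw [x.S.avf] at this
  exact (this h).2

theorem site {j o : ℕ} (hj : j < x.J) (ho : o < x.sl j) :
    (x.lay (x.dec (x.sv x.bS j o))).St (x.cl j o) (x.lb j o) ∧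
    (x.lay (x.dec (x.sv x.bS j o))).pr (x.cl j o) = ((x.S.bs j + o : ℕ) : ZMod 2) ∧
    (x.S.bs j + o < x.k → x.a (x.S.bs j + o) ≤ (x.lay (x.dec (x.sv x.bS j o))).ty (x.cl j o)) := by
  by_cases h1 : o < x.bl j
  · obtain ⟨a1, a2, a3, a4⟩ := x.A.cm1 j hj.le o h1
    rw [cl, if_pos h1, x.lb_low (by omega), x.l0_bl h1]
    refine ⟨⟨a1, ?_⟩, a3, fun h => ?_⟩
    · show x.I.Site (x.A.ty _) (x.A.rz _ 0) (x.us _ (x.A.rz _ 0) _) 0 _
      rw [x.us_std _ (x.A.rzA _ 0 a1 (vr_zero _)), a2]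
      exact a4
    · show _ ≤ x.A.ty _
      rw [a2]
      exact (x.S.cv1 j o h1 h).trans (x.I.rd1 _ (x.S.avM _ _))
  obtain ⟨q, rfl⟩ : ∃ q, o = x.bl j + q := ⟨o - x.bl j, by omega⟩
  have hc : x.S.bs j + (x.bl j + q) < x.k →
      x.a (x.S.bs j + (x.bl j + q)) ≤ x.I.rd (x.S.mx j) := fun h => by
    rw [← add_assoc] at h ⊢
    exact (x.S.cv2 j q (by unfold Cx.sl at ho; omega) h).trans (x.I.rd1 _ (x.mx_le j))
  by_cases h2 : x.bl j + q < x.bl j + 2 * x.p.M0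
  · obtain ⟨a1, a2, a3, a4⟩ := x.A.cj1 j hj (q / 2) (by omega) (q % 2) (by omega)
    rw [cl, if_neg h1, if_pos h2, x.lb_low (by omega), x.l0_st (by omega) h2,
      Nat.add_sub_cancel_left]
    refine ⟨⟨a1, ?_⟩, a3.trans ?_, fun h => ?_⟩
    · show x.I.Site (x.A.ty _) (x.A.rz _ 0) (x.us _ (x.A.rz _ 0) _) 0 _
      rw [x.us_std _ (x.A.rzA _ 0 a1 (vr_zero _)), a2, a4]
      refine ⟨rfl, fun h => ?_, fun h => ⟨?_, ?_⟩⟩
      · rw [uo_mk, Cx.ud, if_pos h]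
        exact fun k => one_ne_zero (congrFun k ⟨0, x.ok.t0⟩)
      · rw [uo_mk, Cx.ud, if_neg (by omega)]
      · rw [zz_mk]
        split_ifs
        exacts [x.zs_mem hj h, x.zt_mem hj h]
    · refine (ZMod.natCast_eq_natCast_iff' _ _ _).2 ?_
      unfold Cx.bl
      omega
    · show _ ≤ x.A.ty _
      rw [a2]
      exact hc h
  have hl := x.lg_of (not_lt.1 h2) ho
  obtain ⟨m1, m2⟩ := x.S.lgM j hl
  have hs := x.sl_lg hl
  obtain ⟨g, o, o2, rfl⟩ : ∃ g o, o < 2 ∧ q = 2 * (x.p.M0 + g) + o :=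
    ⟨q / 2 - x.p.M0, q % 2, by omega, by omega⟩
  have hg : g < x.p.Mg := by omega
  have zm := x.zt_mem hj (m1 ▸ not_lt.1 x.top)
  rw [m1] at zm hc
  rw [x.sv_gd hj (not_lt.1 h2) ho, x.hdec, cl, if_neg h1, if_neg h2, lb,
    x.l0_gd (not_lt.1 h2) ho, Nat.add_sub_cancel_left,
    show (2 * (x.p.M0 + g) + o) / 2 - x.p.M0 = g by omega,
    show (2 * (x.p.M0 + g) + o) % 2 = o by omega,
    show x.gi j (x.bl j + (2 * (x.p.M0 + g) + o)) = g + o by unfold gi; omega]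
  refine ⟨⟨⟨hg, o2⟩, ?_⟩, ?_, hc⟩
  · show x.I.Site (x.I.rd x.p.Am) (x.gz _ _) (x.us _ (x.gz _ _) ((1 + o : ℕ) : ZMod 2))
      ((_ : ZMod 2) • zz ((x.gd _).rho (g + o))) _
    rcases z2 (x.xi j * (x.gd (x.cg j)).fl (g + o)) with r | r
    · have : x.xi j • (x.gd (x.cg j)).rho (g + o) = 0 := by
        rcases mul_eq_zero.1 r with r | r
        · rw [r, zero_smul]
        · rw [(x.gd _).f0 _ (by omega) r, smul_zero]
      rw [this, r, add_zero, zero_smul, gz, if_pos rfl, x.us_bz _ hg]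
      exact ⟨rfl, fun h => absurd h x.top, fun _ => ⟨rfl, zm⟩⟩
    · have k : ∀ a b : ZMod 2, a * b = 1 → a = 1 ∧ b = 1 := by decide
      obtain ⟨r1, r2⟩ := k _ _ r
      rw [r, r1, one_smul, one_smul, gz, if_neg one_ne_zero, x.us_az _ hg o2]
      refine ⟨((x.gd _).fa g o r2).symm, fun h => absurd h x.top, fun _ => ⟨zero_add _, ?_⟩⟩
      rw [zz_add, zz_mk, add_assoc, vv]
      exact zm
  · refine (ZMod.natCast_eq_natCast_iff' _ _ _).2 ?_
    unfold Cx.bl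
    show (1 + o) % 2 = _
    omega

theorem iv_eq (pm D r j : ℕ) {o o' : ℕ} (h : x.bl j + 2 * pm < o ↔ x.bl j + 2 * pm < o') :
    x.iv pm D r j o = x.iv pm D r j o' := by
  rw [Cx.iv, Cx.iv, if_congr h rfl rfl]

theorem triv_eq (j : ℕ) {o o' : ℕ} (h : ∀ i < 3, x.bl j + 2 * (2 * x.p.hh + i) < o ↔
    x.bl j + 2 * (2 * x.p.hh + i) < o') : x.sv x.bS j o = x.sv x.bS j o' ∧
    x.v1 x.b1 j o = x.v1 x.b1 j o' ∧ x.v2 x.b2 j o = x.v2 x.b2 j o' :=
  ⟨funext fun c => congrArg (x.bS c) (x.iv_eq _ _ _ _ (h 0 (by omega))),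
    funext fun c => congrArg (x.b1 c) (x.iv_eq _ _ _ _ (h 1 (by omega))),
    funext fun c => congrArg (x.b2 c) (x.iv_eq _ _ _ _ (h 2 (by omega)))⟩

theorem rv_inj {j o j' o' : ℕ} (h : x.rv j o = x.rv j' o') : x.rk j o = x.rk j' o' ∧
    x.sv x.bS j o = x.sv x.bS j' o' ∧ x.gv x.bG j o = x.gv x.bG j' o' ∧
    x.v1 x.b1 j o = x.v1 x.b1 j' o' ∧ x.v2 x.b2 j o = x.v2 x.b2 j' o' :=
  ⟨funext fun c => congrFun h (Sum.inl c), funext fun c => congrFun h (Sum.inr (Sum.inl c)),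
    funext fun c => congrFun h (x.gl c),
    funext fun c => congrFun h (Sum.inr (Sum.inr (Sum.inr (Sum.inl c)))),
    funext fun c => congrFun h (Sum.inr (Sum.inr (Sum.inr (Sum.inr c))))⟩

theorem cell_eq {j j' u : ℕ} (h0 : x.key (j, u) = x.key (j', u))
    (h1 : x.sv x.bS j (x.so j u) = x.sv x.bS j' (x.so j' u))
    (h2 : x.gv x.bG j (x.so j u) = x.gv x.bG j' (x.so j' u))
    (h3 : x.v1 x.b1 j (x.so j u) = x.v1 x.b1 j' (x.so j' u))
    (h4 : x.v2 x.b2 j (x.so j u) = x.v2 x.b2 j' (x.so j' u)) :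
    x.cell x.bS x.bG x.b1 x.b2 (j, u) = x.cell x.bS x.bG x.b1 x.b2 (j', u) := by
  simp only [Cx.cell, h0, h1, h2, h3, h4]

theorem Fg_add (j o q : ℕ) : x.Fg j (o + q) = x.Fg j o + ∑ r ∈ range q, x.dm j (o + r) := by
  rw [Cx.Fg, Cx.Fg, sum_range_add, add_assoc]

theorem lo_eq {j o j' o' : ℕ} (h : x.rk j o = x.rk j' o') (h1 : x.bl j + 2 * x.p.hh ≤ o + 1)
    (h2 : x.bl j' + 2 * x.p.hh ≤ o' + 1) : x.lo (j + 1) = x.lo (j' + 1) := by
  funext c
  have := congrFun h (Sum.inl c)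
  have hc := c.2
  simp only [rk, Sum.elim_inl] at this
  rwa [if_pos (by omega), if_pos (by omega)] at this

theorem hi_eq {j o j' o' : ℕ} (h : x.rk j o = x.rk j' o') (h1 : o ≤ x.bl j + 2 * x.p.hh)
    (h2 : o' ≤ x.bl j' + 2 * x.p.hh) : x.hi j = x.hi j' := by
  funext c
  have := congrFun h (Sum.inr c)
  simp only [rk, Sum.elim_inr] at this
  rwa [if_neg (by omega), if_neg (by omega)] at this

theorem inj_bl {j j' o : ℕ} (hj : j < x.J) (hj' : j' < x.J) (ho : o < x.bl j) (ho' : o < x.bl j')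
    (ht : x.A.tk j = x.A.tk j') (h : x.rv j o = x.rv j' o) : j = j' := by
  by_contra hne
  obtain ⟨r0, r1, r2, r3, r4⟩ := x.rv_inj h
  obtain ⟨a1, a3, a4⟩ := x.triv_eq j (o := o) (o' := 0) fun i _ => by omega
  obtain ⟨b1, b3, b4⟩ := x.triv_eq j' (o := o) (o' := 0) fun i _ => by omega
  have ks : 0 < x.p.ks := by
    unfold Pm.ks
    omega
  have hg : ∀ i, o < x.bl i → x.gv x.bG i o = x.gv x.bG i 0 + ∑ r ∈ range o, x.dm i r :=
    fun i hi => funext fun c => by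
      have := x.Fg_add i 0 o
      simp only [zero_add] at this
      rw [Pi.add_apply, Cx.gv, Cx.gv, this, Pi.add_apply, add_right_comm,
        x.iv_eq _ _ _ i (o := o) (o' := 0) (by omega)]
  have hs : ∑ r ∈ range o, x.dm j r = ∑ r ∈ range o, x.dm j' r := sum_congr rfl fun r hr => by
    have := mem_range.1 hr
    rw [Cx.dm, Cx.dm, if_neg fun q => by have := q.1; omega, if_neg fun q => by have := q.1; omega,
      x.l0_bl (by omega), x.l0_bl (by omega), x.l0_bl (by omega), x.l0_bl (by omega),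
      x.A.tk1 j hj.le j' hj'.le ht, x.A.tk1 j hj.le j' hj'.le ht]
  rw [hg j ho, hg j' ho', hs] at r2
  refine (x.rnk j j' 0 (x.mem_X.2 ⟨hj, ks, Or.inl (Nat.zero_le _)⟩)
    (x.mem_X.2 ⟨hj', ks, Or.inl (Nat.zero_le _)⟩) (x.cell_eq (by simp [Cx.key, ht])
      (a1.symm.trans (r1.trans b1)) (add_right_cancel r2) (a3.symm.trans (r3.trans b3))
      (a4.symm.trans (r4.trans b4))) hne).1 rfl ⟨?_, x.hi_eq r0 (by omega) (by omega)⟩
  funext c
  have := congrFun r0 (Sum.inl c)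
  simp only [rk, Sum.elim_inl] at this
  rwa [if_neg (by omega), if_neg (by omega)] at this

theorem inj_st {j j' q : ℕ} (hj : j < x.J) (hj' : j' < x.J) (hq : q < 2 * x.p.M0)
    (hc : x.A.cj j (q / 2) (q % 2) = x.A.cj j' (q / 2) (q % 2))
    (hl : x.l0 j (x.bl j + q) = x.l0 j' (x.bl j' + q))
    (h : x.rv j (x.bl j + q) = x.rv j' (x.bl j' + q)) : j = j' := by
  by_contra hne
  obtain ⟨r0, r1, r2, r3, r4⟩ := x.rv_inj h
  have so : ∀ i, x.so i (q + 1) = x.bl i + q := fun i => by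
    rw [Cx.so, if_neg (by omega), if_pos (by omega), Nat.add_sub_cancel]
  have ks : q + 1 < x.p.ks := by
    unfold Pm.ks
    omega
  have hz := congrArg zz hl
  obtain ⟨-, k1, k2⟩ := x.rnk j j' (q + 1) (x.mem_X.2 ⟨hj, ks, Or.inl hq⟩)
    (x.mem_X.2 ⟨hj', ks, Or.inl hq⟩) (x.cell_eq (by
      simp only [Cx.key, Nat.add_sub_cancel, hc, Nat.succ_ne_zero, if_false]
      congr 5
      by_cases k : q + 1 < 2 * x.p.M0
      · rw [x.zz_l0_lo (by omega) (by omega), x.zz_l0_lo (by omega) (by omega)] at hz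
        rw [if_pos k, if_pos k, hz]
      · rw [x.zz_l0_hi (by omega), x.zz_l0_hi (by omega)] at hz
        rw [if_neg k, if_neg k, hz])
      (by rw [so, so, r1]) (by rw [so, so, r2]) (by rw [so, so, r3]) (by rw [so, so, r4])) hne
  by_cases k : (q + 1) / 2 ≤ x.p.hh
  · exact k1 (by omega) k (x.hi_eq r0 (by omega) (by omega))
  · exact k2 (by omega) (x.lo_eq r0 (by omega) (by omega))

theorem gv_gd {j : ℕ} (hl : x.lg j) (q : ℕ) (d : Fin x.p.G) :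
    x.gv x.bG j (x.bl j + 2 * x.p.M0 + q) d = x.gv x.bG j (x.bl j + 2 * x.p.M0) d +
      (∑ r ∈ range q, x.dm j (x.bl j + 2 * x.p.M0 + r)) d +
      if 2 < q ∧ x.cg j = d then x.xi j else 0 := by
  rw [Cx.gv, Cx.gv, x.Fg_add, Pi.add_apply, add_right_comm _ (x.bG d _), add_assoc _ (x.bG d _)]
  congr 1
  by_cases h : 2 < q
  · rw [Cx.iv, Cx.iv, if_pos (by omega), if_neg (by omega), add_zero, div_step _ _ _ (x.res_lt d)]
    by_cases k : x.cg j = d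
    · rw [if_pos (x.sw_gl.2 ⟨hl, k⟩), if_pos ⟨h, k⟩, xi, k, ← add_assoc,
        CharTwo.add_self_eq_zero, zero_add]
    · rw [if_neg fun z => k (x.sw_gl.1 z).2, if_neg fun z => k z.2, add_zero, add_zero]
  · rw [if_neg fun z => h z.1, add_zero]
    exact congrArg _ (x.iv_eq _ _ _ j (by omega))

theorem inj_gd {j j' q : ℕ} (hj : j < x.J) (hj' : j' < x.J) (hl : x.lg j) (hl' : x.lg j')
    (hq : q < 2 * x.p.Mg)
    (hc : x.xi j * (x.gd (x.cg j)).fl ((q + 1) / 2) = x.xi j' * (x.gd (x.cg j')).fl ((q + 1) / 2))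
    (h : x.rv j (x.bl j + 2 * x.p.M0 + q) = x.rv j' (x.bl j' + 2 * x.p.M0 + q)) : j = j' := by
  by_contra hne
  obtain ⟨r0, r1, r2, r3, r4⟩ := x.rv_inj h
  have s1 := x.sl_lg hl
  have s2 := x.sl_lg hl'
  have hM := x.M0e
  have H : ∀ u, 2 * x.p.M0 < u → u < x.p.ks →
      x.cell x.bS x.bG x.b1 x.b2 (j, u) ≠ x.cell x.bS x.bG x.b1 x.b2 (j', u) := fun u u1 u2 k =>
    (x.rnk j j' u (x.mem_X.2 ⟨hj, u2, Or.inr hl⟩) (x.mem_X.2 ⟨hj', u2, Or.inr hl'⟩) k hne).2.2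
      (by omega) (x.lo_eq r0 (by omega) (by omega))
  have K : ∀ u, 2 * x.p.M0 < u → x.key (j, u) = x.key (j', u) := fun u u1 => by
    simp only [Cx.key]
    rw [if_neg (by omega), if_neg (by omega), if_neg (by omega), if_neg (by omega)]
  by_cases h1 : q + 1 = 2 * x.p.Mg
  · have so : ∀ i, x.lg i → x.so i (2 * x.p.M0 + 2) = x.bl i + 2 * x.p.M0 + q := fun i hi => by
      rw [Cx.so, if_neg (by omega), if_neg (by omega), x.sl_lg hi]
      omega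
    exact H (2 * x.p.M0 + 2) (by omega) (by unfold Pm.ks; omega) (x.cell_eq (K _ (by omega))
      (by rw [so j hl, so j' hl', r1]) (by rw [so j hl, so j' hl', r2])
      (by rw [so j hl, so j' hl', r3]) (by rw [so j hl, so j' hl', r4]))
  have so : ∀ i, x.so i (2 * x.p.M0 + 1) = x.bl i + 2 * x.p.M0 := fun i => by
    rw [Cx.so, if_neg (by omega), if_pos (by omega), Nat.add_sub_cancel]
  obtain ⟨a1, a3, a4⟩ := x.triv_eq j (o := x.bl j + 2 * x.p.M0 + q) (o' := x.bl j + 2 * x.p.M0)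
    fun i _ => by omega
  obtain ⟨b1, b3, b4⟩ := x.triv_eq j' (o := x.bl j' + 2 * x.p.M0 + q)
    (o' := x.bl j' + 2 * x.p.M0) fun i _ => by omega
  have hcg : x.cg j = x.cg j' := by
    rw [x.sv_gd hj (by omega) (by omega), x.sv_gd hj' (by omega) (by omega)] at r1
    rw [← x.hdec (x.cg j), r1, x.hdec]
  refine H (2 * x.p.M0 + 1) (by omega) (by unfold Pm.ks; omega) (x.cell_eq (K _ (by omega))
    (by rw [so, so, ← a1, r1, b1]) ?_ (by rw [so, so, ← a3, r3, b3]) (by rw [so, so, ← a4, r4, b4]))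
  rw [so, so]
  funext d
  have k := congrFun r2 d
  have hs : ∑ r ∈ range q, x.dm j (x.bl j + 2 * x.p.M0 + r) =
      ∑ r ∈ range q, x.dm j' (x.bl j' + 2 * x.p.M0 + r) := sum_congr rfl fun r hr => by
    have := mem_range.1 hr
    rw [Cx.dm, Cx.dm]
    refine if_congr (by unfold Cx.sp; omega) rfl ?_
    rw [x.l0_gd (by omega) (by omega), x.l0_gd (by omega) (by omega),
      x.l0_gd (by omega) (by omega), x.l0_gd (by omega) (by omega), hcg]
    congr 2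
    refine lab_ext ?_ rfl (by simp only [zz_add, zz_mk, vv])
    simp only [zo_add, zo_mk]
    congr 2 <;> omega
  rw [x.gv_gd hl, x.gv_gd hl', hs, ← hcg] at k
  have hx : (if 2 < q ∧ x.cg j = d then x.xi j else 0) =
      if 2 < q ∧ x.cg j = d then x.xi j' else 0 := by
    split_ifs with z
    · rwa [(x.gd _).f1 _ (by omega) (by omega), (x.gd _).f1 _ (by omega) (by omega), mul_one,
        mul_one] at hc
    · rfl
  rw [hx] at k
  exact add_right_cancel (add_right_cancel k)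

theorem inj {j j' o o' : ℕ} (hj : j < x.J) (hj' : j' < x.J) (ho : o < x.sl j) (ho' : o' < x.sl j')
    (hc : x.cl j o = x.cl j' o') (hl : x.lb j o = x.lb j' o') (h : x.rv j o = x.rv j' o') :
    j = j' ∧ o = o' := by
  unfold cl at hc
  split_ifs at hc with a1 a2 a3 a4 a5 a6 a7 a8 
  · rw [x.lb_low (by omega), x.lb_low (by omega), x.l0_bl a1, x.l0_bl a2] at hl
    obtain ⟨rfl, k⟩ := x.A.cm2 j hj.le j' hj'.le o a1 o' a2 (Sum.inl.inj hc) hl
    exact ⟨x.inj_bl hj hj' a1 a2 k h, rfl⟩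
  · exact absurd (Sum.inl.inj hc) (x.A.cj3 _ _ _ _ _)
  · exact absurd (Sum.inl.inj hc).symm (x.A.cj3 _ _ _ _ _)
  · obtain ⟨k1, k2⟩ := x.A.cj2 _ _ _ _ _ _ (Sum.inl.inj hc)
    obtain ⟨q, rfl⟩ : ∃ q, o = x.bl j + q := ⟨o - x.bl j, by omega⟩
    obtain rfl : o' = x.bl j' + q := by omega
    rw [x.lb_low (by omega), x.lb_low (by omega)] at hl
    simp only [Nat.add_sub_cancel_left] at hc
    obtain rfl := x.inj_st hj hj' (by omega) (Sum.inl.inj hc) hl h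
    exact ⟨rfl, rfl⟩
  · simp only [Sum.inr.injEq, Prod.mk.injEq] at hc
    obtain ⟨k1, k2, k3⟩ := hc
    have l1 := x.lg_of (not_lt.1 a4) ho
    have l2 := x.lg_of (not_lt.1 a8) ho'
    obtain ⟨q, rfl⟩ : ∃ q, o = x.bl j + 2 * x.p.M0 + q := ⟨o - (x.bl j + 2 * x.p.M0), by omega⟩
    obtain rfl : o' = x.bl j' + 2 * x.p.M0 + q := by omega
    rw [show x.gi j (x.bl j + 2 * x.p.M0 + q) = (q + 1) / 2 by unfold gi; omega,
      show x.gi j' (x.bl j' + 2 * x.p.M0 + q) = (q + 1) / 2 by unfold gi; omega] at k3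
    obtain rfl := x.inj_gd hj hj' l1 l2 (by rw [x.sl_lg l1] at ho; omega) k3 h
    exact ⟨rfl, rfl⟩

end Cy

end Pool.Agent.Work.MP_ede3c6_co.W
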