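import Pool.Agent.Work.MP_ede3c6_co.W.Base

/-! Choice of the parameters.

PLAN. `η = ε / 20`. Constants: `μ0 ≥ max m0 (1 / η)`, `2 ^ t1 ≥ 1 / η`, `2 ^ t ≥ 2 ^ (2 μ0) / η`.
`l = log 2 n`, `ν = log 2 l`, `y = log 2 ν` (all tend to infinity); `hh = 2 y`, `X = 2 ^ hh ≤ ν ^ 2`,
`Kp = X ^ 3`, `K ≤ X ^ 4 ≤ ν ^ 8`, `H = (2 ν + 10) (2 K)`, `s = l + 1`, `P' = n ^ 6`,
`P = s P' - 1`, `d1 = 9 (l + 1)`, `d2 = ν + hh + 8`, `kk` the largest number with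
`2 ^ t μ0 2 ^ kk ≤ (1 - 2 η) n`, `mu = ⌊(1 - 2 η) n / 2 ^ (t + kk)⌋` (so `μ0 ≤ mu < 2 μ0`),
`L0 = X ^ 2 - er - X ks (1 + er) - 1 ≥ (1 - η) X ^ 2`, `G` = the rest of `n`. Everything follows
from `C y ^ 2 ≤ 2 ^ y`, `C ν ^ 9 ≤ 2 ^ ν ≤ l`, `C l ^ 2 ≤ 2 ^ (l / 2)`, `C n ^ 9 ≤ 2 ^ n` for
large `n`: `nT ≤ 2 ^ (2 ν + 2)`, `nB ≤ (2 K + 1) 2 ^ (1 + (2 ν + 2) 2 K)`, `6 H ≤ l`,
`nD ≤ 2 ^ (3 H)`, `2 ^ nL ≤ n ^ 2`, `N k ≤ 2 ^ n / n ^ 6 + 1`, and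
`2 ^ (n - 1) = 2 ^ nL X ^ 2 Q`, so `nA L0 Q bin ≥ (1 - η) ^ 4 2 ^ (n - 1)`. -/

set_option autoImplicit false

namespace Pool.Agent.Work.MP_ede3c6_co.W

open Finset Vol

theorem Par_grow (C k : ℕ) : ∃ N : ℕ, ∀ x ≥ N, C * x ^ k ≤ 2 ^ x := by
  have h := (isLittleO_pow_const_const_pow_of_one_lt (R := ℝ) k (one_lt_two (α := ℝ))).def
    (c := 1 / (C + 1)) (by positivity)
  obtain ⟨N, hN⟩ := Filter.eventually_atTop.1 h
  refine ⟨N, fun x hx => ?_⟩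
  have := hN x hx
  rw [Real.norm_of_nonneg (by positivity), Real.norm_of_nonneg (by positivity), one_div,
    inv_mul_eq_div, le_div_iff₀ (by positivity)] at this
  have h3 : (C : ℝ) * x ^ k ≤ 2 ^ x := by nlinarith [pow_nonneg (Nat.cast_nonneg (α := ℝ) x) k]
  exact_mod_cast h3

theorem Par_mu {t μ0 A : ℕ} (h0 : 1 ≤ μ0) (h : 2 ^ t * μ0 ≤ A) : ∃ mu kk : ℕ, μ0 ≤ mu ∧
    mu < 2 * μ0 ∧ mu * 2 ^ (t + kk) ≤ A ∧ A < (mu + 1) * 2 ^ (t + kk) := by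
  have ha : 0 < 2 ^ t * μ0 := by positivity
  have hq : 0 < A / (2 ^ t * μ0) := Nat.div_pos h ha
  have h1 := Nat.pow_log_le_self 2 hq.ne'
  have h2 := Nat.lt_pow_succ_log_self one_lt_two (A / (2 ^ t * μ0))
  generalize Nat.log 2 (A / (2 ^ t * μ0)) = kk at h1 h2
  rw [Nat.le_div_iff_mul_le ha] at h1
  rw [Nat.div_lt_iff_lt_mul ha] at h2
  have hb : 0 < 2 ^ (t + kk) := by positivity
  refine ⟨A / 2 ^ (t + kk), kk, (Nat.le_div_iff_mul_le hb).2 (le_of_eq_of_le (by ring) h1),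
    (Nat.div_lt_iff_lt_mul hb).2 (lt_of_lt_of_eq h2 (by rw [Nat.succ_eq_add_one]; ring)),
    Nat.div_mul_le_self _ _, (Nat.div_lt_iff_lt_mul hb).1 (Nat.lt_succ_self _)⟩

/-- sizes of the iterated logarithms -/
structure Par_L (r t n l ν y : ℕ) : Prop where
  r4 : 4 ≤ r
  rt : r ≤ t
  y1 : 2 ^ y ≤ ν
  y2 : ν < 2 ^ (y + 1)
  ν1 : 2 ^ ν ≤ l
  ν2 : l < 2 ^ (ν + 1)
  l1 : 2 ^ l ≤ n
  l2 : n < 2 ^ (l + 1)
  hY : 16 * r * 2 ^ t * (8 * y + 11) ^ 2 ≤ 2 ^ y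
  hV : 36 * ν ^ 8 ≤ 2 ^ ν
  hL : 86 * l ^ 2 ≤ 2 ^ l
  hN : 4 * n ^ 8 ≤ 2 ^ n

theorem Par_L.b {r t n l ν y : ℕ} (h : Par_L r t n l ν y) : 2 ^ t ≤ 2 ^ y ∧ t ≤ y ∧
    8 * y + 11 ≤ 2 ^ y ∧ 36 * ν ^ 8 ≤ l ∧ ν ≤ l ∧ 86 * l ^ 2 ≤ n ∧ 86 * l ≤ n ∧ 11 ≤ ν := by
  have h4 := h.r4
  have a1 : 2 ^ t ≤ 2 ^ y := le_trans (by
    calc 2 ^ t = 1 * 2 ^ t * 1 := by ring
      _ ≤ 16 * r * 2 ^ t * (8 * y + 11) ^ 2 := by
        gcongr
        · omega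
        · exact Nat.one_le_pow _ _ (by omega)) h.hY
  have a2 : 8 * y + 11 ≤ 2 ^ y := le_trans (by
    calc 8 * y + 11 = 1 * 1 * (8 * y + 11) ^ 1 := by ring
      _ ≤ 16 * r * 2 ^ t * (8 * y + 11) ^ 2 := by
        gcongr
        · omega
        · exact Nat.one_le_two_pow
        · omega
        · omega) h.hY
  have a3 : ν ≤ l := (Nat.lt_two_pow_self.le).trans h.ν1
  have a4 : 11 ≤ ν := by linarith [h.y1]
  have a5 := h.hL.trans h.l1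
  refine ⟨a1, (Nat.pow_le_pow_iff_right (by norm_num)).1 a1, a2, h.hV.trans h.ν1, a3, a5, ?_, a4⟩
  exact le_trans (Nat.mul_le_mul_left _ (Nat.le_self_pow (by norm_num) l)) a5

/-- the choice of the parameters -/
structure Par_H (p : Pm) (r n l ν y : ℕ) : Prop extends Par_L r p.t n l ν y where
  t1 : p.t1 = r
  mu1 : r ≤ p.mu
  mu2 : p.mu + r ≤ p.t
  A1 : p.mu * 2 ^ (p.t + p.kk) + 2 * (n / r) ≤ n
  A2 : n < (p.mu + 1) * 2 ^ (p.t + p.kk) + 2 * (n / r)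
  hh : p.hh = 2 * y
  s : p.s = l + 1
  d1 : p.d1 = 9 * (l + 1)
  d2 : p.d2 = ν + 2 * y + 8
  P' : p.P' = n ^ 6
  P : p.P = (l + 1) * n ^ 6 - 1
  Kp : p.Kp = (2 ^ y) ^ 6
  H : p.H = (2 * ν + 10) * (2 * p.K)
  G : p.G = n - (1 + p.nL + (p.hh + p.hh + (p.s + (p.d1 + p.d2))))
  L0 : p.L0 = 2 ^ (p.hh + p.hh) - (p.er + 2 ^ p.hh * (p.ks * (1 + p.er)) + 1)

namespace Par_H
variable {p : Pm} {r n l ν y : ℕ} (h : Par_H p r n l ν y)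
include h

theorem M0 : p.M0 = 4 * y + 4 := by rw [Pm.M0, h.hh]; ring

theorem ks : p.ks = 8 * y + 11 := by rw [Pm.ks, h.M0]; ring

theorem X2 : 2 ^ (p.hh + p.hh) = (2 ^ y) ^ 4 := by rw [h.hh]; ring

theorem K : p.Kp ≤ p.K ∧ 8 * y + 10 ≤ p.K ∧ p.K ≤ ν ^ 7 := by
  have e : p.K = (8 * y + 10) * (2 ^ y) ^ 6 := by rw [Pm.K, h.M0, h.Kp]; ring
  obtain ⟨-, -, b3, -⟩ := h.b
  rw [e, h.Kp]
  refine ⟨Nat.le_mul_of_pos_left _ (by omega), Nat.le_mul_of_pos_right _ (by positivity), ?_⟩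
  calc (8 * y + 10) * (2 ^ y) ^ 6 ≤ ν * ν ^ 6 := by
        gcongr
        · linarith [h.y1]
        · exact h.y1
    _ = ν ^ 7 := by ring

theorem Hb : 6 * p.H ≤ l ∧ 2 * ν + 10 ≤ p.H ∧ 20 * p.K ≤ p.H := by
  obtain ⟨-, -, -, b4, -, -, -, b8⟩ := h.b
  obtain ⟨-, k2, k3⟩ := h.K
  rw [h.H]
  refine ⟨le_trans ?_ b4, Nat.le_mul_of_pos_right _ (by omega), by nlinarith⟩
  calc 6 * ((2 * ν + 10) * (2 * p.K)) ≤ 6 * ((3 * ν) * (2 * ν ^ 7)) := by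
        gcongr
        omega
    _ = 36 * ν ^ 8 := by ring

theorem kk : 2 ^ (p.t + p.kk) ≤ n ∧ p.kk ≤ l := by
  have a : 2 ^ (p.t + p.kk) ≤ n := le_trans (le_trans (Nat.le_mul_of_pos_left _
    (by linarith [h.r4, h.mu1])) (Nat.le_add_right _ _)) h.A1
  have := (Nat.pow_lt_pow_iff_right (by norm_num)).1 (a.trans_lt h.l2)
  exact ⟨a, by omega⟩

theorem nL : p.nL ≤ 2 * l := by
  obtain ⟨-, b2, -⟩ := h.b
  obtain ⟨-, k2, -⟩ := h.K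
  obtain ⟨c1, c2, c3⟩ := h.Hb
  have := h.kk.2
  have := h.mu2
  have := h.rt
  rw [Pm.nL, h.t1]
  omega

theorem er : r * (p.er + 2 ^ p.hh * (p.ks * (1 + p.er)) + 1) ≤ 2 ^ (p.hh + p.hh) := by
  obtain ⟨-, -, b3, -⟩ := h.b
  have y2 := h.y2
  have hY := h.hY
  have e1 : 2 ^ p.hh = (2 ^ y) ^ 2 := by rw [h.hh]; ring
  have t0 : 1 ≤ 2 ^ p.t := Nat.one_le_two_pow
  rw [h.X2, e1, Pm.er, h.ks, h.d2]
  rw [pow_succ] at y2
  generalize 2 ^ y = Y at *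
  generalize hk : 8 * y + 11 = k at *
  have a1 : 1 + (6 + 2 * ((ν + 2 * y + 8 + 1) * k)) ≤ 7 * (Y * k) := by
    have : (ν + 2 * y + 8 + 1) * k ≤ 3 * Y * k := Nat.mul_le_mul_right _ (by omega)
    have : Y * 1 ≤ Y * k := Nat.mul_le_mul_left _ (by omega)
    linarith
  have a2 : 1 ≤ Y ^ 2 * k := Nat.mul_pos (pow_pos (by omega) _) (by omega)
  generalize 6 + 2 * ((ν + 2 * y + 8 + 1) * k) = e at *
  calc r * (e + Y ^ 2 * (k * (1 + e)) + 1) = r * ((1 + e) * (1 + Y ^ 2 * k)) := by ring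
    _ ≤ r * (7 * (Y * k) * (2 * (Y ^ 2 * k))) := by
        gcongr
        omega
    _ = 14 * r * 1 * k ^ 2 * Y ^ 3 := by ring
    _ ≤ 16 * r * 2 ^ p.t * k ^ 2 * Y ^ 3 := by
        gcongr
        norm_num
    _ ≤ Y * Y ^ 3 := Nat.mul_le_mul_right _ hY
    _ = Y ^ 4 := by ring

/-- the quantities that are bounded in terms of the length of a stretch -/
theorem big : p.nD ≤ 2 ^ p.H * 2 ^ p.H ∧
    2 ^ (p.t1 + p.t1 + (p.H + 1) + p.t) ≤ 2 ^ p.H * 2 ^ p.H ∧ r ≤ 2 ^ p.H ∧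
    r * (2 * p.nB * (2 * p.K) * (aS p.t p.mu + 1) + p.M0 * (p.L0 * 2 ^ p.t *
      (4 * p.nB * (aS p.t p.mu + 1)) + 2 * p.nT * (aS p.t p.mu + 1))) ≤ p.nA := by
  obtain ⟨b1, b2, b3, -, -, -, -, b8⟩ := h.b
  obtain ⟨-, k2, -⟩ := h.K
  obtain ⟨-, c2, c3⟩ := h.Hb
  have r4 := h.r4
  have rt := h.rt
  have m2 := h.mu2
  have yν : y ≤ ν := Nat.lt_two_pow_self.le.trans h.y1
  have pw : ∀ {a b : ℕ}, a ≤ b → 2 ^ a ≤ 2 ^ b := fun hab => Nat.pow_le_pow_right (by norm_num) hab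
  have lt : ∀ {a b : ℕ}, a ≤ b → a + 1 ≤ 2 ^ b := fun hab =>
    le_trans Nat.lt_two_pow_self (pw hab)
  have m3 : p.mu + 1 ≤ 2 ^ p.t := lt (by omega)
  have a0 : aS p.t p.mu + 1 ≤ 2 ^ (p.t + p.t) := by
    rw [pow_add, aS]
    have : (2 ^ p.t - 1) * p.mu ≤ 2 ^ p.t * p.mu := Nat.mul_le_mul_right _ (Nat.sub_le _ _)
    have : 2 ^ p.t * (p.mu + 1) ≤ 2 ^ p.t * 2 ^ p.t := Nat.mul_le_mul_left _ m3
    have : 1 ≤ 2 ^ p.t := Nat.one_le_two_pow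
    linarith
  have a1 : p.nT ≤ 2 ^ (2 * ν + 2) := by
    have e1 : p.mu * (p.kk + 1) ≤ 2 ^ ν * 2 ^ (ν + 1) :=
      Nat.mul_le_mul (by linarith [lt (show p.mu ≤ ν by omega)]) (by linarith [h.kk.2, h.ν2])
    have e2 : 2 ^ (p.t + p.t) ≤ 2 ^ (ν + (ν + 1)) := pw (by omega)
    rw [← pow_add] at e1
    rw [Pm.nT, show 2 * ν + 2 = ν + (ν + 1) + 1 by ring, pow_succ]
    omega
  obtain ⟨U, hU⟩ : ∃ U, U = 2 ^ (2 * p.K) := ⟨_, rfl⟩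
  obtain ⟨Z, hZ⟩ : ∃ Z, Z = (2 ^ (2 * ν + 2)) ^ (2 * p.K) := ⟨_, rfl⟩
  have eH : 2 ^ p.H = U ^ 8 * Z := by
    rw [hU, hZ, h.H, ← pow_mul, ← pow_mul, ← pow_add]
    congr 1
    ring
  have U14 : 14 ≤ U := by linarith [lt (show 14 ≤ 2 * p.K by omega)]
  have u1 : aS p.t p.mu + 1 ≤ U := hU ▸ a0.trans (pw (by omega))
  have u2 : 2 * p.K + 1 ≤ U := hU ▸ lt le_rfl
  have u3 : p.M0 ≤ U := by rw [h.M0]; omega
  have u4 : p.L0 ≤ U := by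
    rw [h.L0, hU]
    exact (Nat.sub_le _ _).trans (pw (by rw [h.hh]; omega))
  have u5 : 2 ^ p.t ≤ U := hU ▸ pw (by omega)
  have u6 : r ≤ U := by omega
  have u7 : 2 ^ (p.t + p.mu) ≤ U := hU ▸ pw (by omega)
  have z1 : p.nT ≤ Z := hZ ▸ a1.trans (Nat.le_self_pow (by omega) _)
  have z2 : p.nB ≤ U * 2 * Z := by
    rw [Pm.nB, hZ]
    gcongr
  have z0 : 1 ≤ Z := hZ ▸ Nat.one_le_pow _ _ (by positivity)
  have n1 : p.nA ≤ U * (2 * 2 ^ p.H) := by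
    rw [Pm.nA, pow_succ', hU]
    refine Nat.mul_le_mul_right _ (le_trans (Nat.mul_le_mul (Nat.sub_le _ _) (Nat.sub_le _ _)) ?_)
    rw [← pow_add, h.t1]
    exact pw (by omega)
  have n2 : 2 ^ p.H ≤ p.nA := by
    have : 1 ≤ 2 ^ p.t1 - 1 := by
      have := lt (show 1 ≤ p.t1 by rw [h.t1]; omega)
      omega
    exact (pw (Nat.le_succ _)).trans (Nat.le_mul_of_pos_left _ (Nat.mul_pos this this))
  have U1 : 1 ≤ U := by omega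
  refine ⟨?_, ?_, by linarith [lt (show r ≤ p.H by omega)], le_trans ?_ n2⟩
  · rw [Pm.nD]
    calc p.nB * (2 * p.K) * (2 ^ (p.t + p.mu) * p.nA)
        ≤ U * 2 * Z * U * (U * (U * (2 * 2 ^ p.H))) := by
          gcongr
          omega
      _ = 4 * U ^ 4 * Z * 2 ^ p.H := by ring
      _ ≤ U * U ^ 7 * Z * 2 ^ p.H := by
          gcongr
          · omega
          · norm_num
      _ = 2 ^ p.H * 2 ^ p.H := by rw [eH]; ring
  · rw [← pow_add, h.t1]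
    exact pw (by omega)
  · calc r * (2 * p.nB * (2 * p.K) * (aS p.t p.mu + 1) + p.M0 * (p.L0 * 2 ^ p.t *
          (4 * p.nB * (aS p.t p.mu + 1)) + 2 * p.nT * (aS p.t p.mu + 1)))
        ≤ U * (2 * (U * 2 * Z) * U * U + U * (U * U * (4 * (U * 2 * Z) * U) + 2 * Z * U)) := by
          gcongr
          omega
      _ = 4 * U ^ 4 * Z + 8 * U ^ 6 * Z + 2 * U ^ 3 * Z := by ring
      _ ≤ 4 * U ^ 7 * Z + 8 * U ^ 7 * Z + 2 * U ^ 7 * Z := by gcongr <;> norm_num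
      _ = 14 * U ^ 7 * Z := by ring
      _ ≤ U * U ^ 7 * Z := by gcongr
      _ = 2 ^ p.H := by rw [eH]; ring

theorem rest : p.mu * 2 ^ (p.t + p.kk) + 2 ^ (p.mu + p.kk) +
    2 ^ (p.t1 + p.t1 + (p.H + 1) + p.t) + p.nD +
    (1 + p.nL + (p.hh + p.hh + (p.s + (p.d1 + p.d2)))) ≤ n := by
  obtain ⟨-, b2, b3, -, b5, b6, -, b8⟩ := h.b
  obtain ⟨g1, g2, g3, -⟩ := h.big
  obtain ⟨c1, c2, -⟩ := h.Hb
  have r4 := h.r4
  have yν : y ≤ ν := Nat.lt_two_pow_self.le.trans h.y1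
  have a1 : 2 ^ (p.mu + p.kk) ≤ n / r := by
    rw [Nat.le_div_iff_mul_le (by omega)]
    refine le_trans (Nat.mul_le_mul_left _ (Nat.lt_two_pow_self (n := r)).le) (le_trans ?_ h.kk.1)
    rw [← pow_add]
    exact Nat.pow_le_pow_right (by norm_num) (by linarith [h.mu2])
  have a2 : 1 + p.nL + (p.hh + p.hh + (p.s + (p.d1 + p.d2))) ≤ 43 * l := by
    have := h.nL
    rw [h.hh, h.s, h.d1, h.d2]
    omega
  have a3 : 4 * (2 ^ p.H * 2 ^ p.H * 2 ^ p.H) ≤ n := by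
    refine le_trans ?_ h.l1
    rw [← pow_add, ← pow_add, show 4 = 2 ^ 2 by norm_num, ← pow_add]
    exact Nat.pow_le_pow_right (by norm_num) (by omega)
  have a4 : 2 * (2 ^ p.H * 2 ^ p.H) + 43 * l ≤ n / r := by
    rw [Nat.le_div_iff_mul_le (by omega), add_mul]
    have e1 := Nat.mul_le_mul_left (2 * (2 ^ p.H * 2 ^ p.H)) g3
    have e2 := Nat.mul_le_mul_left (43 * l) (show r ≤ l by linarith [h.rt])
    nlinarith
  have := h.A1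
  omega

theorem dim : n = 1 + p.nL + (p.hh + p.hh + (p.s + (p.G + (p.d1 + p.d2)))) := by
  have := (Nat.le_add_left _ _).trans h.rest
  have := h.G
  omega

theorem P1 : p.P + 1 = (l + 1) * n ^ 6 ∧ n ^ 6 ≤ p.P ∧ 1 ≤ n ^ 6 := by
  obtain ⟨-, -, -, -, b5, -, b7, b8⟩ := h.b
  have a1 : 1 ≤ n ^ 6 := Nat.one_le_pow _ _ (by omega)
  have a2 : 2 * n ^ 6 ≤ (l + 1) * n ^ 6 := Nat.mul_le_mul_right _ (by omega)
  have := h.P
  omega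

theorem ok : p.Ok n := by
  obtain ⟨-, b2, b3, -, b5, -, b7, b8⟩ := h.b
  obtain ⟨c1, c2, -⟩ := h.Hb
  obtain ⟨p1, p2, p3⟩ := h.P1
  have r4 := h.r4
  have pw : ∀ {a b : ℕ}, a ≤ b → 2 ^ a ≤ 2 ^ b := fun hab => Nat.pow_le_pow_right (by norm_num) hab
  have hd := h.dim
  have he := le_trans (Nat.mul_le_mul_right _ r4) h.er
  have hL := h.L0
  have ν2 := h.ν2
  refine ⟨by linarith [h.rt], by linarith [h.mu1], by omega, ?_, by omega, by rw [h.d1]; omega,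
    by rw [h.d2]; omega, hd, ?_, ?_, by rw [p1, h.s, h.P'], ?_, ?_, ?_, by omega⟩
  · rw [h.Kp]
    exact Nat.one_le_pow _ _ (by positivity)
  · have := h.rest
    have e : 2 ^ p.t * (p.mu * 2 ^ p.kk) = p.mu * 2 ^ (p.t + p.kk) := by ring
    omega
  · have := h.l2
    rw [h.s]
    omega
  · have a1 := pw (show ν + 1 + 6 ≤ p.H + 1 by omega)
    have a2 := h.nL
    rw [pow_add _ _ 6] at a1
    rw [Pm.Mg]
    omega
  · rw [pow_add, h.ks, p1]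
    refine Nat.mul_le_mul ?_ (b3.trans (pw (by rw [h.d2]; omega)))
    have a1 : p.G * ((l + 1) * n ^ 6) ≤ n * (n * n ^ 6) := by gcongr <;> omega
    have a2 : n ^ 8 < (2 ^ (l + 1)) ^ 8 := Nat.pow_lt_pow_left h.l2 (by norm_num)
    have a3 : (2 ^ (l + 1)) ^ 8 ≤ 2 ^ p.d1 := by
      rw [← pow_mul, h.d1]
      exact pw (by omega)
    have e : n * (n * n ^ 6) = n ^ 8 := by ring
    omega
  · rw [h.ks, h.d1, h.d2]
    refine le_trans (Nat.mul_le_mul (show _ ≤ 2 ^ (ν + 1 + 4) by rw [pow_add _ _ 4]; omega) b3) ?_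
    rw [← pow_add]
    exact pw (by omega)

theorem T : 2 ^ (n - 1) = 2 ^ p.nL * (2 ^ (p.hh + p.hh) * p.Q) := by
  rw [Pm.Q, ← pow_add, ← pow_add]
  congr 1
  have := h.dim
  omega

theorem fit {C k : ℕ} (hC : C ≤ 2 ^ (n - 1)) (hk : k ≤ 2 * C) :
    (p.N k + 1) * ((p.s + 1) * p.ks) ≤ 2 ^ (p.G + (p.d1 + p.d2)) ∧
    r * (p.Lc + p.K + 2 * p.Wb C k) ≤ 2 * 2 ^ (n - 1) ∧
    r * (p.M0 * (p.L0 * 2 ^ p.t) * (4 * p.Wb C k)) ≤ 2 ^ (n - 1) := by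
  obtain ⟨b1, b2, b3, b4, b5, b6, b7, b8⟩ := h.b
  obtain ⟨k1, k2, k3⟩ := h.K
  obtain ⟨c1, -, c3⟩ := h.Hb
  obtain ⟨p1, p2, p3⟩ := h.P1
  have r4 := h.r4
  have rt := h.rt
  have y1 := h.y1
  have yν : y ≤ ν := Nat.lt_two_pow_self.le.trans y1
  have hT := h.T
  have t8 : 2 * n ^ 8 ≤ 2 ^ (n - 1) := by
    have := h.hN
    rw [show n = n - 1 + 1 by omega, pow_succ 2, show n - 1 + 1 = n by omega] at this
    omega
  have pn : ∀ {a b : ℕ}, a ≤ b → n ^ a ≤ n ^ b := fun hab => Nat.pow_le_pow_right (by omega) hab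
  have l1 : n ^ 6 ≤ p.Lc := p2.trans
    ((Nat.le_mul_of_pos_right _ (by omega)).trans (Nat.le_add_right _ _))
  have l2 : p.Lc + p.K ≤ 2 * n ^ 7 := by
    have a1 : (l + 1) * p.K ≤ n := le_trans (Nat.mul_le_mul (show _ ≤ 2 * l by omega)
      (show _ ≤ l by omega)) (by nlinarith)
    have a2 : p.P * p.K + p.K ≤ n ^ 7 := by
      calc p.P * p.K + p.K = (p.P + 1) * p.K := by ring
        _ = (l + 1) * p.K * n ^ 6 := by rw [p1]; ring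
        _ ≤ n * n ^ 6 := Nat.mul_le_mul_right _ a1
        _ = n ^ 7 := by ring
    have a3 := pn (show 1 ≤ 7 by norm_num)
    have a4 := h.nL
    rw [pow_one] at a3
    rw [Pm.Lc, Pm.Mg, h.M0]
    omega
  have f1 : (p.N k + 1) * (2 * n ^ 5) ≤ 2 ^ (n - 1) := by
    have a1 : k / p.Lc * n ^ 6 ≤ k := (Nat.mul_le_mul_left _ l1).trans (Nat.div_mul_le_self _ _)
    have a2 := pn (show 6 ≤ 8 by norm_num)
    refine Nat.le_of_mul_le_mul_right (c := n) ?_ (by omega)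
    calc (p.N k + 1) * (2 * n ^ 5) * n = 2 * (k / p.Lc * n ^ 6) + 4 * n ^ 6 := by rw [Pm.N]; ring
      _ ≤ 2 ^ (n - 1) * 6 := by omega
      _ ≤ 2 ^ (n - 1) * n := Nat.mul_le_mul_left _ (by omega)
  have am : p.Am ≤ n := by
    refine le_trans ?_ ((Nat.le_add_right _ _).trans h.A1)
    rw [Pm.Am, aM, pow_add, ← mul_assoc, mul_comm p.mu]
    gcongr
    exact Nat.sub_le _ _
  have w1 : p.Kp * p.Wb C k ≤ 4 * 2 ^ (n - 1) := by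
    have a1 := Nat.mul_div_le (2 * C + p.Lc + p.K) p.Kp
    have a2 : p.Kp * ((p.N k + 1) * (1 + p.Am)) ≤ (p.N k + 1) * (2 * n ^ 5) := by
      calc p.Kp * ((p.N k + 1) * (1 + p.Am)) ≤ n * ((p.N k + 1) * (2 * n)) := by gcongr <;> omega
        _ = (p.N k + 1) * (2 * n ^ 2) := by ring
        _ ≤ _ := by
          have := pn (show 2 ≤ 5 by norm_num)
          gcongr
    have a3 := pn (show 7 ≤ 8 by norm_num)
    rw [Pm.Wb, mul_add]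
    omega
  have w2 : 16 * (r * (p.M0 * (p.L0 * 2 ^ p.t))) ≤ p.Kp := by
    have a1 : p.L0 ≤ (2 ^ y) ^ 4 := by rw [h.L0, h.X2]; exact Nat.sub_le _ _
    have a2 : p.M0 ≤ (8 * y + 11) ^ 2 :=
      le_trans (by rw [h.M0]; omega) (Nat.le_self_pow (by norm_num) _)
    calc 16 * (r * (p.M0 * (p.L0 * 2 ^ p.t)))
        ≤ 16 * (r * ((8 * y + 11) ^ 2 * ((2 ^ y) ^ 4 * 2 ^ p.t))) := by gcongr
      _ = 16 * r * 2 ^ p.t * (8 * y + 11) ^ 2 * (2 ^ y) ^ 4 := by ring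
      _ ≤ 2 ^ y * (2 ^ y) ^ 4 := Nat.mul_le_mul_right _ h.hY
      _ = (2 ^ y) ^ 5 := by ring
      _ ≤ p.Kp := by rw [h.Kp]; exact Nat.pow_le_pow_right (by positivity) (by norm_num)
  refine ⟨?_, ?_, ?_⟩
  · refine Nat.le_of_mul_le_mul_right (c := 2 ^ p.nL * (2 ^ (p.hh + p.hh) * 2 ^ p.s)) ?_
      (by positivity)
    have a1 : 2 ^ p.nL ≤ n ^ 2 := le_trans (Nat.pow_le_pow_right (by norm_num)
      (h.nL.trans_eq (mul_comm _ _))) (by rw [pow_mul]; exact Nat.pow_le_pow_left h.l1 2)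
    have a2 : 2 ^ (p.hh + p.hh) ≤ n := by
      have e1 : (2 ^ y) ^ 4 ≤ ν ^ 8 :=
        (Nat.pow_le_pow_left y1 4).trans (Nat.pow_le_pow_right (by omega) (by norm_num))
      rw [h.X2]
      omega
    have a3 : 2 ^ p.s ≤ 2 * n := by
      have := h.l1
      rw [h.s, pow_succ]
      omega
    have a4 : (p.s + 1) * p.ks ≤ n := by
      rw [h.s, h.ks]
      exact le_trans (Nat.mul_le_mul (show _ ≤ 2 * l by omega) (show _ ≤ l by omega))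
        (by nlinarith)
    calc (p.N k + 1) * ((p.s + 1) * p.ks) * (2 ^ p.nL * (2 ^ (p.hh + p.hh) * 2 ^ p.s))
        ≤ (p.N k + 1) * n * (n ^ 2 * (n * (2 * n))) := by gcongr
      _ = (p.N k + 1) * (2 * n ^ 5) := by ring
      _ ≤ 2 ^ (n - 1) := f1
      _ = _ := by rw [hT, Pm.Q, pow_add 2 p.s]; ring
  · have a1 : r * (p.Lc + p.K) ≤ n * (2 * n ^ 7) := Nat.mul_le_mul (by omega) l2
    have a2 : 16 * r ≤ p.Kp := le_trans (Nat.mul_le_mul_left _ (Nat.le_mul_of_pos_right _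
      (Nat.mul_pos (by rw [h.M0]; omega) (Nat.mul_pos h.ok.L00 (by positivity))))) w2
    have a3 := Nat.mul_le_mul_right (p.Wb C k) a2
    have e : n * (2 * n ^ 7) = 2 * n ^ 8 := by ring
    nlinarith
  · have a3 := Nat.mul_le_mul_right (p.Wb C k) w2
    nlinarith

end Par_H

theorem Par_ex {r μ0 n l ν y : ℕ} (hμ : r ≤ μ0) (h : Par_L r (2 * μ0 + r) n l ν y) :
    ∃ p : Pm, Par_H p r n l ν y ∧ μ0 ≤ p.mu := by
  obtain ⟨b1, b2, -, b4, -, -, b7, b8⟩ := h.b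
  have r4 := h.r4
  have a1 : n / r * 4 ≤ n := (Nat.mul_le_mul_left _ r4).trans (Nat.div_mul_le_self _ _)
  have a2 : 2 ^ (2 * μ0 + r) * μ0 ≤ ν ^ 8 := by
    have yν : y ≤ ν := Nat.lt_two_pow_self.le.trans h.y1
    calc 2 ^ (2 * μ0 + r) * μ0 ≤ ν * ν := Nat.mul_le_mul (b1.trans h.y1) (by omega)
      _ = ν ^ 2 := by ring
      _ ≤ ν ^ 8 := Nat.pow_le_pow_right (by omega) (by norm_num)
  obtain ⟨mu, kk, m1, m2, m3, m4⟩ := Par_mu (t := 2 * μ0 + r) (μ0 := μ0) (A := n - 2 * (n / r))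
    (by omega) (by omega)
  let p0 : Pm := ⟨2 * μ0 + r, mu, kk, r, 0, 2 * y, l + 1, 0, 9 * (l + 1), ν + 2 * y + 8,
    (l + 1) * n ^ 6 - 1, n ^ 6, (2 ^ y) ^ 6, 0⟩
  let p1 : Pm := { p0 with H := (2 * ν + 10) * (2 * p0.K) }
  refine ⟨{ p1 with
    G := n - (1 + p1.nL + (p1.hh + p1.hh + (p1.s + (p1.d1 + p1.d2))))
    L0 := 2 ^ (p1.hh + p1.hh) - (p1.er + 2 ^ p1.hh * (p1.ks * (1 + p1.er)) + 1) },
    ⟨h, rfl, hμ.trans m1, ?_, ?_, ?_, rfl, rfl, rfl, rfl, rfl, rfl, rfl, rfl, rfl, rfl⟩, m1⟩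
  · show mu + r ≤ 2 * μ0 + r
    omega
  · show mu * 2 ^ (2 * μ0 + r + kk) + _ ≤ _
    omega
  · show _ < (mu + 1) * 2 ^ (2 * μ0 + r + kk) + _
    omega

theorem Par_sub {η : ℝ} {r t : ℕ} (hr : 1 ≤ η * r) (hη : 0 < η) (h : r ≤ t) :
    (1 - η) * 2 ^ t ≤ ((2 ^ t - 1 : ℕ) : ℝ) := by
  have a1 : (r : ℝ) ≤ 2 ^ t := by exact_mod_cast h.trans Nat.lt_two_pow_self.le
  rw [Nat.cast_sub Nat.one_le_two_pow]
  push_cast
  nlinarith

theorem par_ex (ε : ℝ) (hε : 0 < ε) (hε1 : ε ≤ 1) (m0 : ℕ) : ∃ n0 : ℕ, ∀ n ≥ n0, ∃ p : Pm,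
    p.Ok n ∧ m0 ≤ p.mu ∧ (1 - ε) * n ≤ (p.Am : ℝ) ∧
      ∀ C k : ℕ, (C : ℝ) ≤ (1 - ε) * 2 ^ (n - 1) → k ≤ 2 * C → p.Fit (ε / 20) C k := by
  obtain ⟨η, rfl⟩ : ∃ η, ε = 20 * η := ⟨ε / 20, by ring⟩
  rw [show 20 * η / 20 = η by ring]
  have hη : 0 < η := by linarith
  obtain ⟨r, hr⟩ := exists_nat_ge (1 / η)
  rw [div_le_iff₀' hη] at hr
  have r4 : 4 ≤ r := by
    have : (4 : ℝ) ≤ r := by nlinarith
    exact_mod_cast this
  obtain ⟨N1, h1⟩ := Par_grow (16 * r * 2 ^ (2 * (m0 + r) + r) * 19 ^ 2) 2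
  obtain ⟨N2, h2⟩ := Par_grow 36 8
  obtain ⟨N3, h3⟩ := Par_grow 86 2
  obtain ⟨N4, h4⟩ := Par_grow 4 8
  obtain ⟨N, hN⟩ : ∃ N, N = N1 + N2 + N3 + N4 + 1 := ⟨_, rfl⟩
  refine ⟨2 ^ 2 ^ 2 ^ N, fun n hn => ?_⟩
  have g1 := Nat.le_log_of_pow_le one_lt_two hn
  have g2 := Nat.le_log_of_pow_le one_lt_two g1
  have g3 := Nat.le_log_of_pow_le one_lt_two g2
  have l1 := Nat.pow_log_le_self 2 (show n ≠ 0 from ((Nat.two_pow_pos _).trans_le hn).ne')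
  have l2 := Nat.lt_pow_succ_log_self one_lt_two n
  generalize Nat.log 2 n = l at *
  have ν1 := Nat.pow_log_le_self 2 (show l ≠ 0 from ((Nat.two_pow_pos _).trans_le g1).ne')
  have ν2 := Nat.lt_pow_succ_log_self one_lt_two l
  generalize Nat.log 2 l = ν at *
  have y1 := Nat.pow_log_le_self 2 (show ν ≠ 0 from ((Nat.two_pow_pos _).trans_le g2).ne')
  have y2 := Nat.lt_pow_succ_log_self one_lt_two ν
  generalize Nat.log 2 ν = y at *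
  have yν : y ≤ ν := Nat.lt_two_pow_self.le.trans y1
  have νl : ν ≤ l := Nat.lt_two_pow_self.le.trans ν1
  have ln : l ≤ n := Nat.lt_two_pow_self.le.trans l1
  obtain ⟨p, h, hm⟩ := Par_ex (μ0 := m0 + r) (by omega) ⟨r4, by omega, y1, y2, ν1, ν2, l1, l2,
    le_trans (by
      rw [mul_assoc _ (19 ^ 2), ← mul_pow]
      exact Nat.mul_le_mul_left _ (Nat.pow_le_pow_left (by omega) 2)) (h1 y (by omega)),
    h2 ν (by omega), h3 l (by omega), h4 n (by omega)⟩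
  have s1 := Par_sub hr hη h.rt
  have s2 := Par_sub hr hη h.t1.ge
  have r0 : (0 : ℝ) < r := by exact_mod_cast (by omega : 0 < r)
  have dv : ∀ {a b : ℝ}, 0 ≤ a → r * a ≤ b → a ≤ η * b := fun ha hab => by nlinarith
  refine ⟨p, h.ok, by omega, ?_, fun C k hC hk => ?_⟩
  · have a1 : (n : ℝ) ≤ (p.mu + 1) * 2 ^ (p.t + p.kk) + 2 * (n / r : ℕ) := by
      exact_mod_cast h.A2.le
    have a2 : ((n / r : ℕ) : ℝ) ≤ η * n :=
      dv (by positivity) (by exact_mod_cast Nat.mul_div_le n r)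
    have a3 : (1 : ℝ) ≤ η * p.mu := dv zero_le_one (by rw [mul_one]; exact_mod_cast h.mu1)
    have a4 : (1 - η) * (p.mu * 2 ^ (p.t + p.kk)) ≤ (p.Am : ℝ) := by
      rw [Pm.Am, aM, Nat.cast_mul, Nat.cast_mul, pow_add, Nat.cast_pow, Nat.cast_ofNat]
      calc (1 - η) * (p.mu * (2 ^ p.t * 2 ^ p.kk)) = (1 - η) * 2 ^ p.t * p.mu * 2 ^ p.kk := by ring
        _ ≤ _ := by gcongr
    have a5 : (p.mu : ℝ) * 2 ^ (p.t + p.kk) ≤ n := by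
      exact_mod_cast (Nat.le_add_right _ _).trans h.A1
    have a6 := mul_le_mul_of_nonneg_right a3 (show (0 : ℝ) ≤ 2 ^ (p.t + p.kk) by positivity)
    have a7 := mul_le_mul_of_nonneg_left a5 hη.le
    have a8 : (0 : ℝ) ≤ η * n := by positivity
    nlinarith
  · have T0 : (0 : ℝ) < 2 ^ (n - 1) := by positivity
    obtain ⟨f1, f2, f3⟩ := h.fit (C := C) (k := k)
      (by exact_mod_cast (show (C : ℝ) ≤ 2 ^ (n - 1) by nlinarith)) hk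
    refine ⟨f1, ?_⟩
    have a1 := dv (Nat.cast_nonneg _) (b := 2 * 2 ^ (n - 1)) (by exact_mod_cast f2)
    have a2 := dv (Nat.cast_nonneg _) (b := 2 ^ (n - 1)) (by exact_mod_cast f3)
    have a3 := dv (Nat.cast_nonneg _) (b := p.nA) (by exact_mod_cast h.big.2.2.2)
    have a4 := dv (Nat.cast_nonneg _) (b := 2 ^ (p.hh + p.hh)) (by exact_mod_cast h.er)
    have a5 : (1 - η) * 2 ^ (p.hh + p.hh) ≤ (p.L0 : ℝ) := by
      rw [h.L0, Nat.cast_sub (le_trans (Nat.le_mul_of_pos_left _ (by omega)) h.er), Nat.cast_pow,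
        Nat.cast_ofNat]
      linarith
    have e0 : 0 < 1 - η := by linarith
    have a6 : (1 - η) ^ 4 * 2 ^ (n - 1) ≤ (p.nA : ℝ) * (p.L0 * p.Q * bin p.t p.mu p.kk) := by
      have e : (2 : ℝ) ^ (n - 1) = 2 ^ p.nL * (2 ^ (p.hh + p.hh) * p.Q) := by exact_mod_cast h.T
      rw [e, Pm.nL, Pm.nA, bin]
      simp only [Nat.cast_mul, Nat.cast_pow, Nat.cast_ofNat]
      calc _ = (1 - η) * 2 ^ p.t1 * ((1 - η) * 2 ^ p.t1) * 2 ^ (p.H + 1) *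
          ((1 - η) * 2 ^ (p.hh + p.hh) * p.Q * ((1 - η) * 2 ^ p.t * 2 ^ (p.mu + p.kk))) := by ring
        _ ≤ _ := by gcongr
    have a7 : 1 - 5 * η ≤ (1 - η) ^ 5 := by
      have := one_add_mul_le_pow (a := -η) (by linarith) 5
      rw [← sub_eq_add_neg] at this
      push_cast at this
      linarith
    have D0 : (0 : ℝ) < p.L0 * p.Q * bin p.t p.mu p.kk :=
      pos_of_mul_pos_right (lt_of_lt_of_le (by positivity) a6) (Nat.cast_nonneg _)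
    generalize (p.L0 : ℝ) * p.Q * bin p.t p.mu p.kk = D at *
    generalize (2 : ℝ) ^ (n - 1) = T at *
    have W0 : (0 : ℝ) ≤ p.M0 * (p.L0 * 2 ^ p.t) * p.Wb C k := by positivity
    have a8 : ((1 + η) * p.Vb C k + 2 * (1 + η) * (p.M0 * (p.L0 * 2 ^ p.t) * p.Wb C k)) / D ≤
        (1 - η) * p.nA := by
      rw [div_le_iff₀ D0, Pm.Vb]
      push_cast at a1 a2 ⊢
      have b1 := mul_le_mul_of_nonneg_left a6 e0.le
      have b2 := mul_le_mul_of_nonneg_right a7 T0.le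
      have b3 : (C : ℝ) + p.Lc + p.K + 2 * p.Wb C k ≤ (1 - 18 * η) * T := by linarith
      have b4 := mul_le_mul_of_nonneg_left b3 (show 0 ≤ 1 + η by linarith)
      have b5 := mul_le_mul_of_nonneg_right (show η ≤ 1 by linarith) W0
      have b6 : 0 ≤ η * η * T := by positivity
      have b7 : 0 ≤ η * T := by positivity
      nlinarith
    push_cast at a3
    refine le_trans (le_of_eq ?_) (le_trans (add_le_add a8 a3) (le_of_eq (by ring)))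
    ring

end Pool.Agent.Work.MP_ede3c6_co.W
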