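import Pool.Agent.Work.MP_ede3c6_co.W.Base

/-! Existence of the segmentation.

PLAN. `ap i = if i < k then a i else 0`, `κ = 2 M0 + 2`, `mw x` = sup of `ap (x + o)`, `o < κ`;
`base j = (j / (P + 1)) Lc + (j % (P + 1)) K`; for a short `j` (`j % (P + 1) ≠ P`) `om j < Kp`
minimises `mw (base j + κ ω)`, `st j = base j + κ om j`, `mx j = mw (st j)`; for a long `j`
`st j = base j`, `mx j = Am`. `len j = 2 Mj j + 2`, `st j + len j ≤ base (j + 1)`.
`bs 0 = 0`, `bs (j + 1) = st j + len j - 1`, `bl j = st j + 1 - bs j`;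
`av j o = if o = bl j - 1 then mx j else if o = 0 ∧ 0 < j then mx (j - 1) else ap (bs j + o)`
(`bl j ≥ 2` for `j > 0`). Volumes telescope: with `T x = ∑ i < x, (1 + ap i)` one has
`Kp (1 + mx j) ≤ T (base (j + 1)) - T (base j)` for short `j` (`1 + mw x ≤ ∑ o < κ, (1 + ap (x + o))`),
`base (J + 1) = N Lc + K ≤ k + Lc + K`, `T (k + Lc + K) ≤ 2 C + Lc + K`; there are `N` long
`j ≤ J`; `wt π i (av j o) ≤ wt π i (ap i) + [o = 0] (1 + av j 0) + [o = bl j - 1] (1 + mx j)`. -/

set_option autoImplicit false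

namespace Pool.Agent.Work.MP_ede3c6_co.W

open Finset Vol

theorem SegEx_rec (P A B : ℕ) (g : ℕ → ℕ) (h0 : g 0 = 0)
    (hs : ∀ j, g (j + 1) = g j + if j % (P + 1) = P then A else B) (q r : ℕ) (hr : r ≤ P) :
    g (q * (P + 1) + r) = q * (P * B + A) + r * B := by
  have h1 : ∀ q r, r ≤ P → g (q * (P + 1) + r) = g (q * (P + 1)) + r * B := by
    intro q r
    induction r with
    | zero => intro _; simp
    | succ r ih =>
      intro hr
      have e : (q * (P + 1) + r) % (P + 1) = r := by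
        rw [Nat.mul_add_mod_self_right]
        exact Nat.mod_eq_of_lt (by omega)
      rw [← add_assoc, hs, ih (by omega), e, if_neg (by omega)]
      ring
  have h2 : ∀ q, g (q * (P + 1)) = q * (P * B + A) := by
    intro q
    induction q with
    | zero => simpa using h0
    | succ q ih =>
      have e : (q * (P + 1) + P) % (P + 1) = P := by
        rw [Nat.mul_add_mod_self_right]
        exact Nat.mod_eq_of_lt (by omega)
      have e2 : (q + 1) * (P + 1) = q * (P + 1) + P + 1 := by ring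
      rw [e2, hs, h1 q P le_rfl, ih, e, if_pos rfl]
      ring
  rw [h1 q r hr, h2]

theorem SegEx_blk (g : ℕ → ℕ) (κ x c : ℕ) (n : ℕ)
    (h : ∀ ω < n, c ≤ ∑ o ∈ range κ, g (x + κ * ω + o)) :
    ∑ i ∈ range x, g i + n * c ≤ ∑ i ∈ range (x + κ * n), g i := by
  induction n with
  | zero => simp
  | succ n ih =>
    have e : x + κ * (n + 1) = x + κ * n + κ := by ring
    have h1 := ih fun ω hω => h ω (by omega)
    have h2 := h n (by omega)
    rw [e, sum_range_add _ (x + κ * n) κ, Nat.succ_mul]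
    omega

theorem SegEx_step (ap : ℕ → ℕ) (Am κ Kp : ℕ) (hκ : 1 ≤ κ) (hK : 1 ≤ Kp) (ha : ∀ i, ap i ≤ Am)
    (x : ℕ) : ∃ s m : ℕ, x ≤ s ∧ s + κ ≤ x + κ * Kp ∧ m ≤ Am ∧ (∀ o < κ, ap (s + o) ≤ m) ∧
      ∑ i ∈ range x, (1 + ap i) + Kp * (1 + m) ≤ ∑ i ∈ range (x + κ * Kp), (1 + ap i) := by
  obtain ⟨ω, hω, hmin⟩ := exists_min_image (range Kp)
    (fun ω => (range κ).sup fun o => ap (x + κ * ω + o)) ⟨0, mem_range.2 (by omega)⟩
  have hω' := mem_range.1 hω
  refine ⟨x + κ * ω, (range κ).sup fun o => ap (x + κ * ω + o), by omega, ?_,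
    Finset.sup_le fun o _ => ha _, fun o ho => ?_, ?_⟩
  · have : κ * (ω + 1) ≤ κ * Kp := Nat.mul_le_mul_left _ hω'
    rw [Nat.mul_succ] at this
    omega
  · exact Finset.le_sup (f := fun o => ap (x + κ * ω + o)) (mem_range.2 ho)
  · refine SegEx_blk (fun i => 1 + ap i) κ x _ Kp fun w hw => ?_
    have h1 := hmin w (mem_range.2 hw)
    obtain ⟨o, ho, e⟩ := Finset.exists_mem_eq_sup (range κ) ⟨0, mem_range.2 (by omega)⟩
      (fun o => ap (x + κ * w + o))
    have h2 : 1 + ap (x + κ * w + o) ≤ ∑ o ∈ range κ, (1 + ap (x + κ * w + o)) :=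
      single_le_sum (f := fun o => 1 + ap (x + κ * w + o)) (fun _ _ => Nat.zero_le _) ho
    rw [e] at h1
    omega

theorem SegEx_tail (g : ℕ → ℕ) (k L c x : ℕ) (hx : x ≤ k + L) (h1 : ∑ i ∈ range k, g i ≤ c)
    (h2 : ∀ i, k ≤ i → g i ≤ 1) : ∑ i ∈ range x, g i ≤ c + L := by
  have h3 : ∑ i ∈ range x, g i ≤ ∑ i ∈ range (k + L), g i :=
    sum_le_sum_of_subset (range_mono hx)
  have h4 : ∑ o ∈ range L, g (k + o) ≤ ∑ o ∈ range L, 1 :=
    sum_le_sum fun o _ => h2 _ (by omega)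
  rw [sum_range_add] at h3
  simp only [sum_const, card_range, smul_eq_mul, mul_one] at h4
  omega

theorem SegEx_dat (p : Pm) (hP : 1 ≤ p.P) (hK : 1 ≤ p.Kp) (k : ℕ) (ap : ℕ → ℕ) (C : ℕ)
    (ha : ∀ i, ap i ≤ p.Am) (h0 : ∀ i, k ≤ i → ap i = 0)
    (hC : ∑ i ∈ range k, (1 + ap i) ≤ 2 * C) :
    ∃ st mx : ℕ → ℕ, st 0 + 1 ≤ 2 * p.K ∧ (∀ j, st j + 2 * p.Mj j + 2 ≤ st (j + 1)) ∧
      (∀ j, st (j + 1) + 1 ≤ st j + 2 * p.Mj j + 1 + 2 * p.K) ∧
      (∀ j, j % (p.P + 1) = p.P → mx j = p.Am ∧ st j % 2 = 0) ∧ (∀ j, mx j ≤ p.Am) ∧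
      (∀ j o, o < 2 * p.Mj j + 2 → ap (st j + o) ≤ mx j) ∧
      (∀ j, j + 1 = p.J k → k ≤ st j + 2 * p.Mj j + 1) ∧
      st (p.J k) + 2 * p.Mj (p.J k) + 1 ≤ k + (p.Lc + p.K) ∧
      ∑ j ∈ range (p.J k + 1), (1 + mx j) ≤
        (2 * C + p.Lc + p.K) / p.Kp + p.N k * (1 + p.Am) := by
  choose s m hs1 hs2 hm1 hm2 hT using SegEx_step ap p.Am (2 * p.M0 + 2) p.Kp (by omega) hK ha
  have eK : (2 * p.M0 + 2) * p.Kp = p.K := rfl
  simp only [eK] at hs2 hT
  have hK2 : 2 * p.M0 + 2 ≤ p.K := by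
    rw [← eK]
    exact Nat.le_mul_of_pos_right _ hK
  have hKe : p.K % 2 = 0 := by
    have : p.K = 2 * ((p.M0 + 1) * p.Kp) := by rw [← eK]; ring
    omega
  obtain ⟨b, b0, bs⟩ : ∃ b : ℕ → ℕ, b 0 = 0 ∧ ∀ j, b (j + 1) = b j +
      if j % (p.P + 1) = p.P then 2 * (p.M0 + p.Mg) + 2 else p.K :=
    ⟨fun n => ∑ j ∈ range n, if j % (p.P + 1) = p.P then 2 * (p.M0 + p.Mg) + 2 else p.K,
      by simp, fun j => sum_range_succ _ _⟩
  have be : ∀ j, b j % 2 = 0 := by
    intro j
    induction j with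
    | zero => rw [b0]
    | succ j ih =>
      rw [bs]
      split_ifs <;> omega
  have bq : ∀ q r, r ≤ p.P → b (q * (p.P + 1) + r) = q * p.Lc + r * p.K :=
    SegEx_rec p.P _ _ b b0 bs
  obtain ⟨st, hl, hs⟩ : ∃ st : ℕ → ℕ, (∀ j, j % (p.P + 1) = p.P → st j = b j) ∧
      ∀ j, j % (p.P + 1) ≠ p.P → st j = s (b j) :=
    ⟨fun j => if j % (p.P + 1) = p.P then b j else s (b j), fun j h => if_pos h,
      fun j h => if_neg h⟩
  obtain ⟨mx, ml, ms⟩ : ∃ mx : ℕ → ℕ, (∀ j, j % (p.P + 1) = p.P → mx j = p.Am) ∧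
      ∀ j, j % (p.P + 1) ≠ p.P → mx j = m (b j) :=
    ⟨fun j => if j % (p.P + 1) = p.P then p.Am else m (b j), fun j h => if_pos h,
      fun j h => if_neg h⟩
  have Ml : ∀ j, j % (p.P + 1) = p.P → p.Mj j = p.M0 + p.Mg := fun j h => if_pos h
  have Ms : ∀ j, j % (p.P + 1) ≠ p.P → p.Mj j = p.M0 := fun j h => if_neg h
  have f1 : ∀ j, b j ≤ st j ∧ st j + 1 ≤ b j + p.K ∧ st j + 2 * p.Mj j + 2 ≤ b (j + 1) ∧
      b (j + 1) ≤ st j + 2 * p.Mj j + 1 + p.K := by
    intro j
    have e := bs j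
    by_cases h : j % (p.P + 1) = p.P
    · rw [if_pos h] at e
      rw [hl j h, Ml j h]
      omega
    · rw [if_neg h] at e
      have := hs1 (b j)
      have := hs2 (b j)
      rw [hs j h, Ms j h]
      omega
  have hLc : 0 < p.Lc := by
    unfold Pm.Lc
    omega
  have hN1 : k < p.N k * p.Lc := by
    unfold Pm.N
    rw [mul_comm]
    exact Nat.lt_mul_div_succ k hLc
  have hN2 : p.N k * p.Lc ≤ k + p.Lc := by
    unfold Pm.N
    have := Nat.div_mul_le_self k p.Lc
    rw [Nat.succ_mul]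
    omega
  have bJ : b (p.J k) = p.N k * p.Lc := by
    have := bq (p.N k) 0 (Nat.zero_le _)
    simpa [Pm.J] using this
  have bJ1 : b (p.J k + 1) = p.N k * p.Lc + p.K := by
    have := bq (p.N k) 1 hP
    simpa [Pm.J] using this
  refine ⟨st, mx, ?_, fun j => ?_, fun j => ?_, fun j h => ⟨ml j h, ?_⟩, fun j => ?_,
    fun j o ho => ?_, fun j hj => ?_, ?_, ?_⟩
  · have := f1 0
    omega
  · have := f1 j
    have := f1 (j + 1)
    omega
  · have := f1 j
    have := f1 (j + 1)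
    omega
  · rw [hl j h]
    exact be j
  · by_cases h : j % (p.P + 1) = p.P
    · rw [ml j h]
    · rw [ms j h]
      exact hm1 _
  · by_cases h : j % (p.P + 1) = p.P
    · rw [ml j h]
      exact ha _
    · rw [ms j h, hs j h]
      rw [Ms j h] at ho
      exact hm2 _ o ho
  · have e : j = k / p.Lc * (p.P + 1) + p.P := by
      have : p.J k = k / p.Lc * (p.P + 1) + p.P + 1 := by
        unfold Pm.J Pm.N
        ring
      omega
    have h : j % (p.P + 1) = p.P := by
      rw [e, Nat.mul_add_mod_self_right]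
      exact Nat.mod_eq_of_lt (by omega)
    have e2 := bs j
    rw [if_pos h, hj, bJ] at e2
    rw [hl j h, Ml j h]
    omega
  · have := f1 (p.J k)
    omega
  · have t1 : ∀ n, p.Kp * ∑ j ∈ range n, (if j % (p.P + 1) = p.P then 0 else 1 + mx j) ≤
        ∑ i ∈ range (b n), (1 + ap i) := by
      intro n
      induction n with
      | zero => simp
      | succ n ih =>
        rw [sum_range_succ, mul_add, bs]
        by_cases h : n % (p.P + 1) = p.P
        · rw [if_pos h, if_pos h, mul_zero, add_zero]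
          exact ih.trans (sum_le_sum_of_subset (range_mono (Nat.le_add_right _ _)))
        · rw [if_neg h, if_neg h, ms n h]
          have := hT (b n)
          omega
    have t2 : ∑ i ∈ range (b (p.J k + 1)), (1 + ap i) ≤ 2 * C + (p.Lc + p.K) :=
      SegEx_tail _ k _ _ _ (by omega) hC fun i hi => by rw [h0 i hi]
    have t3 : ∑ j ∈ range (p.J k + 1), (if j % (p.P + 1) = p.P then 0 else 1 + mx j) ≤
        (2 * C + p.Lc + p.K) / p.Kp := by
      rw [Nat.le_div_iff_mul_le hK, mul_comm]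
      have := t1 (p.J k + 1)
      omega
    have t4 : ∑ j ∈ range (p.J k + 1), (if j % (p.P + 1) = p.P then 1 + p.Am else 0) =
        p.N k * (1 + p.Am) := by
      have := SegEx_rec p.P (1 + p.Am) 0
        (fun n => ∑ j ∈ range n, if j % (p.P + 1) = p.P then 1 + p.Am else 0) (by simp)
        (fun j => sum_range_succ _ _) (p.N k) 1 hP
      simpa [Pm.J] using this
    have t5 : ∑ j ∈ range (p.J k + 1), (1 + mx j) =
        ∑ j ∈ range (p.J k + 1), (if j % (p.P + 1) = p.P then 0 else 1 + mx j) +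
        ∑ j ∈ range (p.J k + 1), (if j % (p.P + 1) = p.P then 1 + p.Am else 0) := by
      rw [← sum_add_distrib]
      refine sum_congr rfl fun j _ => ?_
      by_cases h : j % (p.P + 1) = p.P
      · rw [if_pos h, if_pos h, ml j h, zero_add]
      · rw [if_neg h, if_neg h, add_zero]
    omega

theorem SegEx_tel (W bs bl : ℕ → ℕ) (h : ∀ j, bs j + bl j ≤ bs (j + 1)) (n : ℕ) :
    ∑ j ∈ range n, ∑ o ∈ range (bl j), W (bs j + o) ≤ ∑ i ∈ range (bs n), W i := by
  induction n with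
  | zero => simp
  | succ n ih =>
    have h1 : ∑ i ∈ range (bs n + bl n), W i ≤ ∑ i ∈ range (bs (n + 1)), W i :=
      sum_le_sum_of_subset (range_mono (h n))
    rw [sum_range_add] at h1
    rw [sum_range_succ]
    omega

theorem seg_ex (p : Pm) (hP : 1 ≤ p.P) (hK : 1 ≤ p.Kp) (k : ℕ) (a : ℕ → ℕ) (C : ℕ)
    (ha : ∀ i < k, a i ≤ p.Am) (hC : ∀ π < 2, cls k a π ≤ C) : Nonempty (Seg p k a C) := by
  obtain ⟨ap, ap1, ap0⟩ : ∃ ap : ℕ → ℕ, (∀ i < k, ap i = a i) ∧ ∀ i, k ≤ i → ap i = 0 :=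
    ⟨fun i => if i < k then a i else 0, fun i h => if_pos h, fun i h => if_neg (by omega)⟩
  have apM : ∀ i, ap i ≤ p.Am := by
    intro i
    by_cases h : i < k
    · rw [ap1 i h]
      exact ha i h
    · rw [ap0 i (by omega)]
      exact Nat.zero_le _
  have hT : ∑ i ∈ range k, (1 + ap i) ≤ 2 * C := by
    have e : ∑ i ∈ range k, (1 + ap i) = cls k a 0 + cls k a 1 := by
      unfold cls
      rw [← sum_add_distrib]
      refine sum_congr rfl fun i hi => ?_
      rw [ap1 i (mem_range.1 hi)]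
      split_ifs <;> omega
    have := hC 0 (by omega)
    have := hC 1 (by omega)
    omega
  obtain ⟨st, mx, s0, s1, s2, s3, s4, s5, s6, s7, s8⟩ := SegEx_dat p hP hK k ap C apM ap0 hT
  obtain ⟨bs, b0, b1⟩ : ∃ bs : ℕ → ℕ, bs 0 = 0 ∧ ∀ j, bs (j + 1) = st j + 2 * p.Mj j + 1 :=
    ⟨fun j => Nat.casesOn j 0 fun j => st j + 2 * p.Mj j + 1, rfl, fun _ => rfl⟩
  have b2 : ∀ j, bs (j + 1) + 1 ≤ st (j + 1) := fun j => by
    have := s1 j
    have := b1 j
    omega
  have b3 : ∀ j, bs j ≤ st j := fun j => by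
    cases j with
    | zero => omega
    | succ j =>
      have := b2 j
      omega
  obtain ⟨bl, l1⟩ : ∃ bl : ℕ → ℕ, ∀ j, bs j + bl j = st j + 1 :=
    ⟨fun j => st j + 1 - bs j, fun j => by
      have := b3 j
      dsimp only
      omega⟩
  obtain ⟨av, a1, a2, a3⟩ : ∃ av : ℕ → ℕ → ℕ, (∀ j, av j (bl j - 1) = mx j) ∧
      (∀ j, av (j + 1) 0 = mx j) ∧
      ∀ j o, o ≠ bl j - 1 → (o ≠ 0 ∨ j = 0) → av j o = ap (bs j + o) := by
    refine ⟨fun j o => if o = bl j - 1 then mx j else if o = 0 ∧ 0 < j then mx (j - 1)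
      else ap (bs j + o), fun j => if_pos rfl, fun j => ?_, fun j o h1 h2 => ?_⟩
    · have := l1 (j + 1)
      have := b2 j
      dsimp only
      rw [if_neg (by omega), if_pos ⟨rfl, by omega⟩, Nat.add_sub_cancel]
    · dsimp only
      rw [if_neg h1, if_neg (by omega)]
  have a4 : ∀ j o, o = bl j - 1 ∨ (o = 0 ∧ ∃ i, j = i + 1) ∨ av j o = ap (bs j + o) := by
    intro j o
    by_cases h1 : o = bl j - 1
    · exact Or.inl h1
    · by_cases h2 : o ≠ 0 ∨ j = 0
      · exact Or.inr (Or.inr (a3 j o h1 h2))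
      · exact Or.inr (Or.inl ⟨by omega, j - 1, by omega⟩)
  have aM : ∀ j o, av j o ≤ p.Am := by
    intro j o
    rcases a4 j o with h | ⟨h, i, hi⟩ | h
    · rw [h, a1]
      exact s4 _
    · rw [h, hi, a2]
      exact s4 _
    · rw [h]
      exact apM _
  have eW : p.Wb C k = (2 * C + p.Lc + p.K) / p.Kp + p.N k * (1 + p.Am) + (1 + p.Am) := by
    unfold Pm.Wb
    ring
  have wl : ∑ j ∈ range (p.J k + 1), (1 + mx j) ≤ p.Wb C k := by omega
  have wf : ∑ j ∈ range (p.J k + 1), (1 + av j 0) ≤ p.Wb C k := by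
    rw [sum_range_succ']
    simp only [a2]
    rw [sum_range_succ] at s8
    have := aM 0 0
    omega
  refine ⟨⟨bs, bl, av, mx, b0, fun j => ?_, fun j => ?_, fun j => ?_, aM, a1, a2,
    fun j h => ⟨(s3 j h).1, ?_⟩, fun j o h1 h2 => ?_, fun j o h1 h2 => ?_, ?_, fun π hπ => ?_,
    wf, wl⟩⟩
  · have := l1 j
    have := b1 j
    omega
  · have := l1 j
    have := b3 j
    omega
  · have := l1 j
    cases j with
    | zero => omega
    | succ j =>
      have := b1 j
      have := s2 j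
      omega
  · have := l1 j
    have := (s3 j h).2
    omega
  · rw [← ap1 _ h2]
    rcases a4 j o with h | ⟨h, i, hi⟩ | h
    · have e : bs j + o = st j + 0 := by
        have := l1 j
        omega
      rw [e, h, a1]
      exact s5 j 0 (by omega)
    · rw [h, hi, a2, b1, add_zero, add_assoc]
      exact s5 i _ (by omega)
    · rw [h]
  · rw [← ap1 _ h2, l1, add_assoc]
    exact s5 j _ (by omega)
  · have e : p.J k = k / p.Lc * (p.P + 1) + p.P + 1 := by
      unfold Pm.J Pm.N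
      ring
    have := s6 _ e.symm
    rw [e, b1]
    exact this
  · have v1 : ∀ j, ∑ o ∈ range (bl j), wt π (bs j + o) (av j o) ≤
        ∑ o ∈ range (bl j), wt π (bs j + o) (ap (bs j + o)) + (1 + av j 0) + (1 + mx j) := by
      intro j
      have u1 : ∑ o ∈ range (bl j), wt π (bs j + o) (av j o) ≤
          ∑ o ∈ range (bl j), (wt π (bs j + o) (ap (bs j + o)) +
            (if o = 0 then 1 + av j 0 else 0) + if o = bl j - 1 then 1 + mx j else 0) := by
        refine sum_le_sum fun o _ => ?_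
        have w : wt π (bs j + o) (av j o) ≤ 1 + av j o := by
          unfold wt
          split_ifs <;> omega
        rcases a4 j o with h | ⟨h, -⟩ | h
        · rw [if_pos h, ← a1, ← h]
          omega
        · rw [if_pos h]
          subst h
          omega
        · rw [h]
          omega
      rw [sum_add_distrib, sum_add_distrib, sum_ite_eq', sum_ite_eq'] at u1
      split_ifs at u1 <;> omega
    have v2 := sum_le_sum fun j (_ : j ∈ range (p.J k + 1)) => v1 j
    rw [sum_add_distrib, sum_add_distrib] at v2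
    have v3 := SegEx_tel (fun i => wt π i (ap i)) bs bl (fun j => by
      have := l1 j
      have := b1 j
      omega) (p.J k + 1)
    have v4 : ∑ i ∈ range (bs (p.J k + 1)), wt π i (ap i) ≤ C + (p.Lc + p.K) := by
      refine SegEx_tail _ k _ _ _ (by rw [b1]; exact s7) ?_ fun i hi => ?_
      · refine le_trans (le_of_eq ?_) (hC π hπ)
        unfold cls wt
        exact sum_congr rfl fun i hi => by rw [ap1 i (mem_range.1 hi)]
      · rw [ap0 i hi]
        unfold wt
        split_ifs <;> omega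
    unfold Pm.Vb
    omega

end Pool.Agent.Work.MP_ede3c6_co.W
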