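import Pool.Agent.Work.MP_ede3c6_co.W.P3
import Pool.Agent.Work.MP_ede3c6_co.W.InnEx
import Pool.Agent.Work.MP_ede3c6_co.W.SegEx
import Pool.Agent.Work.MP_ede3c6_co.W.AlcEx
import Pool.Agent.Work.MP_ede3c6_co.W.Par

/-! Assembly of the embedding. -/

set_option autoImplicit false

namespace Pool.Agent.Work.MP_ede3c6_co.W

open Finset Vol

namespace Cy
variable (x : Cy)

/-- segment and offset of a spine vertex -/
def pos : ℕ → ℕ × ℕ
  | 0 => (0, 0)
  | i + 1 => if (pos i).2 + 1 < x.sl (pos i).1 then ((pos i).1, (pos i).2 + 1)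
      else ((pos i).1 + 1, 0)

theorem sl_pos (j : ℕ) : 0 < x.sl j := lt_of_lt_of_le (x.S.bl1 j) (Nat.le_add_right _ _)

theorem pos_spec (i : ℕ) : (x.pos i).2 < x.sl (x.pos i).1 ∧ x.S.bs (x.pos i).1 + (x.pos i).2 = i := by
  induction i with
  | zero => exact ⟨x.sl_pos 0, by simp [pos, x.S.bs0]⟩
  | succ i ih =>
    rw [pos]
    split_ifs with h
    · exact ⟨h, by simp only; omega⟩
    · refine ⟨x.sl_pos _, ?_⟩
      have := x.S.bss (x.pos i).1
      unfold Cx.sl Cx.bl at h ih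
      simp only
      omega

theorem pos_lt {i : ℕ} (h : i < x.k) : (x.pos i).1 < x.J := by
  by_contra q
  have m : Monotone x.S.bs := monotone_nat_of_le_succ fun j => by
    rw [x.S.bss]
    omega
  have := m (not_lt.1 q)
  have := x.S.cov
  have := (x.pos_spec i).2
  unfold Cx.J at *
  omega

theorem sv_add {j o j' o' : ℕ} {c d : Fin x.p.G}
    (h : x.rv j o + e (x.gl c) = x.rv j' o' + e (x.gl d)) : x.sv x.bS j o = x.sv x.bS j' o' := by
  funext b
  have := congrFun h (Sum.inr (Sum.inl b))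
  simpa [rv, gl, e_apply] using this

theorem contained : (cat x.k x.a).IsContained (cube x.n) := by
  let Y : ℕ → Lay x.I x.p.Zn x.Cl := fun i => x.lay (x.dec (x.sv x.bS (x.pos i).1 (x.pos i).2))
  let c : ℕ → x.Cl := fun i => x.cl (x.pos i).1 (x.pos i).2
  let l : ℕ → x.p.Lab := fun i => x.lb (x.pos i).1 (x.pos i).2
  let r : ℕ → V x.R := fun i => x.rv (x.pos i).1 (x.pos i).2
  have hs : ∀ i < x.k, (Y i).St (c i) (l i) ∧ (Y i).pr (c i) = (i : ZMod 2) ∧
      x.a i ≤ (Y i).ty (c i) := fun i hi => by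
    obtain ⟨h1, h2, h3⟩ := x.site (x.pos_lt hi) (x.pos_spec i).1
    rw [(x.pos_spec i).2] at h2 h3
    exact ⟨h1, h2, h3 hi⟩
  have hd : ∀ i < x.k, ∀ m < x.a i,
      x.lamR (x.gl (x.dir ((Y i).ld (c i) m))) = (Y i).ld (c i) m := fun i hi m hm => by
    obtain ⟨h1, -, h3⟩ := hs i hi
    rcases (Y i).ld_mem h1.1 (hm.trans_le h3) with h | h
    exacts [x.hU _ h, x.hJ _ h.1 h.2]
  have hi : ∀ i < x.k, ∀ j < x.k, c i = c j → l i = l j → r i = r j → i = j :=
    fun i hi j hj h1 h2 h3 => by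
      obtain ⟨k1, k2⟩ := x.inj (x.pos_lt hi) (x.pos_lt hj) (x.pos_spec i).1 (x.pos_spec j).1 h1 h2 h3
      rw [← (x.pos_spec i).2, ← (x.pos_spec j).2, k1, k2]
  refine emb x.lamR x.k x.a l r (fun i m => x.gl (x.dir ((Y i).ld (c i) m))) (fun i h => ?_)
    (fun i j h1 h2 h3 h4 h5 => ?_) (fun i j m h1 h2 h3 h4 h5 h6 => ?_)
    (fun i j m m' h1 h2 h3 h4 h5 h6 h7 => ?_) ?_
  · have := x.step (x.pos_lt (Nat.lt_of_succ_lt h)) (x.pos_spec i).1
    simp only [l, r, pos]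
    split_ifs with q
    · exact this
    · have k : (x.pos i).2 + 1 = x.sl (x.pos i).1 := by
        have := (x.pos_spec i).1
        omega
      rwa [k, x.glue_lb, x.glue_rv] at this
  · have hY : Y i = Y j := by simp only [Y, (x.rv_inj h5).2.1]
    obtain ⟨a1, a2, -⟩ := hs i h1
    obtain ⟨b1, b2, -⟩ := hs j h2
    rw [hY] at a1 a2
    exact hi i h1 j h2 ((Y j).b1 a1 (h4 ▸ b1) (a2.trans (h3.trans b2.symm))) h4 h5
  · have hY : Y i = Y j := by
      have k : x.sv x.bS (x.pos i).1 (x.pos i).2 = x.sv x.bS (x.pos j).1 (x.pos j).2 := by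
        funext b
        have := congrFun h6 (Sum.inr (Sum.inl b))
        simpa [r, rv, gl, e_apply] using this
      simp only [Y, k]
    obtain ⟨a1, a2, -⟩ := hs i h1
    obtain ⟨b1, b2, b3⟩ := hs j h2
    rw [hY] at a1 a2
    rw [hd j h2 m h3] at h5
    exact (Y j).b2 a1 b1 (h3.trans_le b3) h5 (by rw [a2, b2, h4])
  · have hY : Y i = Y j := by simp only [Y, x.sv_add h7]
    obtain ⟨a1, a2, a3⟩ := hs i h1
    obtain ⟨b1, b2, b3⟩ := hs j h2
    rw [hd j h2 m' h4, hd i h1 m h3] at h6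
    rw [hY] at a1 a2 a3 h6 h7
    obtain ⟨k1, rfl, k3⟩ := (Y j).b3 a1 b1 (h3.trans_le a3) (h4.trans_le b3) h6
      (a2.trans (h5.trans b2.symm))
    rw [k1] at h7
    exact ⟨hi i h1 j h2 k1 k3 (add_right_cancel h7), rfl⟩
  · rw [card_Lb, x.ok.dim]
    simp

end Cy

theorem dir_ex {α : Type} [Zero α] (T : Finset α) {G : ℕ} (h0 : 0 < G) (h : T.card ≤ G) :
    ∃ (lam : Fin G → α) (dir : α → Fin G), ∀ δ ∈ T, lam (dir δ) = δ := by
  classical
  obtain ⟨f⟩ : Nonempty (T ↪ Fin G) := Function.Embedding.nonempty_of_card_le (by simpa using h)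
  refine ⟨fun c => if q : ∃ y, f y = c then (q.choose : α) else 0,
    fun δ => if q : δ ∈ T then f ⟨δ, q⟩ else ⟨0, h0⟩, fun δ hδ => ?_⟩
  have q : ∃ y, f y = f ⟨δ, hδ⟩ := ⟨_, rfl⟩
  simp only [dif_pos hδ, dif_pos q, f.injective q.choose_spec]

theorem near (ε : ℝ) (hε : 0 < ε) : ∃ n0 : ℕ, ∀ n ≥ n0, ∀ (k : ℕ) (a : ℕ → ℕ),
    (∀ i < k, (a i : ℝ) ≤ (1 - ε) * n) → (∀ π < 2, (cls k a π : ℝ) ≤ (1 - ε) * 2 ^ (n - 1)) →
    (cat k a).IsContained (cube n) := by
  classical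
  wlog h1 : ε ≤ 1 generalizing ε
  · obtain ⟨n0, h⟩ := this 1 one_pos le_rfl
    refine ⟨n0, fun n hn k a ha hc => h n hn k a (fun i hi => (ha i hi).trans ?_)
      fun π hπ => (hc π hπ).trans ?_⟩ <;> gcongr <;> linarith
  have hη : 0 < ε / 20 := by positivity
  obtain ⟨m0, hI⟩ := inn_ex _ hη
  obtain ⟨n0, hp⟩ := par_ex ε hε h1 m0
  refine ⟨n0, fun n hn k a ha hc => ?_⟩
  obtain ⟨p, ok, hm, hA, hf⟩ := hp n hn
  obtain ⟨I⟩ := hI p.t p.mu p.kk ok.t0 hm
  have hf := hf (max (cls k a 0) (cls k a 1)) k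
    (by rw [Nat.cast_max]; exact max_le (hc 0 (by omega)) (hc 1 (by omega))) (by
      have : k ≤ cls k a 0 + cls k a 1 := by
        rw [cls, cls, ← sum_add_distrib]
        refine le_trans (by simp) (sum_le_sum (f := fun _ => 1) fun i _ => ?_)
        split_ifs <;> omega
      omega)
  obtain ⟨S⟩ := seg_ex p ok.P0 ok.Kp0 k a (max (cls k a 0) (cls k a 1))
    (fun i hi => by exact_mod_cast (ha i hi).trans hA) (fun π hπ => by
      interval_cases π
      exacts [le_max_left _ _, le_max_right _ _])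
  obtain ⟨A⟩ := alc_ex p hη I S ok hf
  have G0 : 0 < p.G := lt_of_lt_of_le (by positivity) ok.hG
  obtain ⟨lam, dir, hd⟩ := dir_ex (α := p.Lab)
    ((((univ ×ˢ I.Jz).image fun q => W.mk 0 q.1 q.2) ∪ univ.image fun z => W.mk 0 0 z) ∪
      ((univ : Finset (V p.Zn × V (Fin p.t))).image fun q => W.mk q.1 q.2 0) ∪ A.Dl) G0 (by
    refine le_trans ?_ ok.hG
    refine (card_union_le _ _).trans (add_le_add ((card_union_le _ _).trans (add_le_add
      ((card_union_le _ _).trans (add_le_add (card_image_le.trans ?_) (card_image_le.trans ?_)))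
      (card_image_le.trans ?_))) A.dl2)
    · rw [card_product]
      exact Nat.mul_le_mul (by simp) I.cJ
    · simp
    · simp [pow_add])
  obtain ⟨enc⟩ : Nonempty (Fin p.G ↪ V (Fin p.s)) :=
    Function.Embedding.nonempty_of_card_le (by simpa using ok.hs)
  have : Nonempty (Fin p.G) := ⟨⟨0, G0⟩⟩
  obtain ⟨y, hy⟩ := Cx.cy_ex ⟨p, ε / 20, I, k, a, _, S, A, n, ok, hf.e1, lam, dir,
    fun δ h => hd δ (mem_union_left _ (mem_union_right _ (mem_image.2
      ⟨(zo δ, uo δ), mem_univ _, lab_ext rfl rfl h.symm⟩))),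
    fun δ h h' => hd δ (mem_union_left _ (mem_union_left _ (mem_union_left _ (mem_image.2
      ⟨(uo δ, zz δ), mem_product.2 ⟨mem_univ _, h'⟩, lab_ext h.symm rfl rfl⟩)))),
    fun δ h h' => hd δ (mem_union_left _ (mem_union_left _ (mem_union_right _ (mem_image.2
      ⟨zz δ, mem_univ _, lab_ext h.symm h'.symm rfl⟩)))),
    fun δ h => hd δ (mem_union_right _ h), enc, Function.invFun enc,
    Function.leftInverse_invFun enc.injective, fun c => (gad_ex p ok.hH (lam c)).some⟩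
  have := y.contained
  rw [hy] at this
  exact this

end Pool.Agent.Work.MP_ede3c6_co.W
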